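import Pool.Agent.Zilber.Ax.BC

set_option autoImplicit false

/-! AX: the graded subspace (pure linear algebra). `cls s` is the block of the coordinate `s`;
`blk cls l` keeps the coordinates of the block `l` only. -/

namespace Pool.Agent.Zilber.Ax

open Module

variable {F ι : Type} [Field F]

/-- The vectors `v` such that for every `l` the block `l` of `v` is the block `l` of an element of
`A` whose blocks with numbers `> l` are `0`. -/
def gr (cls : ι → ℕ) (A : Submodule F (ι → F)) : Submodule F (ι → F) where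
  carrier := {v | ∀ l, ∃ w ∈ A, (∀ s, l < cls s → w s = 0) ∧ ∀ s, cls s = l → w s = v s}
  zero_mem' := fun _ => ⟨0, A.zero_mem, fun _ _ => rfl, fun _ _ => rfl⟩
  add_mem' := fun {a b} ha hb l => by
    obtain ⟨w, hw, h1, h2⟩ := ha l
    obtain ⟨w', hw', h1', h2'⟩ := hb l
    exact ⟨w + w', A.add_mem hw hw', fun s hs => by rw [Pi.add_apply, h1 s hs, h1' s hs, add_zero],
      fun s hs => by rw [Pi.add_apply, Pi.add_apply, h2 s hs, h2' s hs]⟩
  smul_mem' := fun c a ha l => by
    obtain ⟨w, hw, h1, h2⟩ := ha l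
    exact ⟨c • w, A.smul_mem c hw, fun s hs => by rw [Pi.smul_apply, h1 s hs, smul_zero],
      fun s hs => by rw [Pi.smul_apply, Pi.smul_apply, h2 s hs]⟩

private def blkL (cls : ι → ℕ) (l : ℕ) : (ι → F) →ₗ[F] (ι → F) where
  toFun := blk cls l
  map_add' := fun v w => by
    funext s
    simp only [blk, Pi.add_apply]
    split_ifs <;> simp
  map_smul' := fun c v => by
    funext s
    simp only [blk, Pi.smul_apply, RingHom.id_apply]
    split_ifs <;> simp

private theorem blkL_apply (cls : ι → ℕ) (l : ℕ) (v : ι → F) : blkL cls l v = blk cls l v := rfl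

private theorem blk_of_eq {cls : ι → ℕ} {l : ℕ} {s : ι} (h : cls s = l) (v : ι → F) :
    blk cls l v s = v s := by
  simp [blk, h]

private theorem blk_of_ne {cls : ι → ℕ} {l : ℕ} {s : ι} (h : cls s ≠ l) (v : ι → F) :
    blk cls l v s = 0 := by
  simp [blk, h]

private theorem blk_congr {cls : ι → ℕ} {l : ℕ} {v w : ι → F} (h : ∀ s, cls s = l → w s = v s) :
    blk cls l w = blk cls l v := by
  funext s
  by_cases hs : cls s = l
  · rw [blk_of_eq hs, blk_of_eq hs, h s hs]
  · rw [blk_of_ne hs, blk_of_ne hs]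

theorem gr_mono (cls : ι → ℕ) {A A' : Submodule F (ι → F)} (h : A ≤ A') :
    gr cls A ≤ gr cls A' := by
  intro v hv l
  obtain ⟨w, hw, h1, h2⟩ := hv l
  exact ⟨w, h hw, h1, h2⟩

/-- Proof. For `blk cls l v` and the block `l'`: `w = 0` if `l' ≠ l`. -/
theorem hom_gr (cls : ι → ℕ) (A : Submodule F (ι → F)) : Hom cls (gr cls A) := by
  intro v hv l l'
  by_cases hl : l' = l
  · subst hl
    obtain ⟨w, hw, h1, h2⟩ := hv l'
    exact ⟨w, hw, h1, fun s hs => by rw [h2 s hs, blk_of_eq hs]⟩
  · refine ⟨0, A.zero_mem, fun _ _ => rfl, fun s hs => ?_⟩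
    rw [blk_of_ne (by rw [hs]; exact hl)]
    rfl

/-- Proof. `w = blk cls l v`. -/
theorem le_gr (cls : ι → ℕ) {A : Submodule F (ι → F)} (h : Hom cls A) : A ≤ gr cls A := by
  intro v hv l
  exact ⟨blk cls l v, h v hv l, fun s hs => blk_of_ne (by omega) v, fun s hs => blk_of_eq hs v⟩

variable [Fintype ι]

/-- A vector is the sum of its blocks. -/
theorem sum_blk (cls : ι → ℕ) (v : ι → F) :
    v = ∑ l ∈ Finset.univ.image cls, blk cls l v := by
  funext s
  rw [Finset.sum_apply, Finset.sum_eq_single (cls s)]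
  · rw [blk_of_eq rfl]
  · intro l _ hl
    exact blk_of_ne (fun h => hl h.symm) v
  · intro h
    exact absurd (Finset.mem_image_of_mem cls (Finset.mem_univ s)) h

/-- Proof. `v ∈ gr cls A` is the sum of its blocks, and the block `l` of `v` is the block `l` of
`w ∈ A`, in `A`. -/
theorem gr_of_hom (cls : ι → ℕ) {A : Submodule F (ι → F)} (h : Hom cls A) : gr cls A = A := by
  refine le_antisymm ?_ (le_gr cls h)
  intro v hv
  rw [sum_blk cls v]
  refine Submodule.sum_mem _ fun l _ => ?_
  obtain ⟨w, hw, -, h2⟩ := hv l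
  rw [← blk_congr h2]
  exact h w hw l

/-- Proof. `blk cls l a ⬝ᵥ v = a ⬝ᵥ blk cls l v`. -/
theorem hom_pp (cls : ι → ℕ) {A : Submodule F (ι → F)} (h : Hom cls A) : Hom cls (pp A) := by
  intro a ha l v hv
  have e : blk cls l a ⬝ᵥ v = a ⬝ᵥ blk cls l v := by
    refine Finset.sum_congr rfl fun s _ => ?_
    by_cases hs : cls s = l
    · rw [blk_of_eq hs, blk_of_eq hs]
    · rw [blk_of_ne hs, blk_of_ne hs, zero_mul, mul_zero]
  rw [e]
  exact ha _ (h v hv l)

private def low (cls : ι → ℕ) (n : ℕ) : Submodule F (ι → F) where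
  carrier := {w | ∀ s, n ≤ cls s → w s = 0}
  zero_mem' := fun _ _ => rfl
  add_mem' := fun {a b} ha hb s hs => by rw [Pi.add_apply, ha s hs, hb s hs, add_zero]
  smul_mem' := fun c a ha s hs => by rw [Pi.smul_apply, ha s hs, smul_zero]

omit [Fintype ι] in
private theorem mem_low {cls : ι → ℕ} {n : ℕ} {w : ι → F} :
    w ∈ (low cls n : Submodule F (ι → F)) ↔ ∀ s, n ≤ cls s → w s = 0 := Iff.rfl

private theorem finrank_map_inf_ker (B : Submodule F (ι → F)) (f : (ι → F) →ₗ[F] (ι → F)) :
    finrank F (B.map f) + finrank F (B ⊓ LinearMap.ker f : Submodule F (ι → F)) =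
      finrank F B := by
  have h := LinearMap.finrank_range_add_finrank_ker (f.domRestrict B)
  rw [LinearMap.range_domRestrict, LinearMap.ker_domRestrict] at h
  rw [← Submodule.map_comap_subtype, Submodule.finrank_map_subtype_eq]
  exact h

private theorem low_step (cls : ι → ℕ) (n : ℕ) (B : Submodule F (ι → F)) :
    (B ⊓ low cls (n + 1)) ⊓ LinearMap.ker (blkL cls n) = B ⊓ low cls n := by
  ext x
  simp only [Submodule.mem_inf, mem_low, LinearMap.mem_ker, blkL_apply]
  constructor
  · rintro ⟨⟨hx, h1⟩, h2⟩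
    refine ⟨hx, fun s hs => ?_⟩
    rcases Nat.eq_or_lt_of_le hs with h | h
    · have := congrFun h2 s
      rwa [blk_of_eq h.symm] at this
    · exact h1 s h
  · rintro ⟨hx, h1⟩
    refine ⟨⟨hx, fun s hs => h1 s (by omega)⟩, ?_⟩
    funext s
    by_cases hs : cls s = n
    · rw [blk_of_eq hs, h1 s hs.ge]
      rfl
    · rw [blk_of_ne hs]
      rfl

private theorem low_map (cls : ι → ℕ) (n : ℕ) (A : Submodule F (ι → F)) :
    (A ⊓ low cls (n + 1)).map (blkL cls n) = (gr cls A ⊓ low cls (n + 1)).map (blkL cls n) := by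
  ext y
  simp only [Submodule.mem_map, Submodule.mem_inf, mem_low, blkL_apply]
  constructor
  · rintro ⟨w, ⟨hw, h1⟩, rfl⟩
    refine ⟨blk cls n w, ⟨?_, fun s hs => blk_of_ne (by omega) w⟩,
      blk_congr fun s hs => blk_of_eq hs w⟩
    intro l
    by_cases hl : l = n
    · subst hl
      exact ⟨w, hw, fun s hs => h1 s hs, fun s hs => by rw [blk_of_eq hs]⟩
    · refine ⟨0, A.zero_mem, fun _ _ => rfl, fun s hs => ?_⟩
      rw [blk_of_ne (by rw [hs]; exact hl)]
      rfl
  · rintro ⟨v, ⟨hv, -⟩, rfl⟩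
    obtain ⟨w, hw, h1, h2⟩ := hv n
    exact ⟨w, ⟨hw, fun s hs => h1 s hs⟩, blk_congr h2⟩

private theorem finrank_low (cls : ι → ℕ) (A : Submodule F (ι → F)) (n : ℕ) :
    finrank F (A ⊓ low cls n : Submodule F (ι → F)) =
      finrank F (gr cls A ⊓ low cls n : Submodule F (ι → F)) := by
  induction n with
  | zero =>
    have h0 : (low cls 0 : Submodule F (ι → F)) = ⊥ := by
      rw [eq_bot_iff]
      intro w hw
      rw [Submodule.mem_bot]
      funext s
      exact hw s (Nat.zero_le _)
    rw [h0, inf_bot_eq, inf_bot_eq]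
  | succ n ih =>
    rw [← finrank_map_inf_ker (A ⊓ low cls (n + 1)) (blkL cls n),
      ← finrank_map_inf_ker (gr cls A ⊓ low cls (n + 1)) (blkL cls n), low_step, low_step, ih,
      low_map]

/-- Proof. Let `A_n = {w ∈ A | w s = 0 for n ≤ cls s}`. By induction on `n`:
`dim A_n = dim (gr cls A)_n`. The map `A_(n + 1) → (ι → F)`, `w ↦ blk cls n w`, is linear with
kernel `A_n` and its range is the space of the `blk cls n v`, `v ∈ gr cls A`; and
`(gr cls A)_(n + 1)` is the direct sum of this space and `(gr cls A)_n` (`(gr cls A)` is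
homogeneous, so the same map for `gr cls A` has the same range and the kernel `(gr cls A)_n`). For
`n` larger than all `cls s` the spaces are `A` and `gr cls A`. -/
theorem finrank_gr (cls : ι → ℕ) (A : Submodule F (ι → F)) :
    finrank F (gr cls A) = finrank F A := by
  have h := finrank_low cls A (Finset.univ.sup cls + 1)
  have ht : (low cls (Finset.univ.sup cls + 1) : Submodule F (ι → F)) = ⊤ := by
    rw [eq_top_iff]
    intro w _ s hs
    have := Finset.le_sup (f := cls) (Finset.mem_univ s)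
    omega
  rw [ht, inf_top_eq, inf_top_eq] at h
  exact h.symm

/-- Proof. `rkS I A = dim A - dim (A ⊓ pp I)`, `dim (gr cls A) = dim A`, and
`gr cls (A ⊓ pp I) ≤ gr cls A ⊓ gr cls (pp I) = gr cls A ⊓ pp I` (`gr_mono`, `hom_pp`,
`gr_of_hom`), so `dim (A ⊓ pp I) = dim (gr cls (A ⊓ pp I)) ≤ dim (gr cls A ⊓ pp I)`. -/
theorem rkS_gr (cls : ι → ℕ) {I : Submodule F (ι → F)} (hI : Hom cls I)
    (A : Submodule F (ι → F)) : rkS I (gr cls A) ≤ rkS I A := by
  have h : gr cls (A ⊓ pp I) ≤ gr cls A ⊓ pp I := by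
    refine le_inf (gr_mono cls inf_le_left) ?_
    calc gr cls (A ⊓ pp I) ≤ gr cls (pp I) := gr_mono cls inf_le_right
      _ = pp I := gr_of_hom cls (hom_pp cls hI)
  have h1 := Submodule.finrank_mono h
  rw [finrank_gr] at h1
  unfold rkS
  rw [finrank_gr]
  exact Nat.sub_le_sub_left h1 _

/-- Proof. `≤` is easy: for `v ∈ gr cls A` and `l` the element `em E w`; so
`em E v ∈ gr cls (bc E A)`. Both sides have the dimension of `A` (`finrank_gr`, `finrank_bc`), so
they are equal (`Submodule.eq_of_le_of_finrank_eq`). -/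
theorem bc_gr {E : Type} [Field E] [Algebra F E] (cls : ι → ℕ) (A : Submodule F (ι → F)) :
    bc E (gr cls A) = gr cls (bc E A) := by
  refine Submodule.eq_of_le_of_finrank_eq ?_ ?_
  · refine Submodule.span_le.2 ?_
    rintro _ ⟨v, hv, rfl⟩ l
    obtain ⟨w, hw, h1, h2⟩ := hv l
    refine ⟨em E w, em_mem hw, fun s hs => ?_, fun s hs => ?_⟩
    · rw [em_apply, h1 s hs, map_zero]
    · rw [em_apply, em_apply, h2 s hs]
  · rw [finrank_gr, finrank_bc, finrank_bc, finrank_gr]

/-- Homogeneous spaces stay homogeneous. Proof. `em E (blk cls l v) = blk cls l (em E v)`;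
`Submodule.span_induction`. -/
theorem hom_bc {E : Type} [Field E] [Algebra F E] (cls : ι → ℕ) {A : Submodule F (ι → F)}
    (h : Hom cls A) : Hom cls (bc E A) := by
  intro x hx l
  have h1 : bc E A ≤ (bc E A).comap (blkL cls l) := by
    refine Submodule.span_le.2 ?_
    rintro _ ⟨a, ha, rfl⟩
    have e : blk cls l (em E a) = em E (blk cls l a) := by
      funext s
      by_cases hs : cls s = l
      · rw [em_apply, blk_of_eq hs, blk_of_eq hs, em_apply]
      · rw [em_apply, blk_of_ne hs, blk_of_ne hs, map_zero]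
    change blk cls l (em E a) ∈ bc E A
    rw [e]
    exact em_mem (h a ha l)
  exact h1 hx

/-- Proof. `blk cls l` is linear; `Submodule.span_induction`. -/
theorem hom_span (cls : ι → ℕ) {B : Set (ι → F)}
    (h : ∀ v ∈ B, ∀ l, blk cls l v ∈ Submodule.span F B) : Hom cls (Submodule.span F B) := by
  intro x hx l
  have h1 : Submodule.span F B ≤ (Submodule.span F B).comap (blkL cls l) :=
    Submodule.span_le.2 fun v hv => h v hv l
  exact h1 hx

end Pool.Agent.Zilber.Ax
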