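import Pool.Agent.Zilber.Ax.Der
import Pool.Agent.Zilber.Ax.Gr

set_option autoImplicit false

/-! AX: the space of the vectors of logarithmic derivatives and transcendence bases. -/

namespace Pool.Agent.Zilber.Ax

open Module

variable {E ι : Type} [Field E] [CharZero E]

private theorem der_zero_alg (D : Derivation ℤ E E) (A : Set E) (h : ∀ c ∈ A, D c = 0) (z : E)
    (hz : IsAlgebraic (Subfield.closure A) z) : D z = 0 := by
  have h1 : ∀ c ∈ Subfield.closure A, D c = (0 : Derivation ℤ E E) c := fun c hc =>
    der_eq_closure D 0 A (fun c hc => h c hc) c hc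
  exact der_eq D 0 _ h1 z hz

omit [CharZero E] in
private theorem alg_mono {L L' : Subfield E} (h : L ≤ L') {z : E} (hz : IsAlgebraic L z) :
    IsAlgebraic L' z := by
  obtain ⟨p, hp0, hpz⟩ := hz
  refine ⟨p.map (Subfield.inclusion h), ?_, ?_⟩
  · exact (Polynomial.map_ne_zero_iff (Subfield.inclusion h).injective).2 hp0
  · rw [Polynomial.aeval_def, Polynomial.eval₂_map]
    exact hpz

/-- Proof. The restriction of the coordinates to `B` is injective on `Iv k x`: if `v = lv x D`,
`D ∈ Dk k`, and `D (x b) / x b = 0` for `b ∈ B`, then `D (x b) = 0` for `b ∈ B`, so `D` vanishes on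
the subfield generated by `k` and these `x b` (`der_eq_closure` with `D' = 0`) and `D (x s) = 0` for
all `s` (`der_eq`). -/
theorem finrank_Iv_le (k : Subfield E) (x : ι → E) (B : Finset ι)
    (hB : ∀ s, IsAlgebraic (Subfield.closure ((k : Set E) ∪ x '' (B : Set ι))) (x s)) :
    finrank E (Iv k x) ≤ B.card := by
  let ρ : (Iv k x) →ₗ[E] (B → E) :=
    { toFun := fun v b => (v : ι → E) b
      map_add' := fun _ _ => rfl
      map_smul' := fun _ _ => rfl }
  have hρ : Function.Injective ρ := by
    rw [← LinearMap.ker_eq_bot, LinearMap.ker_eq_bot']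
    rintro ⟨v, hv⟩ h
    obtain ⟨D, hD, rfl⟩ := mem_Iv.1 hv
    have h1 : ∀ c ∈ (k : Set E) ∪ x '' (B : Set ι), D c = 0 := by
      rintro c (hc | ⟨b, hb, rfl⟩)
      · exact hD c hc
      · have h2 : D (x b) / x b = 0 := congrFun h ⟨b, hb⟩
        rcases div_eq_zero_iff.1 h2 with h3 | h3
        · exact h3
        · rw [h3, map_zero]
    have h2 : lv x D = 0 := by
      funext s
      rw [lv_apply, der_zero_alg D _ h1 (x s) (hB s), zero_div, Pi.zero_apply]
    exact Subtype.ext h2
  have h1 := LinearMap.finrank_le_finrank_of_injective hρ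
  rw [Module.finrank_fintype_fun_eq_card, Fintype.card_coe] at h1
  exact h1

omit [CharZero E] in
private theorem sum_apply_der {β : Type} (s : Finset β) (c : β → E)
    (d : β → Derivation ℤ E E) (z : E) :
    (∑ b ∈ s, c b • d b) z = ∑ b ∈ s, c b * d b z := by
  classical
  induction s using Finset.induction_on with
  | empty => rfl
  | insert a s ha ih =>
    rw [Finset.sum_insert ha, Finset.sum_insert ha, Derivation.add_apply, ih,
      Derivation.smul_apply, smul_eq_mul]

/-- Proof. For `D ∈ Dk k` the derivation `∑ b, D (y b) • d b` agrees with `D` on `k` and at the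
`y b`, so at the `x s` (`der_eq_closure`, `der_eq`). -/
theorem Iv_eq_span {β : Type} [Fintype β] [DecidableEq β] (k : Subfield E) (x : ι → E)
    (y : β → E) (d : β → Derivation ℤ E E) (hd : ∀ b, d b ∈ Dk k)
    (hdy : ∀ b b', d b (y b') = if b = b' then 1 else 0)
    (halg : ∀ s, IsAlgebraic (Subfield.closure ((k : Set E) ∪ Set.range y)) (x s)) :
    Iv k x = Submodule.span E (Set.range fun b => lv x (d b)) := by
  apply le_antisymm
  · intro v hv
    obtain ⟨D, hD, rfl⟩ := mem_Iv.1 hv
    have h1 : ∀ c ∈ (k : Set E) ∪ Set.range y, (D - ∑ b, D (y b) • d b) c = 0 := by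
      rintro c (hc | ⟨b', rfl⟩)
      · rw [Derivation.sub_apply, sum_apply_der, hD c hc, Finset.sum_eq_zero, sub_zero]
        intro b _
        rw [hd b c hc, mul_zero]
      · rw [Derivation.sub_apply, sum_apply_der, Finset.sum_eq_single b', hdy, if_pos rfl,
          mul_one, sub_self]
        · intro b _ hb
          rw [hdy, if_neg hb, mul_zero]
        · intro h
          exact absurd (Finset.mem_univ _) h
    have h2 : lv x D = ∑ b, D (y b) • lv x (d b) := by
      funext s
      have h3 := der_zero_alg _ _ h1 (x s) (halg s)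
      rw [Derivation.sub_apply, sub_eq_zero, sum_apply_der] at h3
      rw [lv_apply, h3, Finset.sum_apply, Finset.sum_div]
      refine Finset.sum_congr rfl fun b _ => ?_
      rw [Pi.smul_apply, lv_apply, smul_eq_mul, mul_div_assoc]
    rw [h2]
    exact Submodule.sum_mem _ fun b _ =>
      Submodule.smul_mem _ _ (Submodule.subset_span ⟨b, rfl⟩)
  · rw [Submodule.span_le]
    rintro _ ⟨b, rfl⟩
    exact mem_Iv.2 ⟨d b, hd b, rfl⟩

/-- The space of the vectors of logarithmic derivatives of a product is homogeneous: the function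
`x s` is algebraic over the variables of its block.

Proof. `Iv_eq_span`. If `clb b ≠ cls s` then `d b` kills `k` and the `y b'` with `clb b' = cls s`,
so `d b (x s) = 0`. So `blk cls l (lv x (d b))` is `lv x (d b)` if `l = clb b` and `0` otherwise;
`hom_span`. -/
theorem hom_Iv [Fintype ι] {β : Type} [Fintype β] [DecidableEq β] (k : Subfield E) (x : ι → E)
    (y : β → E) (d : β → Derivation ℤ E E) (hd : ∀ b, d b ∈ Dk k)
    (hdy : ∀ b b', d b (y b') = if b = b' then 1 else 0) (cls : ι → ℕ) (clb : β → ℕ)
    (halg : ∀ s, IsAlgebraic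
      (Subfield.closure ((k : Set E) ∪ y '' {b | clb b = cls s})) (x s)) :
    Hom cls (Iv k x) := by
  have h0 : ∀ b s, clb b ≠ cls s → d b (x s) = 0 := by
    intro b s hbs
    refine der_zero_alg (d b) _ ?_ (x s) (halg s)
    rintro c (hc | ⟨b', hb', rfl⟩)
    · exact hd b c hc
    · rw [hdy, if_neg]
      rintro rfl
      exact hbs hb'
  rw [Iv_eq_span k x y d hd hdy fun s => alg_mono (Subfield.closure_mono
    (Set.union_subset_union_right _ (Set.image_subset_range _ _))) (halg s)]
  refine hom_span cls ?_
  rintro _ ⟨b, rfl⟩ l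
  by_cases hl : l = clb b
  · have h1 : blk cls l (lv x (d b)) = lv x (d b) := by
      funext s
      unfold blk
      by_cases hs : cls s = l
      · rw [if_pos hs]
      · rw [if_neg hs, lv_apply, h0 b s (by rw [← hl]; exact fun h => hs h.symm), zero_div]
    rw [h1]
    exact Submodule.subset_span ⟨b, rfl⟩
  · have h1 : blk cls l (lv x (d b)) = 0 := by
      funext s
      unfold blk
      by_cases hs : cls s = l
      · rw [if_pos hs, lv_apply, h0 b s (by rw [hs]; exact fun h => hl h.symm), zero_div]
        rfl
      · rw [if_neg hs]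
        rfl
    rw [h1]
    exact Submodule.zero_mem _

end Pool.Agent.Zilber.Ax
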