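import Pool.Agent.Zilber.Ax.Der

set_option autoImplicit false

/-! AX: traces of logarithmic derivatives. -/

namespace Pool.Agent.Zilber.Ax

/-! Auxiliary lemmas. -/

private theorem aux_aeval {E Ω : Type} [Field E] [Field Ω] (L : Subfield E) (σ : E →+* Ω)
    (D : Derivation ℤ E E) (D' : Derivation ℤ Ω Ω)
    (hL : ∀ c ∈ L, D' (σ c) = σ (D c)) (z : E) (p : Polynomial L) :
    D' (σ (Polynomial.aeval z p)) - σ (D (Polynomial.aeval z p)) =
      σ (Polynomial.aeval z (Polynomial.derivative p)) * (D' (σ z) - σ (D z)) := by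
  induction p using Polynomial.induction_on' with
  | add p q hp hq =>
    rw [Polynomial.derivative_add, map_add, map_add, map_add, map_add, map_add, map_add, map_add,
      add_mul, ← hp, ← hq]
    ring
  | monomial n c =>
    rw [Polynomial.derivative_monomial, Polynomial.aeval_monomial, Polynomial.aeval_monomial]
    have hc : D' (σ (algebraMap L E c)) = σ (D (algebraMap L E c)) := hL _ c.2
    rw [D.leibniz, D.leibniz_pow, map_mul, D'.leibniz, map_pow, D'.leibniz_pow, hc, map_mul, map_mul]
    simp only [smul_eq_mul, nsmul_eq_mul, map_add, map_mul, map_pow, map_natCast]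
    ring

private theorem comm_der {E Ω : Type} [Field E] [CharZero E] [Field Ω] (L : Subfield E)
    (σ : E →+* Ω) (D : Derivation ℤ E E) (D' : Derivation ℤ Ω Ω)
    (hL : ∀ c ∈ L, D' (σ c) = σ (D c)) (z : E) (hz : IsAlgebraic L z) :
    D' (σ z) = σ (D z) := by
  have h := aux_aeval L σ D D' hL z (minpoly L z)
  rw [minpoly.aeval, map_zero, map_zero, map_zero, map_zero, sub_zero] at h
  have hint : IsIntegral L z := hz.isIntegral
  have hsep : (minpoly L z).Separable := (minpoly.irreducible hint).separable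
  have hne : Polynomial.aeval z (Polynomial.derivative (minpoly L z)) ≠ 0 :=
    hsep.aeval_derivative_ne_zero (minpoly.aeval L z)
  rcases mul_eq_zero.1 h.symm with h1 | h1
  · exact absurd ((map_eq_zero σ).1 h1) hne
  · exact sub_eq_zero.1 h1

private theorem comm_closure {E Ω : Type} [Field E] [Field Ω] (A : Set E) (σ : E →+* Ω)
    (D : Derivation ℤ E E) (D' : Derivation ℤ Ω Ω)
    (hA : ∀ c ∈ A, D' (σ c) = σ (D c)) (z : E) (hz : z ∈ Subfield.closure A) :
    D' (σ z) = σ (D z) := by
  induction hz using Subfield.closure_induction with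
  | mem x hx => exact hA x hx
  | one => rw [map_one, D.map_one_eq_zero, D'.map_one_eq_zero, map_zero]
  | add x y _ _ hx hy => rw [map_add, map_add, map_add, hx, hy, map_add]
  | neg x _ hx => rw [map_neg, map_neg, map_neg, hx, map_neg]
  | inv x _ hx =>
    rw [map_inv₀, D.leibniz_inv, D'.leibniz_inv, hx]
    simp only [smul_eq_mul, map_neg, map_mul, map_pow, map_inv₀]
  | mul x y _ _ hx hy =>
    rw [map_mul, D.leibniz, D'.leibniz, hx, hy]
    simp only [smul_eq_mul, map_add, map_mul]

/-- The logarithmic derivative of a product. -/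
private theorem logder_prod {Ω ι : Type} [Field Ω] (D : Derivation ℤ Ω Ω) (s : Finset ι)
    (f : ι → Ω) (hf : ∀ i ∈ s, f i ≠ 0) :
    D (∏ i ∈ s, f i) / (∏ i ∈ s, f i) = ∑ i ∈ s, D (f i) / f i := by
  classical
  induction s using Finset.induction_on with
  | empty => simp
  | insert a s ha ih =>
    rw [Finset.prod_insert ha, Finset.sum_insert ha,
      ← ih (fun i hi => hf i (Finset.mem_insert_of_mem hi)), D.leibniz]
    have h1 : f a ≠ 0 := hf a (Finset.mem_insert_self a s)
    have h2 : ∏ i ∈ s, f i ≠ 0 :=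
      Finset.prod_ne_zero_iff.2 (fun i hi => hf i (Finset.mem_insert_of_mem hi))
    rw [smul_eq_mul, smul_eq_mul]
    field_simp
    ring

/-- **Norms.** `L` is the subfield generated by `k` and `X`, `E` is algebraic over `L`; the `n i` are the norms of the
`y i` from a finite extension of `L`.

Proof. Let `E0` be the subfield generated over `L` by the `y i` (`IntermediateField L E`, adjoin), a finite
extension of `L` (`IntermediateField.finiteDimensional_adjoin`, the `y i` are integral over the field `L`),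
`N = [E0 : L]`, `n i = Algebra.norm L (y i) ∈ L`, and let `Ω` be an algebraic closure of `E`. For every embedding `σ` of
`E0` in `Ω` over `L` choose an extension `σ' : E →ₐ[L] Ω` (`E` is algebraic over `L`, `Ω` algebraically closed; lift from
the field `E0`, `IsAlgClosed.lift` or `IntermediateField.exists_algHom_of_adjoin_splits`). Let `k'`, `X'` be the images of
`k`, `X` in `Ω`: `X'` is a transcendence basis of `Ω` over `k'`, so there is a derivation `D'` of `Ω` which kills `k'` with
`D' X' = 1` (`exists_der`; or `exists_der_indep` for `β = Unit`, only independence is needed). For every `σ'`: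
`D' (σ' z) = σ' (D z)` for `z ∈ E`: both sides are derivations `E → Ω` (module structure by `σ'`) which agree on `k` and
at `X`, so on `L`, and `E` is algebraic over `L` (uniqueness, as in `der_eq`: for the minimal polynomial `p` of `z` over
`L`, `σ'(p'(z)) * (D' (σ' z) - σ' (D z)) = 0`).
In `Ω`: `n i = ∏ σ, σ (y i)` (`Algebra.norm_eq_prod_embeddings`), so
`D (n i) / n i = D' (n i) / n i = ∑ σ, D' (σ (y i)) / σ (y i) = ∑ σ, σ' (D (y i) / y i)` (logarithmic derivative of a
product). Hence `∑ i, ga i * (D (n i) / n i) = ∑ σ, σ' (∑ i, ga i * (D (y i) / y i)) = 0` (`σ'` fixes `ga i ∈ L`). If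
`y i = X ∈ L` then `n i = X ^ N` (`Algebra.norm_algebraMap`). `n i ≠ 0`: `Algebra.norm_ne_zero_iff`. -/
theorem trace_log {E : Type} [Field E] [CharZero E] (k : Subfield E) (X : E)
    (hX : Transcendental k X)
    (halg : ∀ z : E, IsAlgebraic (Subfield.closure ((k : Set E) ∪ {X})) z)
    (D : Derivation ℤ E E) (hD : D ∈ Dk k) (hDX : D X = 1)
    {m : Type} [Fintype m] (y : m → E) (hy : ∀ i, y i ≠ 0) :
    ∃ (n : m → E) (N : ℕ), 0 < N ∧ (∀ i, n i ≠ 0) ∧
      (∀ i, n i ∈ Subfield.closure ((k : Set E) ∪ {X})) ∧ (∀ i, y i = X → n i = X ^ N) ∧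
      ∀ ga : m → E, (∀ i, ga i ∈ k) → ∑ i, ga i * (D (y i) / y i) = 0 →
        ∑ i, ga i * (D (n i) / n i) = 0 := by
  classical
  set L : Subfield E := Subfield.closure ((k : Set E) ∪ {X}) with hLdef
  have : Algebra.IsAlgebraic L E := ⟨halg⟩
  let Ω := AlgebraicClosure E
  have hkL : ∀ c ∈ k, c ∈ L := fun c hc => Subfield.subset_closure (Or.inl hc)
  have hXL : X ∈ L := Subfield.subset_closure (Or.inr rfl)
  let E0 : IntermediateField L E := IntermediateField.adjoin L (Set.range y)
  have : Finite (Set.range y) := Set.finite_range y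
  have hfd : FiniteDimensional L E0 :=
    IntermediateField.finiteDimensional_adjoin (fun x _ => (halg x).isIntegral)
  have hy0 : ∀ i, y i ∈ E0 := fun i => IntermediateField.subset_adjoin L _ (Set.mem_range_self i)
  let y0 : m → E0 := fun i => ⟨y i, hy0 i⟩
  have hy0ne : ∀ i, y0 i ≠ 0 := by
    intro i h
    exact hy i (congrArg Subtype.val h)
  let n0 : m → L := fun i => Algebra.norm L (y0 i)
  have hn0 : ∀ i, n0 i ≠ 0 := fun i => Algebra.norm_ne_zero_iff.2 (hy0ne i)
  -- the derivation of the algebraic closure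
  let emb : E →+* Ω := algebraMap E Ω
  have hembinj : Function.Injective emb := emb.injective
  have hX' : Transcendental (k.map emb) (emb X) := by
    refine Transcendental.ringHom_of_comp_eq (R := k) (S := k.map emb) (A := E) (B := Ω)
      (emb.restrict k (k.map emb) (fun c hc => ⟨c, hc, rfl⟩)) emb hX ?_ hembinj ?_
    · rintro ⟨c, b, hb, hbc⟩
      exact ⟨⟨b, hb⟩, Subtype.ext hbc⟩
    · ext c
      rfl
  obtain ⟨D', hD', hD'X⟩ := exists_der_indep (k.map emb) (fun _ : Unit => emb X)
    ((algebraicIndependent_unique_type_iff).2 hX') (fun _ => 1)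
  have hD'X : D' (emb X) = 1 := hD'X ()
  have hD'k : ∀ c ∈ k, D' (emb c) = 0 := fun c hc => hD' _ ⟨c, hc, rfl⟩
  -- all embeddings over L commute with the derivations
  have hcomm : ∀ σ : E →ₐ[L] Ω, ∀ z : E, D' (σ z) = σ (D z) := by
    intro σ z
    refine comm_der L (σ : E →+* Ω) D D' (fun c hc => ?_) z (halg z)
    have hfix : ∀ c ∈ L, (σ : E →+* Ω) c = emb c := by
      intro c hc
      exact σ.commutes ⟨c, hc⟩
    refine comm_closure _ (σ : E →+* Ω) D D' (fun c hc => ?_) c hc
    rcases hc with hc | hc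
    · rw [hfix c (hkL c hc), hD'k c hc, hD c hc, map_zero]
    · rw [Set.mem_singleton_iff] at hc
      rw [hc, hfix X hXL, hD'X, hDX, map_one]
  -- the embeddings of the finite extension
  have hext : ∀ σ : E0 →ₐ[L] Ω, ∃ τ : E →ₐ[L] Ω, ∀ z : E0, τ (z : E) = σ z := by
    intro σ
    obtain ⟨τ, hτ⟩ := IsAlgClosed.surjective_domRestrict_of_isAlgebraic (K := L) (L := E0)
      (M := Ω) (E := E) σ
    refine ⟨τ, fun z => ?_⟩
    rw [← hτ]
    rfl
  choose τ hτ using hext
  have hnorm : ∀ i, emb (n0 i : E) = ∏ σ : E0 →ₐ[L] Ω, τ σ (y i) := by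
    intro i
    have h1 := Algebra.norm_eq_prod_embeddings (K := L) (L := E0) Ω (y0 i)
    have h2 : algebraMap L Ω (n0 i) = emb (n0 i : E) := rfl
    rw [← h2, h1]
    refine Finset.prod_congr rfl (fun σ _ => ?_)
    exact (hτ σ (y0 i)).symm
  have hDn : ∀ i, emb (D (n0 i : E) / (n0 i : E)) = ∑ σ : E0 →ₐ[L] Ω, τ σ (D (y i) / y i) := by
    intro i
    have h1 : D' (emb (n0 i : E)) = emb (D (n0 i : E)) := by
      refine comm_closure _ emb D D' (fun c hc => ?_) _ (n0 i).2
      rcases hc with hc | hc
      · rw [hD'k c hc, hD c hc, map_zero]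
      · rw [Set.mem_singleton_iff] at hc
        rw [hc, hD'X, hDX, map_one]
    rw [map_div₀, ← h1, hnorm i, logder_prod D' Finset.univ (fun σ => τ σ (y i))
      (fun σ _ => (map_ne_zero (τ σ)).2 (hy i))]
    refine Finset.sum_congr rfl (fun σ _ => ?_)
    rw [hcomm, map_div₀]
  refine ⟨fun i => (n0 i : E), Module.finrank L E0, Module.finrank_pos, fun i h => hn0 i ?_,
    fun i => (n0 i).2, fun i hi => ?_, fun ga hga hsum => ?_⟩
  · exact Subtype.ext h
  · have h1 : y0 i = algebraMap L E0 ⟨X, hXL⟩ := Subtype.ext hi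
    have h2 : n0 i = (⟨X, hXL⟩ : L) ^ Module.finrank L E0 := by
      change Algebra.norm L (y0 i) = _
      rw [h1, Algebra.norm_algebraMap]
    change (n0 i : E) = _
    rw [h2]
    rfl
  · apply hembinj
    rw [map_zero, map_sum]
    have h1 : ∀ i, emb (ga i * (D (n0 i : E) / (n0 i : E))) =
        ∑ σ : E0 →ₐ[L] Ω, τ σ (ga i * (D (y i) / y i)) := by
      intro i
      rw [map_mul, hDn i, Finset.mul_sum]
      refine Finset.sum_congr rfl (fun σ _ => ?_)
      rw [map_mul]
      have h2 : τ σ (ga i) = emb (ga i) := (τ σ).commutes ⟨ga i, hkL _ (hga i)⟩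
      rw [h2]
    rw [Finset.sum_congr rfl (fun i _ => h1 i), Finset.sum_comm]
    refine Finset.sum_eq_zero (fun σ _ => ?_)
    rw [← map_sum, hsum, map_zero]

end Pool.Agent.Zilber.Ax
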