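import Pool.Agent.Zilber.Ax.Res
import Pool.Agent.Zilber.Ax.Trace

set_option autoImplicit false

/-! AX: linear relations between logarithmic differentials with constant coefficients. -/

namespace Pool.Agent.Zilber.Ax

open Pool.Agent.CITLines

private theorem der_prod_div {E ι : Type} [Field E] (D : Derivation ℤ E E) (f : ι → E)
    (hf : ∀ s, f s ≠ 0) (t : Finset ι) :
    D (∏ s ∈ t, f s) / ∏ s ∈ t, f s = ∑ s ∈ t, D (f s) / f s := by
  classical
  induction t using Finset.induction_on with
  | empty => rw [Finset.prod_empty, Finset.sum_empty, D.map_one_eq_zero, zero_div]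
  | insert a t ha ih =>
    have h1 : ∏ s ∈ t, f s ≠ 0 := Finset.prod_ne_zero_iff.2 fun s _ => hf s
    rw [Finset.prod_insert ha, Finset.sum_insert ha, ← ih, D.leibniz, smul_eq_mul, smul_eq_mul]
    field_simp [hf a, h1]
    ring

private theorem der_zpow_div {E : Type} [Field E] (D : Derivation ℤ E E) {a : E} (ha : a ≠ 0)
    (n : ℤ) : D (a ^ n) / a ^ n = (n : E) * (D a / a) := by
  rw [D.leibniz_zpow, zsmul_eq_mul, smul_eq_mul, zpow_sub_one₀ ha]
  have h1 : a ^ n ≠ 0 := zpow_ne_zero n ha
  field_simp [ha, h1]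

theorem lv_mon {E ι : Type} [Field E] [Fintype ι] (x : ι → E) (hx : ∀ s, x s ≠ 0) (u : ι → ℤ)
    (D : Derivation ℤ E E) : D (mon x u) / mon x u = (fun s => (u s : E)) ⬝ᵥ lv x D := by
  unfold mon
  rw [der_prod_div D (fun s => x s ^ u s) (fun s => zpow_ne_zero _ (hx s))]
  exact Finset.sum_congr rfl fun s _ => der_zpow_div D (hx s) (u s)

private theorem alg_map' {A A' E : Type} [CommRing A] [CommRing A'] [Field E] [Algebra A E]
    [Algebra A' E] (f : A →+* A') (hf : Function.Injective f)
    (hc : ∀ a, algebraMap A' E (f a) = algebraMap A E a) {z : E} (hz : IsAlgebraic A z) :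
    IsAlgebraic A' z := by
  obtain ⟨p, hp, hp0⟩ := hz
  refine ⟨p.map f, (Polynomial.map_ne_zero_iff hf).2 hp, ?_⟩
  have h1 : (algebraMap A' E).comp f = algebraMap A E := RingHom.ext hc
  rw [Polynomial.aeval_def, Polynomial.eval₂_map, h1]
  exact hp0

private theorem mem_adj {E : Type} [Field E] (k : Subfield E) (S : Set E) (z : E) :
    z ∈ IntermediateField.adjoin k S ↔ z ∈ Subfield.closure ((k : Set E) ∪ S) := by
  have h1 : Set.range (algebraMap k E) = (k : Set E) := by
    ext w
    constructor
    · rintro ⟨c, rfl⟩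
      exact c.2
    · intro hw
      exact ⟨⟨w, hw⟩, rfl⟩
  have h2 := IntermediateField.adjoin_toSubfield (F := k) (S := S)
  rw [h1] at h2
  rw [← h2]
  rfl

/-- The transcendental case of `rl`. -/
private theorem rl_key {E m : Type} [Field E] [CharZero E] [Fintype m] (k : Subfield E)
    (y : m → E) (hy : ∀ i, y i ≠ 0) (c : m → E) (hc : ∀ i, c i ∈ k)
    (hind : LinearIndependent ℚ c) (i0 : m) (hX : Transcendental k (y i0))
    (h : ∀ D ∈ Dk k, ∑ i, c i * (D (y i) / y i) = 0) : False := by
  classical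
  set X := y i0 with hXdef
  have hs : AlgebraicIndepOn k id ({X} : Set E) :=
    (algebraicIndependent_singleton_iff (⟨X, rfl⟩ : ({X} : Set E))).2 hX
  obtain ⟨B, hXB, hB⟩ := exists_isTranscendenceBasis_superset hs
  have hXB' : X ∈ B := hXB rfl
  set k1 : Subfield E := Subfield.closure ((k : Set E) ∪ (B \ {X})) with hk1
  have hkk1 : ∀ z ∈ k, z ∈ k1 := fun z hz => Subfield.subset_closure (Or.inl hz)
  -- `X` is transcendental over `k1`
  have hX1 : Transcendental k1 X := by
    have h1 : Transcendental (Algebra.adjoin k ((Subtype.val : B → E) '' {b | (b : E) ≠ X}))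
        ((Subtype.val : B → E) ⟨X, hXB'⟩) :=
      hB.1.transcendental_adjoin (fun hh => hh rfl)
    have h2 : (Subtype.val : B → E) '' {b | (b : E) ≠ X} = B \ {X} := by
      ext w
      constructor
      · rintro ⟨⟨b, hb⟩, hb', rfl⟩
        exact ⟨hb, hb'⟩
      · rintro ⟨hw, hw'⟩
        exact ⟨⟨w, hw⟩, hw', rfl⟩
    rw [h2, ← IntermediateField.transcendental_adjoin_iff] at h1
    intro halg
    refine h1 ?_
    refine alg_map' (k1.subtype.codRestrict (IntermediateField.adjoin k (B \ {X}))
      (fun z => (mem_adj k _ _).2 z.2)) ?_ (fun a => rfl) halg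
    intro a b hab
    have hab' := congrArg (fun w : IntermediateField.adjoin k (B \ {X}) => (w : E)) hab
    exact Subtype.ext hab'
  -- `E` is algebraic over the subfield generated by `k1` and `X`
  have halg : ∀ z : E, IsAlgebraic (Subfield.closure ((k1 : Set E) ∪ {X})) z := by
    intro z
    have h1 := hB.isAlgebraic_field
    have h2 := h1.isAlgebraic z
    have hle : ∀ w ∈ IntermediateField.adjoin k (Set.range (Subtype.val : B → E)),
        w ∈ Subfield.closure ((k1 : Set E) ∪ {X}) := by
      intro w hw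
      rw [mem_adj, Subtype.range_coe] at hw
      refine (Subfield.closure_le.2 ?_) hw
      rintro v (hv | hv)
      · exact Subfield.subset_closure (Or.inl (hkk1 v hv))
      · by_cases hvX : v = X
        · exact Subfield.subset_closure (Or.inr hvX)
        · exact Subfield.subset_closure (Or.inl (Subfield.subset_closure (Or.inr ⟨hv, hvX⟩)))
    refine alg_map' ((IntermediateField.adjoin k
      (Set.range (Subtype.val : B → E))).toSubfield.subtype.codRestrict
      (Subfield.closure ((k1 : Set E) ∪ {X})) (fun w => hle _ w.2)) ?_ (fun a => rfl) h2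
    intro a b hab
    have hab' := congrArg (fun w : Subfield.closure ((k1 : Set E) ∪ {X}) => (w : E)) hab
    exact Subtype.ext hab'
  obtain ⟨D, hD, hDu⟩ := exists_der k (Subtype.val : B → E) hB
    (fun b => if (b : E) = X then 1 else 0)
  have hDX : D X = 1 := by
    have := hDu ⟨X, hXB'⟩
    rwa [if_pos rfl] at this
  have hD1 : D ∈ Dk k1 := by
    intro z hz
    have := der_eq_closure D 0 ((k : Set E) ∪ (B \ {X})) (by
      rintro v (hv | ⟨hv, hvX⟩)
      · rw [hD v hv, Derivation.zero_apply]
      · have h3 := hDu ⟨v, hv⟩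
        have hvX' : ¬ (v = X) := hvX
        rw [if_neg hvX'] at h3
        rw [Derivation.zero_apply]
        exact h3) z hz
    rw [this, Derivation.zero_apply]
  obtain ⟨n, N, hN, hn0, hnL, hnX, hga⟩ := trace_log k1 X hX1 halg D hD1 hDX y hy
  exact res k1 X hX1 D hD1 hDX c (fun i => hkk1 _ (hc i)) hind n hn0 hnL i0 N hN (hnX i0 rfl)
    (hga c (fun i => hkk1 _ (hc i)) (h D hD))

/-- **RL.** If `∑ s, b s dlog (x s) = 0` over the algebraically closed (in `E`) subfield `k` then
`b` is a combination over `k` of integer vectors `u` with `x ^ u ∈ k`.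

Proof. `k` contains `ℚ`. Let `g i` (`i : Fin m`) be a basis of the (finite-dimensional) `ℚ`-span
of the `b s` in `E`; the `g i` are in `k`. `b s = ∑ i, q i s * g i` with rational `q i s`; let `M
> 0` be a common denominator, `u i s = M * q i s`, `c i = g i / M`: `b s = ∑ i, c i * u i s`, the
`c i` are in `k` and linearly independent over `ℚ`. Put `y i = mon x (u i)`; `∑ i, c i * (D (y i)
/ y i) = 0` for `D ∈ Dk k` by `lv_mon` and `h`. Suppose `X := y i0 ∉ k`; it is transcendental over
`k` (`hk`). Let `B ∋ X` be a transcendence basis of `E` over `k` (extend `{X}`), and `k1` the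
subfield generated by `k` and `B \ {X}`. Then `X` is transcendental over `k1`, `E` is algebraic
over the subfield generated by `k1` and `X` (it contains `k` and `B`), and by `exists_der` there
is `D ∈ Dk k` with `D X = 1`, `D b = 0` for `b ∈ B \ {X}`, so `D ∈ Dk k1` (`der_eq_closure` with
`D' = 0`). `trace_log` (for `k1`) gives `n, N`; `∑ i, c i * (D (n i) / n i) = 0` and `n i0 = X ^
N` contradict `res` (for `k1`). -/
theorem rl {E ι : Type} [Field E] [CharZero E] [Fintype ι] (k : Subfield E)
    (hk : ∀ z : E, IsAlgebraic k z → z ∈ k) (x : ι → E) (hx : ∀ s, x s ≠ 0) (b : ι → E)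
    (hb : ∀ s, b s ∈ k) (h : ∀ D ∈ Dk k, b ⬝ᵥ lv x D = 0) :
    ∃ (m : ℕ) (c : Fin m → E) (u : Fin m → ι → ℤ), (∀ i, c i ∈ k) ∧ (∀ i, mon x (u i) ∈ k) ∧
      ∀ s, b s = ∑ i, c i * (u i s : E) := by
  classical
  -- the subfield as a rational subspace
  let kQ : Submodule ℚ E :=
    { carrier := {z | z ∈ k}
      zero_mem' := k.zero_mem
      add_mem' := fun {a b} ha hb => k.add_mem ha hb
      smul_mem' := fun q z hz => by
        change q • z ∈ k
        rw [Rat.smul_def]
        exact k.mul_mem (SubfieldClass.ratCast_mem k q) hz }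
  set V : Submodule ℚ E := Submodule.span ℚ (Set.range b) with hV
  have hVk : V ≤ kQ := by
    rw [hV, Submodule.span_le]
    rintro _ ⟨s, rfl⟩
    exact hb s
  have hfin : FiniteDimensional ℚ V := FiniteDimensional.span_of_finite ℚ (Set.finite_range b)
  have hbV : ∀ s, b s ∈ V := fun s => Submodule.subset_span ⟨s, rfl⟩
  let bas := Module.finBasis ℚ V
  let m := Module.finrank ℚ V
  let g : Fin m → E := fun i => (bas i : E)
  have hg : ∀ i, g i ∈ k := fun i => hVk (bas i).2
  have hgi : LinearIndependent ℚ g :=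
    bas.linearIndependent.map' V.subtype (Submodule.ker_subtype V)
  let q : Fin m → ι → ℚ := fun i s => bas.repr ⟨b s, hbV s⟩ i
  have hq : ∀ s, b s = ∑ i, q i s • g i := by
    intro s
    have h1 := congrArg (Submodule.subtype V) (bas.sum_repr ⟨b s, hbV s⟩)
    rw [map_sum] at h1
    simp only [map_smul, Submodule.subtype_apply] at h1
    exact h1.symm
  -- the common denominator
  let M : ℕ := ∏ p : Fin m × ι, (q p.1 p.2).den
  have hM : 0 < M := Finset.prod_pos fun p _ => (q p.1 p.2).pos
  have hu : ∀ i s, ∃ z : ℤ, (z : ℚ) = (M : ℚ) * q i s := by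
    intro i s
    obtain ⟨e, he⟩ : (q i s).den ∣ M :=
      Finset.dvd_prod_of_mem (fun p : Fin m × ι => (q p.1 p.2).den) (Finset.mem_univ (i, s))
    refine ⟨e * (q i s).num, ?_⟩
    have h1 : (q i s) * ((q i s).den : ℚ) = ((q i s).num : ℚ) := Rat.mul_den_eq_num (q i s)
    rw [he]
    push_cast
    rw [← h1]
    ring
  choose u hu using hu
  have hMQ : (M : ℚ) ≠ 0 := by exact_mod_cast hM.ne'
  have hME : (M : E) ≠ 0 := by exact_mod_cast hM.ne'
  let c : Fin m → E := fun i => g i / (M : E)
  have hcg : ∀ i, c i = ((M : ℚ)⁻¹) • g i := by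
    intro i
    rw [Rat.smul_def]
    push_cast
    rw [inv_mul_eq_div]
  have hck : ∀ i, c i ∈ k := fun i => k.div_mem (hg i) (natCast_mem k M)
  have hci : LinearIndependent ℚ c := by
    have h1 : c = (LinearMap.lsmul ℚ E ((M : ℚ)⁻¹)) ∘ g := by
      funext i
      rw [hcg]
      rfl
    rw [h1]
    refine hgi.map' _ (LinearMap.ker_eq_bot.2 ?_)
    exact LinearMap.lsmul_injective (inv_ne_zero hMQ)
  have hbc : ∀ s, b s = ∑ i, c i * (u i s : E) := by
    intro s
    rw [hq s]
    refine Finset.sum_congr rfl fun i _ => ?_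
    have h1 : ((u i s : ℤ) : E) = (M : E) * (q i s : E) := by
      have h2 := congrArg (fun r : ℚ => (r : E)) (hu i s)
      push_cast at h2
      exact h2
    rw [h1, Rat.smul_def]
    change _ = g i / (M : E) * ((M : E) * (q i s : E))
    field_simp
  refine ⟨m, c, u, hck, fun i0 => ?_, hbc⟩
  by_contra hcon
  have hX : Transcendental k (mon x (u i0)) := fun hh => hcon (hk _ hh)
  have hy : ∀ i, mon x (u i) ≠ 0 := fun i =>
    Finset.prod_ne_zero_iff.2 fun s _ => zpow_ne_zero _ (hx s)
  refine rl_key k (fun i => mon x (u i)) hy c hck hci i0 hX fun D hD => ?_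
  have h1 := h D hD
  calc ∑ i, c i * (D (mon x (u i)) / mon x (u i))
      = ∑ i, c i * ∑ s, (u i s : E) * lv x D s :=
        Finset.sum_congr rfl fun i _ => by rw [lv_mon x hx (u i) D]; rfl
    _ = ∑ s, (∑ i, c i * (u i s : E)) * lv x D s := by
        simp_rw [Finset.mul_sum, Finset.sum_mul]
        rw [Finset.sum_comm]
        exact Finset.sum_congr rfl fun s _ => Finset.sum_congr rfl fun i _ => by ring
    _ = b ⬝ᵥ lv x D := Finset.sum_congr rfl fun s _ => by rw [← hbc s]
    _ = 0 := h1

end Pool.Agent.Zilber.Ax
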