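import Pool.Agent.Zilber.Ax.LinB
import Pool.Agent.Zilber.Ax.RL
import Pool.Agent.Zilber.Ax.AlgA

set_option autoImplicit false

/-! AX: ranks of logarithmic differentials and algebraic independence. -/

namespace Pool.Agent.Zilber.Ax

open Module Pool.Agent.CITLines

variable {E ι : Type} [Field E] [CharZero E]

variable [Fintype ι]

omit [CharZero E] in
private theorem mon_ne (x : ι → E) (hx : ∀ s, x s ≠ 0) (v : ι → ℤ) : mon x v ≠ 0 := by
  unfold mon
  exact Finset.prod_ne_zero_iff.2 fun s _ => zpow_ne_zero _ (hx s)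

/-- **The rank is at least the transcendence degree.**

Proof. Put `z i = mon x (u i)`, not zero. By `exists_der_indep` there are `D i ∈ Dk k` with
`D i (z j) = z j` if `i = j` and `0` otherwise. By `lv_mon` `(u j) ⬝ᵥ lv x (D i)` is `1` if `i = j`
and `0` otherwise. Now `le_rkS_iff` for the sets `A` and `Iv k x` (`Submodule.span_eq`; reindex `m`
by `Fin (card m)`). -/
theorem le_rkS_of_algInd {m : Type} [Fintype m] (k : Subfield E) (x : ι → E)
    (hx : ∀ s, x s ≠ 0) (u : m → ι → ℤ)
    (hu : AlgebraicIndependent k (fun i => mon x (u i))) (A : Submodule E (ι → E))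
    (hA : ∀ i, (fun s => (u i s : E)) ∈ A) : Fintype.card m ≤ rkS (Iv k x) A := by
  classical
  have h1 : ∀ i : m, ∃ D ∈ Dk k, ∀ j, D (mon x (u j)) = if j = i then mon x (u j) else 0 :=
    fun i => exists_der_indep k _ hu _
  choose D hD hD2 using h1
  let e : Fin (Fintype.card m) ≃ m := (Fintype.equivFin m).symm
  have h2 : Fintype.card m ≤
      rkS (Submodule.span E (Iv k x : Set (ι → E))) (Submodule.span E (A : Set (ι → E))) := by
    rw [le_rkS_iff]
    refine ⟨fun i s => (u (e i) s : E), fun j => lv x (D (e j)), fun i => hA _,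
      fun j => mem_Iv.2 ⟨D (e j), hD _, rfl⟩, ?_⟩
    have h3 : (Matrix.of fun i j : Fin (Fintype.card m) =>
        (fun s => (u (e i) s : E)) ⬝ᵥ lv x (D (e j))) = 1 := by
      ext i j
      rw [Matrix.of_apply, ← lv_mon x hx, hD2, Matrix.one_apply]
      by_cases hij : i = j
      · rw [if_pos hij, if_pos (congrArg e hij), div_self (mon_ne x hx _)]
      · rw [if_neg hij, if_neg (fun h => hij (e.injective h)), zero_div]
    rw [h3, Matrix.det_one]
    exact one_ne_zero
  rw [Submodule.span_eq, Submodule.span_eq] at h2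
  exact h2

/-- Common denominators. -/
private theorem exists_den (q : ι → ℚ) : ∃ (N : ℕ) (w : ι → ℤ), N ≠ 0 ∧
    ∀ s, (N : ℚ) * q s = (w s : ℚ) := by
  classical
  refine ⟨∏ t, (q t).den, fun s => ((∏ t ∈ Finset.univ.erase s, (q t).den : ℕ) : ℤ) * (q s).num,
    Finset.prod_ne_zero_iff.2 fun t _ => (q t).den_ne_zero, fun s => ?_⟩
  rw [← Finset.mul_prod_erase _ _ (Finset.mem_univ s)]
  push_cast
  have h1 : ((q s).den : ℚ) * q s = (q s).num := by
    rw [mul_comm]
    exact Rat.mul_den_eq_num (q s)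
  rw [mul_right_comm, h1, mul_comm]

/-- The rank is at most the transcendence degree.

Proof. Let `I = Iv k x`. The linear map `I → (m → E)`, `v ↦ (u i ⬝ᵥ v)_i`, has its kernel in
`pp (bc E U)`: if `D ∈ Dk k` and `u i ⬝ᵥ lv x D = 0` for all `i`, then `D (mon x (u i)) = 0`
(`lv_mon`), so `D (mon x v) = 0` for the integer vectors `v` in `U` (`der_eq_closure`, `der_eq`), so
`v ⬝ᵥ lv x D = 0` for them; they span `U` over `ℚ` and `bc E U` over `E`. So
`rkS I (bc E U) = dim I - dim (I ⊓ pp (bc E U)) ≤ card m` (`rkS_comm`, `rkS_add`). -/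
theorem rkS_le_card {m : Type} [Fintype m] (k : Subfield E) (x : ι → E) (hx : ∀ s, x s ≠ 0)
    (U : Submodule ℚ (ι → ℚ)) (u : m → ι → ℤ)
    (h : ∀ v : ι → ℤ, (fun s => (v s : ℚ)) ∈ U →
      IsAlgebraic (Subfield.closure ((k : Set E) ∪ Set.range fun i => mon x (u i))) (mon x v)) :
    rkS (Iv k x) (bc E U) ≤ Fintype.card m := by
  classical
  have hkey : ∀ v ∈ Iv k x, (∀ i, (fun s => (u i s : E)) ⬝ᵥ v = 0) → v ∈ pp (bc E U) := by
    intro v hv hu
    obtain ⟨D, hD, rfl⟩ := mem_Iv.1 hv
    have h1 : ∀ i, D (mon x (u i)) = 0 := by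
      intro i
      have h2 := hu i
      rw [← lv_mon x hx, div_eq_zero_iff] at h2
      exact h2.resolve_right (mon_ne x hx _)
    have h2 : ∀ c ∈ Subfield.closure ((k : Set E) ∪ Set.range fun i => mon x (u i)),
        D c = (0 : Derivation ℤ E E) c := by
      intro c hc
      refine der_eq_closure D 0 _ ?_ c hc
      rintro z (hz | ⟨i, rfl⟩)
      · exact hD z hz
      · exact h1 i
    have h3 : ∀ w : ι → ℤ, (fun s => (w s : ℚ)) ∈ U → (fun s => (w s : E)) ⬝ᵥ lv x D = 0 := by
      intro w hw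
      have h4 := der_eq D 0 _ h2 (mon x w) (h w hw)
      rw [← lv_mon x hx, h4, Derivation.zero_apply, zero_div]
    unfold bc
    rw [pp_span]
    rintro _ ⟨q, hq, rfl⟩
    obtain ⟨N, w, hN, hw⟩ := exists_den q
    have h5 : (fun s => (w s : ℚ)) = (N : ℚ) • q := by
      funext s
      rw [Pi.smul_apply, smul_eq_mul, hw]
    have h6 := h3 w (by rw [h5]; exact U.smul_mem _ hq)
    have h7 : (fun s => (w s : E)) = (N : E) • em E q := by
      funext s
      rw [Pi.smul_apply, smul_eq_mul, em_apply]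
      have h8 := congrArg (algebraMap ℚ E) (hw s)
      rw [map_mul, map_natCast, map_intCast] at h8
      exact h8.symm
    rw [h7, smul_dotProduct, smul_eq_mul, mul_eq_zero] at h6
    rw [dotProduct_comm]
    exact h6.resolve_left (by exact_mod_cast hN)
  -- the linear map
  let φ : (ι → E) →ₗ[E] (m → E) :=
    { toFun := fun v i => (fun s => (u i s : E)) ⬝ᵥ v
      map_add' := fun v w => by
        funext i
        exact dotProduct_add _ _ _
      map_smul' := fun c v => by
        funext i
        exact dotProduct_smul _ _ _ }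
  have h1 := LinearMap.finrank_range_add_finrank_ker (φ.domRestrict (Iv k x))
  have h2 : finrank E (LinearMap.range (φ.domRestrict (Iv k x))) ≤ Fintype.card m := by
    refine (Submodule.finrank_le _).trans ?_
    rw [Module.finrank_fintype_fun_eq_card]
  have h3 : finrank E (LinearMap.ker (φ.domRestrict (Iv k x))) ≤
      finrank E (Iv k x ⊓ pp (bc E U) : Submodule E (ι → E)) := by
    have h4 : finrank E ((LinearMap.ker (φ.domRestrict (Iv k x))).map (Iv k x).subtype) =
        finrank E (LinearMap.ker (φ.domRestrict (Iv k x))) :=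
      (LinearEquiv.finrank_eq (Submodule.equivMapOfInjective _ (Iv k x).injective_subtype _)).symm
    rw [← h4]
    refine Submodule.finrank_mono ?_
    rintro _ ⟨v, hv, rfl⟩
    refine ⟨v.2, hkey v.1 v.2 fun i => ?_⟩
    exact congrFun (LinearMap.mem_ker.1 hv) i
  have h4 := rkS_add (bc E U) (Iv k x)
  rw [rkS_comm]
  omega

/-- **The rank as a minor of the matrix of partial logarithmic derivatives.**

Proof. `Iv_eq_span`, `le_rkS_iff` for `A = em E '' K` and `B = range`. -/
theorem le_rkS_iff_der {F β : Type} [Field F] [Algebra F E] [Fintype β] [DecidableEq β]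
    (k : Subfield E) (x : ι → E) (y : β → E) (d : β → Derivation ℤ E E) (hd : ∀ b, d b ∈ Dk k)
    (hdy : ∀ b b', d b (y b') = if b = b' then 1 else 0)
    (halg : ∀ s, IsAlgebraic (Subfield.closure ((k : Set E) ∪ Set.range y)) (x s))
    (K : Submodule F (ι → F)) (m : ℕ) :
    m ≤ rkS (Iv k x) (bc E K) ↔ ∃ (R : Fin m → ι → F) (b : Fin m → β), (∀ i, R i ∈ K) ∧
      (Matrix.of fun i j => ∑ s, algebraMap F E (R i s) * (d (b j) (x s) / x s)).det ≠ 0 := by
  rw [Iv_eq_span k x y d hd hdy halg]
  unfold bc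
  rw [le_rkS_iff]
  constructor
  · rintro ⟨R, V, hR, hV, hdet⟩
    choose R' hR' hR2 using hR
    choose b hb using hV
    refine ⟨R', b, hR', ?_⟩
    convert hdet using 3
    funext i
    funext j
    rw [← hR2 i, ← hb j]
    rfl
  · rintro ⟨R, b, hR, hdet⟩
    exact ⟨fun i => em E (R i), fun j => lv x (d (b j)), fun i => ⟨R i, hR i, rfl⟩,
      fun j => ⟨b j, rfl⟩, hdet⟩

end Pool.Agent.Zilber.Ax
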