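import Pool.Agent.Zilber.Ax.Defs

set_option autoImplicit false

/-! AX: existence and uniqueness of derivations in characteristic zero. -/

namespace Pool.Agent.Zilber.Ax

variable {E : Type} [Field E]

private theorem mem_cons_sub {D D' : Derivation ℤ E E} {f : E} :
    f ∈ cons {D - D'} ↔ D f = D' f := by
  rw [mem_cons]
  constructor
  · intro h
    have h1 := h (D - D') rfl
    rw [Derivation.sub_apply, sub_eq_zero] at h1
    exact h1
  · intro h D₁ hD₁
    rw [Set.mem_singleton_iff] at hD₁
    rw [hD₁, Derivation.sub_apply, sub_eq_zero]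
    exact h

/-- Proof. The set where `D` and `D'` agree is a subfield (`Subfield.closure_induction`, or
`cons {D - D'}`). -/
theorem der_eq_closure (D D' : Derivation ℤ E E) (A : Set E) (h : ∀ c ∈ A, D c = D' c) (z : E)
    (hz : z ∈ Subfield.closure A) : D z = D' z := by
  have h1 : Subfield.closure A ≤ cons {D - D'} := by
    rw [Subfield.closure_le]
    intro c hc
    exact mem_cons_sub.2 (h c hc)
  exact mem_cons_sub.1 (h1 hz)

private theorem cons_alg_aux [CharZero E] (S : Set (Derivation ℤ E E)) (z : E)
    (hz : IsAlgebraic (cons S) z) : z ∈ cons S := by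
  intro D hD
  let L : E →ₗ[cons S] E :=
    { toFun := D
      map_add' := map_add D
      map_smul' := by
        intro c f
        have h1 : c • f = (c : E) * f := rfl
        have h2 : D (c : E) = 0 := c.2 D hD
        rw [h1, D.leibniz, h2, smul_zero, add_zero]
        rfl }
  let D' : Derivation (cons S) E E := Derivation.mk' L fun a b => D.leibniz a b
  have hint : IsIntegral (cons S) z := hz.isIntegral
  have h1 := D'.map_aeval (minpoly (cons S) z) z
  rw [minpoly.aeval, map_zero] at h1
  have h2 : Polynomial.aeval z (Polynomial.derivative (minpoly (cons S) z)) ≠ 0 :=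
    (minpoly.irreducible hint).separable.aeval_derivative_ne_zero (minpoly.aeval (cons S) z)
  rcases smul_eq_zero.1 h1.symm with h3 | h3
  · exact absurd h3 h2
  · exact h3

/-- Proof. `D0 = D - D'` vanishes on `L`. Let `p` be the minimal polynomial of `z` over `L`;
`0 = D0 (p(z)) = p'(z) * D0 z` (the coefficients are killed) and `p'(z) ≠ 0` (separable). See the
proof of `Pool.Agent.Srf5.der_eq_zero` (Pool/Agent/Srf5/Ders.lean), which builds the `L`-linear
derivation from `D0` and uses `Derivation.map_aeval`. -/
theorem der_eq [CharZero E] (D D' : Derivation ℤ E E) (L : Subfield E)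
    (h : ∀ c ∈ L, D c = D' c) (z : E) (hz : IsAlgebraic L z) : D z = D' z := by
  have hL : L ≤ cons {D - D'} := fun c hc => mem_cons_sub.2 (h c hc)
  refine mem_cons_sub.1 (cons_alg_aux _ z ?_)
  obtain ⟨p, hp0, hpz⟩ := hz
  refine ⟨p.map (Subfield.inclusion hL), ?_, ?_⟩
  · exact (Polynomial.map_ne_zero_iff (Subfield.inclusion hL).injective).2 hp0
  · rw [Polynomial.aeval_def, Polynomial.eval₂_map]
    exact hpz

/-- The field of constants is algebraically closed in `E`. Proof. `der_eq` with `D' = 0`. -/
theorem cons_alg [CharZero E] (S : Set (Derivation ℤ E E)) (z : E)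
    (hz : IsAlgebraic (cons S) z) : z ∈ cons S := cons_alg_aux S z hz

open TensorProduct in
/-- **Derivations with prescribed values on a transcendence basis.**

Proof. As `Pool.Agent.Srf5.exists_der` (Pool/Agent/Srf5/Ders.lean) with `MvPolynomial β k` in place
of `MvPolynomial (Fin 2) k`: the map `MvPolynomial β k → E` is injective and formally etale
(localisation, then a separable algebraic extension),
`E ⊗ Ω[MvPolynomial β k / k] ≃ Ω[E / k]`
(`KaehlerDifferential.tensorKaehlerEquivOfFormallyEtale`), and
`KaehlerDifferential.mvPolynomialBasis k β` is a basis. This gives a derivation over `k`; restrict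
scalars to `ℤ` (`Derivation.restrictScalars`). -/
theorem exists_der [CharZero E] (k : Subfield E) {β : Type} (y : β → E)
    (hy : IsTranscendenceBasis k y) (u : β → E) :
    ∃ D ∈ Dk k, ∀ b, D (y b) = u b := by
  have hind : AlgebraicIndependent k y := hy.1
  have hinj : Function.Injective (MvPolynomial.aeval y : MvPolynomial β k →ₐ[k] E) := hind
  let _ : Algebra (MvPolynomial β k) E :=
    (MvPolynomial.aeval y : MvPolynomial β k →ₐ[k] E).toAlgebra
  have hmap : algebraMap (MvPolynomial β k) E =
      (MvPolynomial.aeval y : MvPolynomial β k →ₐ[k] E).toRingHom := rfl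
  have : IsScalarTower k (MvPolynomial β k) E := IsScalarTower.of_algebraMap_eq fun z => by
    rw [hmap]
    simp
  have : FaithfulSMul (MvPolynomial β k) E :=
    (faithfulSMul_iff_algebraMap_injective (MvPolynomial β k) E).2 hinj
  have halg' : Algebra.IsAlgebraic (Algebra.adjoin k (Set.range y)) E := hy.isAlgebraic
  have halg2 : Algebra.IsAlgebraic (MvPolynomial β k) E := by
    let e : MvPolynomial β k ≃+* Algebra.adjoin k (Set.range y) :=
      hind.aevalEquiv.toRingEquiv
    refine (Algebra.isAlgebraic_ringHom_iff_of_comp_eq e (RingEquiv.refl E) ?_).1 halg'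
    refine RingHom.ext fun z => ?_
    exact hind.algebraMap_aevalEquiv z
  have hfr : CharZero (FractionRing (MvPolynomial β k)) :=
    charZero_of_injective_algebraMap
      (IsFractionRing.injective (MvPolynomial β k) (FractionRing (MvPolynomial β k)))
  let _ : Algebra (FractionRing (MvPolynomial β k)) E :=
    FractionRing.liftAlgebra (MvPolynomial β k) E
  have h1 : Algebra.IsAlgebraic (FractionRing (MvPolynomial β k)) E :=
    (IsFractionRing.comap_isAlgebraic_iff (A := MvPolynomial β k)
      (K := FractionRing (MvPolynomial β k)) (C := E)).1 halg2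
  have h2 : Algebra.FormallyEtale (FractionRing (MvPolynomial β k)) E :=
    Algebra.FormallyEtale.of_isSeparable _ _
  have h3 : Algebra.FormallyEtale (MvPolynomial β k)
      (FractionRing (MvPolynomial β k)) :=
    Algebra.FormallyEtale.of_isLocalization (M := nonZeroDivisors (MvPolynomial β k))
  have h4 : Algebra.FormallyEtale (MvPolynomial β k) E :=
    Algebra.FormallyEtale.comp (MvPolynomial β k)
      (FractionRing (MvPolynomial β k)) E
  let B := (KaehlerDifferential.mvPolynomialBasis k β).baseChange E
  let φ : KaehlerDifferential k E →ₗ[E] E :=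
    (B.constr E u).comp
      (KaehlerDifferential.tensorKaehlerEquivOfFormallyEtale k
        (MvPolynomial β k) E).symm.toLinearMap
  have key : ∀ i : β, φ (KaehlerDifferential.D k E (y i)) = u i := by
    intro i
    have h5 : y i = algebraMap (MvPolynomial β k) E (MvPolynomial.X i) := by
      rw [hmap]
      simp
    have h6 : (KaehlerDifferential.tensorKaehlerEquivOfFormallyEtale k
        (MvPolynomial β k) E).symm (KaehlerDifferential.D k E (y i)) =
        1 ⊗ₜ KaehlerDifferential.D k (MvPolynomial β k) (MvPolynomial.X i) := by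
      conv_lhs => rw [h5]
      exact KaehlerDifferential.tensorKaehlerEquivOfFormallyEtale_symm_D_algebraMap k
        (MvPolynomial β k) E (MvPolynomial.X i)
    have h7 : B i = 1 ⊗ₜ KaehlerDifferential.D k (MvPolynomial β k)
        (MvPolynomial.X i) := by
      simp [B]
    change B.constr E u ((KaehlerDifferential.tensorKaehlerEquivOfFormallyEtale k
        (MvPolynomial β k) E).symm (KaehlerDifferential.D k E (y i))) = _
    rw [h6, ← h7, Module.Basis.constr_basis]
  refine ⟨(φ.compDer (KaehlerDifferential.D k E)).restrictScalars ℤ, ?_, key⟩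
  intro c hc
  exact (φ.compDer (KaehlerDifferential.D k E)).map_algebraMap ⟨c, hc⟩

/-- Proof. Extend `y` to a transcendence basis (`AlgebraicIndependent` families extend:
`exists_isTranscendenceBasis_superset` or similar for the set `range y`, `y` is injective),
`exists_der`. -/
theorem exists_der_indep [CharZero E] (k : Subfield E) {β : Type} (y : β → E)
    (hy : AlgebraicIndependent k y) (u : β → E) : ∃ D ∈ Dk k, ∀ b, D (y b) = u b := by
  classical
  have h1 : AlgebraicIndepOn k id (Set.range y) := hy.to_subtype_range
  obtain ⟨t, ht, htb⟩ := exists_isTranscendenceBasis_superset h1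
  have hyi : Function.Injective y := hy.injective
  obtain ⟨D, hD, hD2⟩ := exists_der k (fun z : t => (z : E)) htb
    (fun z => if h : ∃ b, y b = z then u h.choose else 0)
  refine ⟨D, hD, fun b => ?_⟩
  have h2 := hD2 ⟨y b, ht ⟨b, rfl⟩⟩
  have h3 : ∃ b', y b' = y b := ⟨b, rfl⟩
  simp only [dif_pos h3] at h2
  rw [h2]
  exact congrArg u (hyi h3.choose_spec)

/-- Proof. `exists_der_indep` for `β = Unit`. -/
theorem exists_der_ne [CharZero E] (k : Subfield E) (z : E) (hz : Transcendental k z) :
    ∃ D ∈ Dk k, D z ≠ 0 := by
  have h1 : AlgebraicIndependent k (fun _ : Unit => z) :=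
    algebraicIndependent_unique_type_iff.2 hz
  obtain ⟨D, hD, h2⟩ := exists_der_indep k (fun _ : Unit => z) h1 (fun _ => 1)
  refine ⟨D, hD, ?_⟩
  rw [h2 ()]
  exact one_ne_zero

end Pool.Agent.Zilber.Ax
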