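import Pool.Agent.Zilber.Ax.Defs

set_option autoImplicit false

/-! AX: subspaces which are stable under derivations. -/

namespace Pool.Agent.Zilber.Ax

/-- In a stable subspace there is below every nonzero vector a vector with constant coordinates:
take a nonzero vector of minimal support. -/
private theorem stab_min {E m : Type} [Field E] [Fintype m] (S : Set (Derivation ℤ E E))
    (W : Submodule E (m → E)) (hW : ∀ D ∈ S, ∀ f ∈ W, (fun i => D (f i)) ∈ W)
    (f : m → E) (hf : f ∈ W) (hf0 : f ≠ 0) : ∃ g ∈ W, (∀ i, g i ∈ cons S) ∧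
      (∃ i, f i ≠ 0 ∧ g i = 1) ∧ ∀ i, f i = 0 → g i = 0 := by
  classical
  have hne : ∃ n : ℕ, ∃ g ∈ W, g ≠ 0 ∧ (∀ i, f i = 0 → g i = 0) ∧
      (Finset.univ.filter fun i => g i ≠ 0).card = n := ⟨_, f, hf, hf0, fun _ h => h, rfl⟩
  obtain ⟨g, hg, hg0, hgs, hgc⟩ := Nat.find_spec hne
  have hmin : ∀ h ∈ W, (∀ i, g i = 0 → h i = 0) → (∃ i, g i ≠ 0 ∧ h i = 0) → h = 0 := by
    intro h hh h1 h2
    by_contra h3
    obtain ⟨i, h4, h5⟩ := h2
    refine Nat.find_min hne (m := (Finset.univ.filter fun i => h i ≠ 0).card) ?_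
      ⟨h, hh, h3, fun i hi => h1 i (hgs i hi), rfl⟩
    rw [← hgc]
    refine Finset.card_lt_card (Finset.ssubset_iff_of_subset ?_ |>.2 ⟨i, ?_, ?_⟩)
    · intro j hj
      rw [Finset.mem_filter] at hj ⊢
      exact ⟨hj.1, fun h0 => hj.2 (h1 j h0)⟩
    · exact Finset.mem_filter.2 ⟨Finset.mem_univ _, h4⟩
    · intro h6
      exact (Finset.mem_filter.1 h6).2 h5
  obtain ⟨i, hi⟩ := Function.ne_iff.1 hg0
  have hi' : g i ≠ 0 := hi
  have hu : ((g i)⁻¹ • g) i = 1 := by
    rw [Pi.smul_apply, smul_eq_mul, inv_mul_cancel₀ hi']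
  refine ⟨(g i)⁻¹ • g, W.smul_mem _ hg, fun j => ?_, ⟨i, fun h0 => hi' (hgs i h0), hu⟩,
    fun j hj => ?_⟩
  · rw [mem_cons]
    intro D hD
    have h7 := hmin _ (hW D hD _ (W.smul_mem (g i)⁻¹ hg)) (fun l hl => ?_) ⟨i, hi', ?_⟩
    · exact congrFun h7 j
    · rw [Pi.smul_apply, hl, smul_zero, map_zero]
    · change D (((g i)⁻¹ • g) i) = 0
      rw [hu, D.map_one_eq_zero]
  · rw [Pi.smul_apply, hgs j hj, smul_zero]

/-- **A subspace of `m → E` which is stable under the derivations of `S` is spanned by vectors with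
constant coordinates.**

Proof. Every nonzero vector `f` of `W` has below it (with support in the support of `f`) a nonzero
vector `g` with constant coordinates and one coordinate `g i = 1`; subtract `f i • g` and use induction
on the size of the support. -/
theorem stab {E m : Type} [Field E] [Fintype m] (S : Set (Derivation ℤ E E))
    (W : Submodule E (m → E)) (hW : ∀ D ∈ S, ∀ f ∈ W, (fun i => D (f i)) ∈ W) :
    W ≤ Submodule.span E {f | f ∈ W ∧ ∀ i, f i ∈ cons S} := by
  classical
  have key : ∀ (n : ℕ) (f : m → E), f ∈ W → (Finset.univ.filter fun i => f i ≠ 0).card = n →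
      f ∈ Submodule.span E {f | f ∈ W ∧ ∀ i, f i ∈ cons S} := by
    intro n
    induction n using Nat.strong_induction_on with
    | _ n ih =>
      intro f hf hn
      by_cases hf0 : f = 0
      · rw [hf0]
        exact Submodule.zero_mem _
      obtain ⟨g, hg, hgc, ⟨i, hi, hgi⟩, hgs⟩ := stab_min S W hW f hf hf0
      have h1 : f - f i • g ∈ Submodule.span E {f | f ∈ W ∧ ∀ i, f i ∈ cons S} := by
        refine ih _ ?_ _ (W.sub_mem hf (W.smul_mem _ hg)) rfl
        rw [← hn]
        refine Finset.card_lt_card (Finset.ssubset_iff_of_subset ?_ |>.2 ⟨i, ?_, ?_⟩)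
        · intro j hj
          rw [Finset.mem_filter] at hj ⊢
          refine ⟨hj.1, fun h0 => hj.2 ?_⟩
          rw [Pi.sub_apply, Pi.smul_apply, h0, hgs j h0, smul_zero, sub_zero]
        · exact Finset.mem_filter.2 ⟨Finset.mem_univ _, hi⟩
        · intro h6
          refine (Finset.mem_filter.1 h6).2 ?_
          rw [Pi.sub_apply, Pi.smul_apply, hgi, smul_eq_mul, mul_one, sub_self]
      have h2 : f i • g ∈ Submodule.span E {f | f ∈ W ∧ ∀ i, f i ∈ cons S} :=
        Submodule.smul_mem _ _ (Submodule.subset_span ⟨hg, hgc⟩)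
      have h3 := Submodule.add_mem _ h1 h2
      rwa [sub_add_cancel] at h3
  exact fun f hf => key _ f hf rfl

end Pool.Agent.Zilber.Ax
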