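import Pool.Agent.Zilber.Ax.BC
import Pool.Agent.Zilber.Ax.Stab
import Pool.Agent.Zilber.Ax.Der
import Pool.Agent.Zilber.Ax.RL

set_option autoImplicit false

/-! AX: the core inequality. -/

namespace Pool.Agent.Zilber.Ax

open Module Pool.Agent.CITLines

/-- The commutator of derivations and logarithmic derivatives.

Proof. `D (D' x / x) = D (D' x) / x - D' x * D x / x ^ 2` and the same with `D`, `D'` exchanged. -/
theorem lv_comm {E ι : Type} [Field E] (x : ι → E) (hx : ∀ s, x s ≠ 0)
    (D D' : Derivation ℤ E E) (s : ι) : D (lv x D' s) = lv x ⁅D, D'⁆ s + D' (lv x D s) := by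
  rw [lv_apply, lv_apply, lv_apply, Derivation.commutator_apply, Derivation.leibniz_div,
    Derivation.leibniz_div]
  have h := hx s
  simp only [smul_eq_mul]
  field_simp
  ring

private theorem dot_comm {E ι : Type} [Field E] [Fintype ι] (x : ι → E) (hx : ∀ s, x s ≠ 0)
    (a : ι → E) (D D' : Derivation ℤ E E) (h1 : ∀ s, D (a s) = 0) (h2 : ∀ s, D' (a s) = 0)
    (h0 : a ⬝ᵥ lv x D = 0) : D (a ⬝ᵥ lv x D') = a ⬝ᵥ lv x ⁅D, D'⁆ := by
  have h3 : D' (a ⬝ᵥ lv x D) = 0 := by rw [h0, map_zero]
  have h4 : D' (a ⬝ᵥ lv x D) = ∑ s, a s * D' (lv x D s) := by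
    rw [dotProduct, map_sum]
    refine Finset.sum_congr rfl fun s _ => ?_
    rw [Derivation.leibniz, h2 s, smul_zero, add_zero, smul_eq_mul]
  have h5 : D (a ⬝ᵥ lv x D') = ∑ s, a s * D (lv x D' s) := by
    rw [dotProduct, map_sum]
    refine Finset.sum_congr rfl fun s _ => ?_
    rw [Derivation.leibniz, h1 s, smul_zero, add_zero, smul_eq_mul]
  rw [h5]
  have h6 : ∑ s, a s * D (lv x D' s) = a ⬝ᵥ lv x ⁅D, D'⁆ + ∑ s, a s * D' (lv x D s) := by
    rw [dotProduct, ← Finset.sum_add_distrib]
    refine Finset.sum_congr rfl fun s _ => ?_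
    rw [lv_comm x hx D D' s, mul_add]
  rw [h6, ← h4, h3, add_zero]

/-- **The core inequality.** The `a i` are constant vectors, linearly independent, and annihilate the logarithmic
derivatives of the derivations in `S`; `k = cons S`.

Proof. Put `k = cons S`, `T = Iv k x`, `A = span (range a)`, `V = span (lv x '' S)`. `S ⊆ Dk k`, so `V ≤ T`; `A ≤ pp V` (`ha0`,
`pp_span`), so `V ≤ T ⊓ pp A` (`le_pp_comm`). By `rkS_add`, `rkS_comm`:
`card m - dim (A ⊓ pp T) = rkS T A = rkS A T = dim T - dim (T ⊓ pp A) ≤ dim T - dim V`. It remains to show that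
`A ⊓ pp T` is contained in the span of the integer vectors `u` with `mon x u ∈ k`. Let `W ≤ (m → E)` be the subspace of the
`f` with `∑ i, f i • a i ∈ pp T`. `W` is stable under `D ∈ S`: let `f ∈ W` and `D' ∈ Dk k`, so
`∑ i, f i * (a i ⬝ᵥ lv x D') = 0`. Apply `D`: `D (a i ⬝ᵥ lv x D') = a i ⬝ᵥ lv x ⁅D, D'⁆ + D' (a i ⬝ᵥ lv x D)` (`lv_comm`, the
`a i s` are killed by `D` and `D'`) `= a i ⬝ᵥ lv x ⁅D, D'⁆` (`ha0`), and `∑ i, f i * (a i ⬝ᵥ lv x ⁅D, D'⁆) = 0` as
`⁅D, D'⁆ ∈ Dk k`. So `∑ i, D (f i) * (a i ⬝ᵥ lv x D') = 0`. By `stab` `W` is spanned by its vectors with coordinates in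
`k`. For such an `f` the vector `b = ∑ i, f i • a i` has coordinates in `k` and `b ⬝ᵥ lv x D' = 0` for `D' ∈ Dk k`, so it is a
combination of such integer vectors by `rl` (`k` is algebraically closed in `E` by `cons_alg`). -/
theorem core {E ι m : Type} [Field E] [CharZero E] [Fintype ι] [Fintype m]
    (S : Set (Derivation ℤ E E)) (x : ι → E) (hx : ∀ s, x s ≠ 0) (a : m → ι → E)
    (ha : ∀ i s, a i s ∈ cons S) (ha0 : ∀ i, ∀ D ∈ S, a i ⬝ᵥ lv x D = 0)
    (hind : LinearIndependent E a) :
    Fintype.card m + finrank E (Submodule.span E (lv x '' S)) ≤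
      finrank E (Iv (cons S) x) + finrank E (Submodule.span E (Set.range a) ⊓
        Submodule.span E {v | ∃ u : ι → ℤ, mon x u ∈ cons S ∧ v = fun s => (u s : E)} :
          Submodule E (ι → E)) := by
  classical
  have hSk : ∀ D ∈ S, D ∈ Dk (cons S) := fun D hD c hc => hc D hD
  have hVT : Submodule.span E (lv x '' S) ≤ Iv (cons S) x := by
    rw [Submodule.span_le]
    rintro v ⟨D, hD, rfl⟩
    exact ⟨D, hSk D hD, rfl⟩
  have hAV : Submodule.span E (Set.range a) ≤ pp (Submodule.span E (lv x '' S)) := by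
    rw [Submodule.span_le]
    rintro v ⟨i, rfl⟩
    refine pp_span.mpr ?_
    rintro v ⟨D, hD, rfl⟩
    exact ha0 i D hD
  have hVA := le_pp_comm hAV
  have hcard : finrank E (Submodule.span E (Set.range a)) = Fintype.card m :=
    finrank_span_eq_card hind
  have h1 : finrank E (Submodule.span E (lv x '' S)) ≤
      finrank E (Iv (cons S) x ⊓ pp (Submodule.span E (Set.range a)) : Submodule E (ι → E)) :=
    Submodule.finrank_mono (le_inf hVT hVA)
  have h2 := rkS_add (Iv (cons S) x) (Submodule.span E (Set.range a))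
  have h3 := rkS_add (Submodule.span E (Set.range a)) (Iv (cons S) x)
  have h4 := rkS_comm (Iv (cons S) x) (Submodule.span E (Set.range a))
  have h5 : (Submodule.span E (Set.range a) ⊓ pp (Iv (cons S) x) : Submodule E (ι → E)) ≤
      Submodule.span E (Set.range a) ⊓
        Submodule.span E {v | ∃ u : ι → ℤ, mon x u ∈ cons S ∧ v = fun s => (u s : E)} := by
    refine le_inf inf_le_left ?_
    rintro y ⟨hy1, hy2⟩
    obtain ⟨f, hf⟩ := (Submodule.mem_span_range_iff_exists_fun E).mp hy1
    have hLf : ∀ g : m → E, Fintype.linearCombination E a g = ∑ i, g i • a i := fun g => by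
      rw [Fintype.linearCombination_apply]
    have hsum : ∀ (g : m → E) (v : ι → E), (∑ i, g i • a i) ⬝ᵥ v = ∑ i, g i * (a i ⬝ᵥ v) := by
      intro g v
      rw [sum_dotProduct]
      refine Finset.sum_congr rfl fun i _ => ?_
      rw [smul_dotProduct, smul_eq_mul]
    have hWmem : ∀ g : m → E, g ∈ (pp (Iv (cons S) x)).comap (Fintype.linearCombination E a) ↔
        ∀ D' ∈ Dk (cons S), ∑ i, g i * (a i ⬝ᵥ lv x D') = 0 := by
      intro g
      rw [Submodule.mem_comap, mem_pp, hLf]
      constructor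
      · intro h D' hD'
        rw [← hsum]
        exact h _ ⟨D', hD', rfl⟩
      · rintro h v ⟨D', hD', rfl⟩
        rw [hsum]
        exact h D' hD'
    have hst := stab S ((pp (Iv (cons S) x)).comap (Fintype.linearCombination E a)) (by
      intro D hD g hg
      rw [hWmem] at hg ⊢
      intro D' hD'
      have hbr : ⁅D, D'⁆ ∈ Dk (cons S) := by
        intro c hc
        rw [Derivation.commutator_apply, hD' c hc, hc D hD, map_zero, map_zero, sub_zero]
      have e1 : D (∑ i, g i * (a i ⬝ᵥ lv x D')) = 0 := by rw [hg D' hD', map_zero]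
      rw [map_sum] at e1
      have e2 : ∀ i, D (g i * (a i ⬝ᵥ lv x D')) =
          g i * (a i ⬝ᵥ lv x ⁅D, D'⁆) + D (g i) * (a i ⬝ᵥ lv x D') := by
        intro i
        rw [Derivation.leibniz, dot_comm x hx (a i) D D' (fun s => ha i s D hD)
          (fun s => hD' _ (ha i s)) (ha0 i D hD), smul_eq_mul, smul_eq_mul,
          mul_comm (a i ⬝ᵥ lv x D')]
      rw [Finset.sum_congr rfl fun i _ => e2 i, Finset.sum_add_distrib, hg _ hbr, zero_add] at e1
      exact e1)
    have hfW : f ∈ (pp (Iv (cons S) x)).comap (Fintype.linearCombination E a) := by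
      rw [Submodule.mem_comap, hLf, hf]
      exact hy2
    have hyL : y ∈ ((Submodule.span E {g : m → E |
        g ∈ (pp (Iv (cons S) x)).comap (Fintype.linearCombination E a) ∧
          ∀ i, g i ∈ cons S}).map (Fintype.linearCombination E a)) :=
      ⟨f, hst hfW, by rw [hLf, hf]⟩
    rw [Submodule.map_span] at hyL
    refine Submodule.span_le.mpr ?_ hyL
    rintro b ⟨g, ⟨hg1, hg2⟩, rfl⟩
    obtain ⟨M, c, u, hc, hu, hb⟩ := rl (cons S) (fun z hz => cons_alg S z hz) x hx
      (Fintype.linearCombination E a g)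
      (by
        intro s
        rw [hLf, Finset.sum_apply]
        refine sum_mem fun i _ => ?_
        rw [Pi.smul_apply, smul_eq_mul]
        exact mul_mem (hg2 i) (ha i s))
      (by
        intro D hD
        exact hg1 _ ⟨D, hD, rfl⟩)
    have hb' : Fintype.linearCombination E a g = ∑ i, c i • (fun s => (u i s : E)) := by
      funext s
      rw [hb s, Finset.sum_apply]
      rfl
    rw [hb']
    exact Submodule.sum_mem _ fun i _ => Submodule.smul_mem _ _
      (Submodule.subset_span ⟨u i, hu i, rfl⟩)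
  have h6 := Submodule.finrank_mono h5
  omega

end Pool.Agent.Zilber.Ax
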