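import Pool.Agent.Zilber.Ax.UDer
import Pool.Agent.Zilber.Ax.Core
import Pool.Agent.Zilber.Ax.AlgB

set_option autoImplicit false

/-! AX: the Ax lemma for ultraproducts. -/

namespace Pool.Agent.Zilber.Ax

open Module Filter Pool.Agent.LSharp Pool.Agent.CITLines

private theorem mk_zpow {J : Type} (𝒰 : Ultrafilter J) {F : J → Type} [∀ j, Field (F j)]
    (y : ∀ j, F j) (n : ℤ) : Ult.mk 𝒰 F (fun j => y j ^ n) = Ult.mk 𝒰 F y ^ n := by
  cases n with
  | ofNat n =>
    simp only [Int.ofNat_eq_natCast, zpow_natCast]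
    rw [← map_pow]
    rfl
  | negSucc n =>
    simp only [zpow_negSucc]
    rw [← map_pow, Ult.mk_inv]
    rfl

private theorem mk_div {J : Type} (𝒰 : Ultrafilter J) {F : J → Type} [∀ j, Field (F j)]
    (y z : ∀ j, F j) : Ult.mk 𝒰 F (fun j => y j / z j) = Ult.mk 𝒰 F y / Ult.mk 𝒰 F z := by
  rw [div_eq_mul_inv, ← Ult.mk_inv, ← map_mul]
  congr 1
  funext j
  rw [Pi.mul_apply, div_eq_mul_inv]

/-- Proof. `Ult.mk` is a ring homomorphism and `Ult.mk_inv`. -/
theorem mon_ult {J : Type} (𝒰 : Ultrafilter J) {F : J → Type} [∀ j, Field (F j)] {ι : Type}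
    [Fintype ι] (x : ∀ j, ι → F j) (u : ι → ℤ) :
    mon (fun s => Ult.mk 𝒰 F (fun j => x j s)) u = Ult.mk 𝒰 F (fun j => mon (x j) u) := by
  have h1 : (fun j => mon (x j) u) = ∏ s, fun j => x j s ^ u s := by
    funext j
    rw [Finset.prod_apply]
    rfl
  rw [h1, map_prod]
  exact Finset.prod_congr rfl fun s _ => (mk_zpow 𝒰 (fun j => x j s) (u s)).symm

/-- The transcendence degree is a lower bound for the rank of the internal derivations.

Proof. Let `X s = mk (x j s)`. For `b ∈ B` and almost all `j` `exists_der_indep` gives `d j ∈ Dk (k j)` with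
`d j (x j b') = x j b'` if `b' = b` and `0` for the other `b' ∈ B`; `exists_uder` gives `D_b ∈ UD 𝒰 k`, and
`lv X D_b b'` is `1` if `b' = b` and `0` for the other `b' ∈ B`. So the vectors `lv X D_b` are linearly
independent. -/
theorem card_le_UD {J : Type} (𝒰 : Ultrafilter J) {F : J → Type} [∀ j, Field (F j)]
    [∀ j, CharZero (F j)] (k : ∀ j, Subfield (F j)) {ι : Type} [Fintype ι] (x : ∀ j, ι → F j)
    (hx : ∀ j s, x j s ≠ 0) (B : Finset ι)
    (hB : ∀ᶠ j in (𝒰 : Filter J), AlgebraicIndependent (k j) (fun b : B => x j b)) :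
    B.card ≤ finrank (Ult 𝒰 F)
      (Submodule.span (Ult 𝒰 F) (lv (fun s => Ult.mk 𝒰 F (fun j => x j s)) '' UD 𝒰 k)) := by
  classical
  have h1 : ∀ b : B, ∀ j, ∃ D : Derivation ℤ (F j) (F j), D ∈ Dk (k j) ∧
      (AlgebraicIndependent (k j) (fun b : B => x j b) → ∀ b' : B,
        D (x j b') = if b' = b then x j b' else 0) := by
    intro b j
    by_cases h : AlgebraicIndependent (k j) (fun b : B => x j b)
    · obtain ⟨D, hD, hD'⟩ := exists_der_indep (k j) (fun b : B => x j b) h
        (fun b' => if b' = b then x j b' else 0)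
      exact ⟨D, hD, fun _ => hD'⟩
    · exact ⟨0, (Dk (k j)).zero_mem, fun h' => absurd h' h⟩
  choose d hd hd' using h1
  choose DD hDD using fun b : B => exists_uder 𝒰 (d b)
  have hX0 : ∀ s, Ult.mk 𝒰 F (fun j => x j s) ≠ 0 := by
    intro s h
    obtain ⟨j, hj⟩ := (Ult.mk_eq_zero.1 h).exists
    exact hx j s hj
  have hval : ∀ b b' : B, lv (fun s => Ult.mk 𝒰 F (fun j => x j s)) (DD b) b' =
      if b' = b then 1 else 0 := by
    intro b b'
    rw [lv_apply, hDD b]
    by_cases hbb : b' = b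
    · rw [if_pos hbb]
      have e : Ult.mk 𝒰 F (fun j => d b j (x j b')) = Ult.mk 𝒰 F (fun j => x j b') := by
        rw [Ult.mk_eq_mk]
        filter_upwards [hB] with j hj
        rw [hd' b j hj b', if_pos hbb]
      rw [e]
      exact div_self (hX0 _)
    · rw [if_neg hbb]
      have e : Ult.mk 𝒰 F (fun j => d b j (x j b')) = 0 := by
        rw [Ult.mk_eq_zero]
        filter_upwards [hB] with j hj
        rw [hd' b j hj b', if_neg hbb]
      rw [e, zero_div]
  have hli : LinearIndependent (Ult 𝒰 F)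
      (fun b : B => lv (fun s => Ult.mk 𝒰 F (fun j => x j s)) (DD b)) := by
    rw [Fintype.linearIndependent_iff]
    intro g hg b
    have h2 := congrFun hg b
    rw [Finset.sum_apply, Finset.sum_eq_single b] at h2
    · rw [Pi.smul_apply, hval b b, if_pos rfl, smul_eq_mul, mul_one] at h2
      exact h2
    · intro b' _ hb'
      rw [Pi.smul_apply, hval b' b, if_neg (Ne.symm hb'), smul_zero]
    · intro h3
      exact absurd (Finset.mem_univ b) h3
  have h3 := finrank_span_eq_card hli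
  rw [Fintype.card_coe] at h3
  rw [← h3]
  refine Submodule.finrank_mono (Submodule.span_mono ?_)
  rintro v ⟨b, rfl⟩
  exact ⟨DD b, ⟨d b, hd b, hDD b⟩, rfl⟩

private theorem linInd_int {E ι m : Type} [Field E] [CharZero E] [Fintype ι] [Fintype m]
    {a : m → ι → ℤ} (h : LinearIndependent ℤ a) :
    LinearIndependent E (fun i => (fun s => (a i s : E) : ι → E)) := by
  have h1 : LinearIndependent ℤ (fun i => (fun s => (a i s : ℚ) : ι → ℚ)) := by
    let f : (ι → ℤ) →ₗ[ℤ] (ι → ℚ) :=
      { toFun := fun v s => (v s : ℚ)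
        map_add' := fun v w => by
          funext s
          simp
        map_smul' := fun c v => by
          funext s
          simp }
    have hf : LinearMap.ker f = ⊥ := by
      rw [LinearMap.ker_eq_bot]
      intro v w hvw
      funext s
      have h0 : (v s : ℚ) = (w s : ℚ) := congrFun hvw s
      exact_mod_cast h0
    exact h.map' f hf
  have h2 : LinearIndependent ℚ (fun i => (fun s => (a i s : ℚ) : ι → ℚ)) :=
    (LinearIndependent.iff_fractionRing ℤ ℚ).mp h1
  have h3 := linInd_em (F := ℚ) (E := E) h2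
  have h4 : (fun i => em E (fun s => (a i s : ℚ) : ι → ℚ)) =
      (fun i => (fun s => (a i s : E) : ι → E)) := by
    funext i s
    rw [em_apply]
    simp
  rwa [h4] at h3

/-- **The Ax lemma.** `x j` are points over the fields `F j`, of transcendence degree `≥ card B` over `k j`, with
`card m` independent multiplicative relations modulo `k j`; the ultraproduct `X` of the points has transcendence
degree `≤ card B'` over the internal field `Ultk 𝒰 k`. Then there are at least `card m + card B - card B'` independent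
standard relations modulo `Ultk 𝒰 k`.

Proof. `Ult 𝒰 F` has characteristic zero (`charZero_ult`). Let `S = UD 𝒰 k`, so `cons S = Ultk 𝒰 k` (`cons_UD`), and
`a' i s = mk (a j i s)`. These are killed by `S` (integers). They are linearly independent: if `∑ i, c i • a' i = 0`,
`c i = mk (c j i)`, then for almost all `j` `∑ i, c j i * a j i s = 0` for all `s`, and the integer vectors `a j i` are
linearly independent over `F j` (`linInd_em` over `ℚ`), so `c i = 0`. For `D ∈ S` given by `d j`: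
`a' i ⬝ᵥ lv X D = mk (a j i ⬝ᵥ lv (x j) (d j)) = mk (d j (mon (x j) (a j i)) / mon (x j) (a j i)) = 0` (`lv_mon`). `core`:
`card m + dim (span (lv X '' S)) ≤ dim (Iv (cons S) X) + dim (.. ⊓ span {u | mon X u ∈ cons S})`; use `card_le_UD`,
`finrank_Iv_le` and: by `mon_ult`, `mem_Ultk` the last span is `bc (Ult 𝒰 F) U` for the span `U` of the statement
(`bc_span`), of dimension `finrank ℚ U` (`finrank_bc`). -/
theorem ax_ult {J : Type} (𝒰 : Ultrafilter J) {F : J → Type} [∀ j, Field (F j)]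
    [∀ j, CharZero (F j)] (k : ∀ j, Subfield (F j))
    (hk : ∀ j (z : F j), IsAlgebraic (k j) z → z ∈ k j) {ι m : Type} [Fintype ι] [Fintype m]
    (x : ∀ j, ι → F j) (hx : ∀ j s, x j s ≠ 0) (a : J → m → ι → ℤ)
    (ha : ∀ᶠ j in (𝒰 : Filter J), LinearIndependent ℤ (a j) ∧
      ∀ i, mon (x j) (a j i) ∈ k j) (B : Finset ι)
    (hB : ∀ᶠ j in (𝒰 : Filter J), AlgebraicIndependent (k j) (fun b : B => x j b))
    (B' : Finset ι)
    (hB' : ∀ s, IsAlgebraic (Subfield.closure ((Ultk 𝒰 k : Set (Ult 𝒰 F)) ∪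
      (fun s => Ult.mk 𝒰 F (fun j => x j s)) '' (B' : Set ι))) (Ult.mk 𝒰 F (fun j => x j s))) :
    Fintype.card m + B.card ≤ B'.card + finrank ℚ (Submodule.span ℚ
      {v : ι → ℚ | ∃ u : ι → ℤ, (∀ᶠ j in (𝒰 : Filter J), mon (x j) u ∈ k j) ∧
        v = fun s => (u s : ℚ)}) := by
  classical
  have : CharZero (Ult 𝒰 F) := charZero_ult 𝒰
  have hX0 : ∀ s, Ult.mk 𝒰 F (fun j => x j s) ≠ 0 := by
    intro s h
    obtain ⟨j, hj⟩ := (Ult.mk_eq_zero.1 h).exists
    exact hx j s hj
  have hcons : cons (UD 𝒰 k) = Ultk 𝒰 k := cons_UD 𝒰 k hk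
  have hc1 : ∀ (i : m) (s : ι), Ult.mk 𝒰 F (fun j => (a j i s : F j)) ∈ cons (UD 𝒰 k) := by
    intro i s
    rw [hcons, mem_Ultk]
    exact Eventually.of_forall fun j => intCast_mem (k j) _
  have hc2 : ∀ i : m, ∀ D ∈ UD 𝒰 k, (fun s => Ult.mk 𝒰 F (fun j => (a j i s : F j))) ⬝ᵥ
      lv (fun s => Ult.mk 𝒰 F (fun j => x j s)) D = 0 := by
    rintro i D ⟨d, hd, hD⟩
    have e : (fun s => Ult.mk 𝒰 F (fun j => (a j i s : F j))) ⬝ᵥ
        lv (fun s => Ult.mk 𝒰 F (fun j => x j s)) D =
        Ult.mk 𝒰 F (fun j => (fun s => (a j i s : F j)) ⬝ᵥ lv (x j) (d j)) := by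
      have e1 : (fun j => (fun s => (a j i s : F j)) ⬝ᵥ lv (x j) (d j)) =
          ∑ s, (fun j => (a j i s : F j)) * (fun j => d j (x j s) / x j s) := by
        funext j
        rw [Finset.sum_apply]
        rfl
      rw [e1, map_sum, dotProduct]
      refine Finset.sum_congr rfl fun s _ => ?_
      rw [map_mul, mk_div, lv_apply, hD]
    rw [e, Ult.mk_eq_zero]
    filter_upwards [ha] with j hj
    rw [← lv_mon (x j) (hx j) (a j i) (d j), hd j _ (hj.2 i), zero_div]
  have hc3 : LinearIndependent (Ult 𝒰 F)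
      (fun (i : m) (s : ι) => Ult.mk 𝒰 F (fun j => (a j i s : F j))) := by
    rw [Fintype.linearIndependent_iff]
    intro g hg
    have h1 : ∀ s, ∀ᶠ j in (𝒰 : Filter J), ∑ i, (g i).rep j * (a j i s : F j) = 0 := by
      intro s
      have h2 := congrFun hg s
      have h3 : Ult.mk 𝒰 F (fun j => ∑ i, (g i).rep j * (a j i s : F j)) = 0 := by
        have e1 : (fun j => ∑ i, (g i).rep j * (a j i s : F j)) =
            ∑ i, (g i).rep * (fun j => (a j i s : F j)) := by
          funext j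
          rw [Finset.sum_apply]
          rfl
        rw [e1, map_sum]
        rw [Finset.sum_apply] at h2
        refine Eq.trans (Finset.sum_congr rfl fun i _ => ?_) h2
        rw [map_mul, Ult.mk_rep, Pi.smul_apply, smul_eq_mul]
      exact Ult.mk_eq_zero.1 h3
    have h4 := eventually_all.mpr h1
    have h5 : ∀ᶠ j in (𝒰 : Filter J), ∀ i, (g i).rep j = 0 := by
      filter_upwards [h4, ha] with j hj hj'
      have h6 := Fintype.linearIndependent_iff.mp (linInd_int (E := F j) hj'.1)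
        (fun i => (g i).rep j) (by
          funext s
          rw [Finset.sum_apply]
          exact hj s)
      exact h6
    intro i
    rw [← Ult.mk_rep (g i), Ult.mk_eq_zero]
    filter_upwards [h5] with j hj
    exact hj i
  have hmain := core (UD 𝒰 k) (fun s => Ult.mk 𝒰 F (fun j => x j s)) hX0
    (fun (i : m) (s : ι) => Ult.mk 𝒰 F (fun j => (a j i s : F j))) hc1 hc2 hc3
  have h1 := card_le_UD 𝒰 k x hx B hB
  have h2 := finrank_Iv_le (Ultk 𝒰 k) (fun s => Ult.mk 𝒰 F (fun j => x j s)) B' hB'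
  rw [hcons] at hmain
  have hspan : Submodule.span (Ult 𝒰 F) {v : ι → Ult 𝒰 F | ∃ u : ι → ℤ,
      mon (fun s => Ult.mk 𝒰 F (fun j => x j s)) u ∈ Ultk 𝒰 k ∧
        v = fun s => (u s : Ult 𝒰 F)} = bc (Ult 𝒰 F) (Submodule.span ℚ
      {v : ι → ℚ | ∃ u : ι → ℤ, (∀ᶠ j in (𝒰 : Filter J), mon (x j) u ∈ k j) ∧
        v = fun s => (u s : ℚ)}) := by
    rw [bc_span]
    congr 1
    ext v
    constructor
    · rintro ⟨u, hu, rfl⟩
      refine ⟨fun s => (u s : ℚ), ⟨u, ?_, rfl⟩, ?_⟩
      · rw [mon_ult, mem_Ultk] at hu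
        exact hu
      · funext s
        rw [em_apply]
        simp
    · rintro ⟨w, ⟨u, hu, rfl⟩, rfl⟩
      refine ⟨u, ?_, ?_⟩
      · rw [mon_ult, mem_Ultk]
        exact hu
      · funext s
        rw [em_apply]
        simp
  have h3 : finrank (Ult 𝒰 F) (Submodule.span (Ult 𝒰 F) (Set.range
      (fun (i : m) (s : ι) => Ult.mk 𝒰 F (fun j => (a j i s : F j)))) ⊓
      Submodule.span (Ult 𝒰 F) {v : ι → Ult 𝒰 F | ∃ u : ι → ℤ,
      mon (fun s => Ult.mk 𝒰 F (fun j => x j s)) u ∈ Ultk 𝒰 k ∧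
        v = fun s => (u s : Ult 𝒰 F)} : Submodule (Ult 𝒰 F) (ι → Ult 𝒰 F)) ≤
      finrank ℚ (Submodule.span ℚ
      {v : ι → ℚ | ∃ u : ι → ℤ, (∀ᶠ j in (𝒰 : Filter J), mon (x j) u ∈ k j) ∧
        v = fun s => (u s : ℚ)}) := by
    rw [← finrank_bc (F := ℚ) (E := Ult 𝒰 F), ← hspan]
    exact Submodule.finrank_mono inf_le_right
  omega

end Pool.Agent.Zilber.Ax
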