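import Pool.Agent.Zilber.Ax.LinA

set_option autoImplicit false

/-! AX: extension of scalars of subspaces of coordinate spaces (pure linear algebra). -/

namespace Pool.Agent.Zilber.Ax

open Module

variable {F E ι : Type} [Field F] [Field E] [Algebra F E]

/-- `em` as a linear map over `F`. -/
def emL (F E ι : Type) [Field F] [Field E] [Algebra F E] : (ι → F) →ₗ[F] (ι → E) where
  toFun := em E
  map_add' := fun v w => by
    funext s
    simp [em]
  map_smul' := fun c v => by
    funext s
    simp [em, Algebra.smul_def]

theorem em_injective : Function.Injective (em E : (ι → F) → (ι → E)) := by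
  intro v w h
  funext s
  exact (algebraMap F E).injective (congrFun h s)

theorem em_mem {K : Submodule F (ι → F)} {v : ι → F} (h : v ∈ K) : em E v ∈ bc E K :=
  Submodule.subset_span ⟨v, h, rfl⟩

theorem bc_mono {K K' : Submodule F (ι → F)} (h : K ≤ K') : bc E K ≤ bc E K' :=
  Submodule.span_mono (Set.image_mono h)

/-- Proof. `em` is `F`-linear (`emL`), `Submodule.map_span`. -/
theorem bc_span (A : Set (ι → F)) :
    bc E (Submodule.span F A) = Submodule.span E (em E '' A) := by
  apply le_antisymm
  · refine Submodule.span_le.2 ?_
    rintro _ ⟨v, hv, rfl⟩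
    change em E v ∈ Submodule.span E (em E '' A)
    induction hv using Submodule.span_induction with
    | mem x hx => exact Submodule.subset_span ⟨x, hx, rfl⟩
    | zero =>
      have h : em E (0 : ι → F) = 0 := (emL F E ι).map_zero
      rw [h]
      exact Submodule.zero_mem _
    | add x y _ _ hx hy =>
      have h : em E (x + y) = em E x + em E y := (emL F E ι).map_add x y
      rw [h]
      exact Submodule.add_mem _ hx hy
    | smul c x _ hx =>
      have h : em E (c • x) = algebraMap F E c • em E x := by
        funext s
        simp [em]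
      rw [h]
      exact Submodule.smul_mem _ _ hx
  · exact Submodule.span_mono (Set.image_mono Submodule.subset_span)

variable [Fintype ι]

theorem em_dot (v w : ι → F) : em E v ⬝ᵥ em E w = algebraMap F E (v ⬝ᵥ w) := by
  simp [dotProduct, em]

/-- Linearly independent vectors over `F` are linearly independent over `E`.

Proof. `LinearIndependent` over `F` of finitely many vectors of `ι → F`: there is a left inverse
matrix
(`LinearMap.exists_leftInverse_of_injective` for `Matrix.vecMulLinear`), its image over `E` is a
left inverse.
Infinite families: reduce to finite ones (`linearIndependent_iff'`). (Or: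
`LinearIndependent.map`/base change along
the free module `E ⊗ (ι → F)`; Mathlib has `LinearIndependent.tmul_left` or similar.) -/
theorem linInd_em {m : Type} {a : m → ι → F} (h : LinearIndependent F a) :
    LinearIndependent E (fun i => em E (a i)) :=
  (linearIndependent_algebraMap_comp_iff (S := E)).2 h

/-- Proof. Basis of `K`, `linInd_em`, `bc_span`. -/
theorem finrank_bc (K : Submodule F (ι → F)) : finrank E (bc E K) = finrank F K := by
  classical
  let b := Module.finBasis F K
  let a : Fin (finrank F K) → ι → F := fun i => (b i : ι → F)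
  have ha : LinearIndependent F a :=
    b.linearIndependent.map' K.subtype (Submodule.ker_subtype K)
  have hK : Submodule.span F (Set.range a) = K := by
    have h1 : Set.range a = K.subtype '' Set.range b := by
      rw [← Set.range_comp]
      rfl
    rw [h1, ← Submodule.map_span, b.span_eq, Submodule.map_top, Submodule.range_subtype]
  have h2 : bc E K = Submodule.span E (Set.range fun i => em E (a i)) := by
    conv_lhs => rw [← hK]
    rw [bc_span, ← Set.range_comp]
    rfl
  rw [h2, finrank_span_eq_card (linInd_em ha), Fintype.card_fin]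

theorem bc_sup (K K' : Submodule F (ι → F)) : bc E (K ⊔ K') = bc E K ⊔ bc E K' := by
  have h : K ⊔ K' = Submodule.span F ((K : Set (ι → F)) ∪ K') := by
    rw [Submodule.span_union, Submodule.span_eq, Submodule.span_eq]
  rw [h, bc_span, Set.image_union, Submodule.span_union]
  rfl

/-- Proof. If `v ∉ K` then `v` and a basis of `K` are linearly independent, so also over `E`. -/
theorem em_mem_iff {K : Submodule F (ι → F)} {v : ι → F} : em E v ∈ bc E K ↔ v ∈ K := by
  refine ⟨fun h => ?_, em_mem⟩
  by_contra hv
  have h1 : bc E (K ⊔ Submodule.span F {v}) = bc E K := by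
    rw [bc_sup, bc_span, Set.image_singleton, sup_eq_left, Submodule.span_singleton_le_iff_mem]
    exact h
  have h2 : K < K ⊔ Submodule.span F {v} := by
    refine lt_of_le_of_ne le_sup_left fun h3 => hv ?_
    rw [h3]
    exact (le_sup_right : Submodule.span F {v} ≤ K ⊔ Submodule.span F {v})
      (Submodule.mem_span_singleton_self v)
  have h3 := Submodule.finrank_lt_finrank_of_lt h2
  rw [← finrank_bc (E := E) K, ← finrank_bc (E := E) (K ⊔ Submodule.span F {v}), h1] at h3
  exact lt_irrefl _ h3

/-- Proof. `bc E (pp K) ≤ pp (bc E K)` by `em_dot` and `pp_span`; equal dimensions by `finrank_pp`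
(over `F` and `E`) and
`finrank_bc`. -/
theorem bc_pp (K : Submodule F (ι → F)) : bc E (pp K) = pp (bc E K) := by
  have hle : bc E (pp K) ≤ pp (bc E K) := by
    refine Submodule.span_le.2 ?_
    rintro _ ⟨a, ha, rfl⟩
    change em E a ∈ pp (Submodule.span E (em E '' (K : Set (ι → F))))
    rw [pp_span]
    rintro _ ⟨v, hv, rfl⟩
    rw [em_dot, mem_pp.1 ha v hv, map_zero]
  refine Submodule.eq_of_le_of_finrank_eq hle ?_
  have h1 := finrank_pp K
  have h2 := finrank_pp (bc E K)
  rw [finrank_bc] at h2
  rw [finrank_bc]
  omega

/-- Proof. `≤` is clear; dimensions: `Submodule.finrank_sup_add_finrank_inf_eq` over `F` and `E`,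
`bc_sup`,
`finrank_bc`. -/
theorem bc_inf (K K' : Submodule F (ι → F)) : bc E (K ⊓ K') = bc E K ⊓ bc E K' := by
  have hle : bc E (K ⊓ K') ≤ bc E K ⊓ bc E K' :=
    le_inf (bc_mono inf_le_left) (bc_mono inf_le_right)
  refine Submodule.eq_of_le_of_finrank_eq hle ?_
  have h1 := Submodule.finrank_sup_add_finrank_inf_eq K K'
  have h2 := Submodule.finrank_sup_add_finrank_inf_eq (bc E K) (bc E K')
  rw [← bc_sup, finrank_bc, finrank_bc, finrank_bc] at h2
  rw [finrank_bc]
  omega

/-- Proof. `em E (em G v) = em E v`, `bc_span`. -/
theorem bc_bc {G : Type} [Field G] [Algebra F G] [Algebra G E] [IsScalarTower F G E]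
    (K : Submodule F (ι → F)) : bc E (bc G K) = bc E K := by
  change bc E (Submodule.span G (em G '' (K : Set (ι → F)))) = _
  rw [bc_span, Set.image_image]
  have h : (fun v : ι → F => em E (em G v)) = em E := by
    funext v s
    exact (IsScalarTower.algebraMap_apply F G E (v s)).symm
  rw [h]
  rfl

end Pool.Agent.Zilber.Ax
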