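import Pool.Agent.CITLines.Rel

set_option autoImplicit false

/-! Block AX of Zilber's conjecture for tori (MP_b7926e_nt): logarithmic derivatives and ranks.

All derivations of a field `E` are derivations over `ℤ`; `Dk k` are those which vanish on the subfield `k`.
`lv x D = (D (x s) / x s)_s`, `Iv k x` is the space of these vectors for `D` in `Dk k` (it is a subspace). A vector
`a` is a linear form on it: `a ⬝ᵥ v`, the logarithmic differential form `∑ a s dlog (x s)`. `rkS I A` is the rank of
the linear forms of `A` on `I`. -/

namespace Pool.Agent.Zilber.Ax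

open Module Pool.Agent.CITLines

section

variable {E : Type} [Field E]

/-- The common constants of a set of derivations. -/
def cons (S : Set (Derivation ℤ E E)) : Subfield E where
  carrier := {f | ∀ D ∈ S, D f = 0}
  zero_mem' := fun D _ => map_zero D
  one_mem' := fun D _ => D.map_one_eq_zero
  add_mem' := fun {a b} ha hb D hD => by rw [map_add, ha D hD, hb D hD, add_zero]
  mul_mem' := fun {a b} ha hb D hD => by
    rw [D.leibniz, ha D hD, hb D hD, smul_zero, smul_zero, add_zero]
  neg_mem' := fun {a} ha D hD => by rw [map_neg, ha D hD, neg_zero]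
  inv_mem' := fun a ha D hD => by rw [D.leibniz_inv, ha D hD, smul_zero]

theorem mem_cons {S : Set (Derivation ℤ E E)} {f : E} : f ∈ cons S ↔ ∀ D ∈ S, D f = 0 := Iff.rfl

/-- The derivations which vanish on `k`. -/
def Dk (k : Subfield E) : Submodule E (Derivation ℤ E E) where
  carrier := {D | ∀ c ∈ k, D c = 0}
  zero_mem' := fun _ _ => rfl
  add_mem' := fun {a b} ha hb c hc => by
    rw [Derivation.add_apply, ha c hc, hb c hc, add_zero]
  smul_mem' := fun f D hD c hc => by rw [Derivation.smul_apply, hD c hc, smul_zero]

theorem mem_Dk {k : Subfield E} {D : Derivation ℤ E E} : D ∈ Dk k ↔ ∀ c ∈ k, D c = 0 := Iff.rfl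

variable {ι : Type}

/-- The vector of the logarithmic derivatives. -/
noncomputable def lv (x : ι → E) : Derivation ℤ E E →ₗ[E] (ι → E) where
  toFun := fun D s => D (x s) / x s
  map_add' := fun D D' => by
    funext s
    rw [Derivation.add_apply, Pi.add_apply, add_div]
  map_smul' := fun f D => by
    funext s
    rw [Derivation.smul_apply, Pi.smul_apply, smul_eq_mul, smul_eq_mul, mul_div_assoc,
      RingHom.id_apply]

theorem lv_apply (x : ι → E) (D : Derivation ℤ E E) (s : ι) : lv x D s = D (x s) / x s := rfl

/-- The space of the vectors of logarithmic derivatives of the derivations trivial on `k`. -/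
noncomputable def Iv (k : Subfield E) (x : ι → E) : Submodule E (ι → E) := (Dk k).map (lv x)

theorem mem_Iv {k : Subfield E} {x v : ι → E} : v ∈ Iv k x ↔ ∃ D ∈ Dk k, lv x D = v := Iff.rfl

end

section

variable {E ι : Type} [Field E] [Fintype ι]

/-- The orthogonal complement. -/
def pp (I : Submodule E (ι → E)) : Submodule E (ι → E) where
  carrier := {a | ∀ v ∈ I, a ⬝ᵥ v = 0}
  zero_mem' := fun v _ => zero_dotProduct v
  add_mem' := fun {a b} ha hb v hv => by rw [add_dotProduct, ha v hv, hb v hv, add_zero]
  smul_mem' := fun f a ha v hv => by rw [smul_dotProduct, ha v hv, smul_zero]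

theorem mem_pp {I : Submodule E (ι → E)} {a : ι → E} : a ∈ pp I ↔ ∀ v ∈ I, a ⬝ᵥ v = 0 := Iff.rfl

/-- The rank of the linear forms `v ↦ a ⬝ᵥ v` (`a ∈ A`) on `I`. -/
noncomputable def rkS (I A : Submodule E (ι → E)) : ℕ :=
  finrank E A - finrank E (A ⊓ pp I : Submodule E (ι → E))

end

section

variable {F : Type} [Field F]

/-- A vector over `F` as a vector over `E`. -/
def em (E : Type) [Field E] [Algebra F E] {ι : Type} (v : ι → F) : ι → E :=
  fun s => algebraMap F E (v s)

theorem em_apply (E : Type) [Field E] [Algebra F E] {ι : Type} (v : ι → F) (s : ι) :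
    em E v s = algebraMap F E (v s) := rfl

/-- Extension of scalars of a subspace of a coordinate space. -/
def bc (E : Type) [Field E] [Algebra F E] {ι : Type} (K : Submodule F (ι → F)) :
    Submodule E (ι → E) := Submodule.span E (em E '' (K : Set (ι → F)))

/-- The vectors supported on the block `l`: the components of `v` in the other blocks are replaced by `0`. -/
def blk {ι : Type} (cls : ι → ℕ) (l : ℕ) (v : ι → F) : ι → F :=
  fun s => if cls s = l then v s else 0

/-- Homogeneous subspaces: sums of subspaces of the blocks. -/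
def Hom {ι : Type} (cls : ι → ℕ) (K : Submodule F (ι → F)) : Prop :=
  ∀ v ∈ K, ∀ l, blk cls l v ∈ K

end

end Pool.Agent.Zilber.Ax
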