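import Pool.Agent.Zilber.Ax.N2
import Pool.Agent.Zilber.Ax.AlgB

set_option autoImplicit false

/-! AX: Lemma H. -/

namespace Pool.Agent.Zilber.Ax

open Module Pool.Agent.CITLines

/-- The value of a rational vector. -/
private noncomputable def valL {ι : Type} [Fintype ι] (w : ι → ℝ) : (ι → ℚ) →ₗ[ℚ] ℝ where
  toFun := fun u => ∑ s, (u s : ℝ) * w s
  map_add' := fun u v => by
    simp only [Pi.add_apply, Rat.cast_add, add_mul, Finset.sum_add_distrib]
  map_smul' := fun c u => by
    simp only [Pi.smul_apply, smul_eq_mul, Rat.cast_mul, mul_assoc, RingHom.id_apply,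
      Rat.smul_def, Finset.mul_sum]

private theorem valL_apply {ι : Type} [Fintype ι] (w : ι → ℝ) (u : ι → ℚ) :
    valL w u = ∑ s, (u s : ℝ) * w s := rfl

/-- Integer vectors of a rational space whose values are a basis of the space of values. -/
private theorem exists_int_basis {ι : Type} [Fintype ι] (w : ι → ℝ) (U : Submodule ℚ (ι → ℚ)) :
    ∃ u : Fin (finrank ℚ (U.map (valL w))) → ι → ℤ, (∀ i, cst (u i) ∈ U) ∧
      LinearIndependent ℚ (fun i => ∑ s, (u i s : ℝ) * w s) := by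
  let b := Module.finBasis ℚ (U.map (valL w))
  have hb : ∀ i, ∃ (k : ℤ) (u : ι → ℤ), k ≠ 0 ∧ cst u ∈ U ∧
      ∑ s, (u s : ℝ) * w s = k * (b i : ℝ) := by
    intro i
    obtain ⟨v, hv, hvb⟩ := (b i).2
    obtain ⟨k, hk, a, ha⟩ := exists_clear v
    refine ⟨k, a, hk, ?_, ?_⟩
    · have h1 : cst a = (k : ℚ) • v := by
        funext s
        rw [cst_apply, ha s, Pi.smul_apply, smul_eq_mul]
      rw [h1]
      exact U.smul_mem _ hv
    · rw [← hvb, valL_apply, Finset.mul_sum]
      refine Finset.sum_congr rfl fun s _ => ?_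
      have h2 : (a s : ℝ) = k * (v s : ℝ) := by exact_mod_cast congrArg (Rat.cast : ℚ → ℝ) (ha s)
      rw [h2, mul_assoc]
  choose k u hk hu hku using hb
  refine ⟨u, hu, ?_⟩
  have h3 : LinearIndependent ℚ (fun i => (b i : ℝ)) := by
    have := b.linearIndependent
    exact this.map' (U.map (valL w)).subtype (Submodule.ker_subtype _)
  have h4 := h3.units_smul (fun i => Units.mk0 (k i : ℚ) (by exact_mod_cast hk i))
  convert h4 using 1
  funext i
  rw [hku i]
  simp [Units.smul_def, Rat.smul_def]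

/-- **Lemma H.** `w` is a vector of weights such that monomials with `ℚ`-linearly independent
weights are algebraically independent. If no nonzero vector of `K` vanishes on the rational hull
of `w` then the rank of the logarithmic differential forms of `K` is the dimension of `K`.

Proof. Let `r = rkS (Iv k x) (bc E K)`; `r ≤ finrank ℝ K` (`rkS_le_right`, `finrank_bc`).
Suppose `r < finrank ℝ K`. `n2` gives `U` with `rkS (Iv k x) (bc E U) < dim (K ⊓ bc ℝ U)`. Let
`φ u = ∑ s, u s * w s`, a `ℚ`-linear map `(ι → ℚ) → ℝ`, and `ρ` the dimension of `φ(U)`. There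
are integer vectors `u 1, .., u ρ` in `U` whose values `φ (u i)` form a basis of `φ(U)`
(multiply by denominators). By `hw` and `le_rkS_of_algInd` `ρ ≤ rkS (Iv k x) (bc E U)`. Let `U'
= U ⊓ ker φ`; `U = U' + span (u i)`, so `bc ℝ U = bc ℝ U' + span (u i)` (`bc_sup`), and `dim (bc
ℝ U) = dim (bc ℝ U') + ρ`. So `dim ((K ⊓ bc ℝ U) ⊓ bc ℝ U') ≥ dim (K ⊓ bc ℝ U) - ρ > 0`: there
is `a ≠ 0` in `K ⊓ bc ℝ U'`. It is a real combination of rational (so also of integer) vectors
`u` with `∑ s, u s * w s = 0`, so `∑ s, a s * v s = 0` for every `v` as in `hK`. So `a = 0` by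
`hK`, a contradiction. -/
theorem lemH {E ι : Type} [Field E] [CharZero E] [Algebra ℝ E] [Fintype ι] (k : Subfield E)
    (hF : ∀ c : ℝ, algebraMap ℝ E c ∈ k) (x : ι → E) (hx : ∀ s, x s ≠ 0) (w : ι → ℝ)
    (hw : ∀ (m : ℕ) (u : Fin m → ι → ℤ),
      LinearIndependent ℚ (fun i => ∑ s, (u i s : ℝ) * w s) →
        AlgebraicIndependent k (fun i => mon x (u i)))
    (K : Submodule ℝ (ι → ℝ))
    (hK : ∀ a ∈ K, (∀ v : ι → ℝ, (∀ u : ι → ℤ, ∑ s, (u s : ℝ) * w s = 0 →
      ∑ s, (u s : ℝ) * v s = 0) → ∑ s, a s * v s = 0) → a = 0) :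
    rkS (Iv k x) (bc E K) = finrank ℝ K := by
  have hle : rkS (Iv k x) (bc E K) ≤ finrank ℝ K :=
    (rkS_le_right _ _).trans (finrank_bc K).le
  refine le_antisymm hle (not_lt.mp fun hlt => ?_)
  obtain ⟨U, hU⟩ := n2 k hF x hx K
  obtain ⟨u, hu, hli⟩ := exists_int_basis w U
  have h1 : finrank ℚ (U.map (valL w)) ≤ rkS (Iv k x) (bc E U) := by
    have := le_rkS_of_algInd k x hx u (hw _ u hli) (bc E U) fun i => by
      have h := em_mem (E := E) (hu i)
      have h2 : em E (cst (u i)) = fun s => (u i s : E) := by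
        funext s
        rw [em_apply, cst_apply, eq_ratCast, Rat.cast_intCast]
      rwa [h2] at h
    rwa [Fintype.card_fin] at this
  have h2 : finrank ℚ (U.map (valL w)) < finrank ℝ (K ⊓ bc ℝ U : Submodule ℝ (ι → ℝ)) := by
    omega
  have h3 : finrank ℚ (U.map (valL w)) + finrank ℚ (U ⊓ LinearMap.ker (valL w) :
      Submodule ℚ (ι → ℚ)) = finrank ℚ U := by
    have h := LinearMap.finrank_range_add_finrank_ker ((valL w).domRestrict U)
    rw [LinearMap.range_domRestrict] at h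
    rw [← h]
    congr 1
    have h5 : LinearMap.ker ((valL w).domRestrict U) =
        (U ⊓ LinearMap.ker (valL w)).comap U.subtype := by
      ext v
      simp [LinearMap.mem_ker]
    rw [h5]
    exact (LinearEquiv.finrank_eq (Submodule.comapSubtypeEquivOfLe inf_le_left)).symm
  have h4 := Submodule.finrank_sup_add_finrank_inf_eq (K ⊓ bc ℝ U : Submodule ℝ (ι → ℝ))
    (bc ℝ (U ⊓ LinearMap.ker (valL w)))
  have h5 : finrank ℝ ((K ⊓ bc ℝ U) ⊔ bc ℝ (U ⊓ LinearMap.ker (valL w)) :
      Submodule ℝ (ι → ℝ)) ≤ finrank ℝ (bc ℝ U) :=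
    Submodule.finrank_mono (sup_le inf_le_right (bc_mono inf_le_left))
  rw [finrank_bc] at h4 h5
  have h6 : (K ⊓ bc ℝ U) ⊓ bc ℝ (U ⊓ LinearMap.ker (valL w)) ≠ ⊥ := by
    intro h
    rw [h, finrank_bot] at h4
    omega
  obtain ⟨a, ha, ha0⟩ := Submodule.exists_mem_ne_zero_of_ne_bot h6
  refine ha0 (hK a ha.1.1 fun v hv => ?_)
  have h7 : a ∈ Submodule.span ℝ (em ℝ '' ((U ⊓ LinearMap.ker (valL w) :
    Submodule ℚ (ι → ℚ)) : Set (ι → ℚ))) := ha.2
  refine Submodule.span_induction (p := fun a _ => ∑ s, a s * v s = 0) ?_ ?_ ?_ ?_ h7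
  · rintro _ ⟨q, hq, rfl⟩
    obtain ⟨m, hm, c, hc⟩ := exists_clear q
    have hc' : ∀ s, (c s : ℝ) = m * (q s : ℝ) := fun s => by
      exact_mod_cast congrArg (Rat.cast : ℚ → ℝ) (hc s)
    have h8 : ∑ s, (c s : ℝ) * w s = 0 := by
      have h9 : valL w q = 0 := hq.2
      rw [valL_apply] at h9
      calc ∑ s, (c s : ℝ) * w s = m * ∑ s, (q s : ℝ) * w s := by
            rw [Finset.mul_sum]
            exact Finset.sum_congr rfl fun s _ => by rw [hc' s, mul_assoc]
        _ = 0 := by rw [h9, mul_zero]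
    have h10 := hv c h8
    have h11 : (m : ℝ) * ∑ s, em ℝ q s * v s = 0 := by
      rw [← h10, Finset.mul_sum]
      exact Finset.sum_congr rfl fun s _ => by rw [hc' s, em_apply, eq_ratCast, mul_assoc]
    exact (mul_eq_zero.mp h11).resolve_left (by exact_mod_cast hm)
  · simp
  · intro y z _ _ hy hz
    simp only [Pi.add_apply, add_mul, Finset.sum_add_distrib, hy, hz, add_zero]
  · intro r y _ hy
    simp only [Pi.smul_apply, smul_eq_mul, mul_assoc]
    rw [← Finset.mul_sum, hy, mul_zero]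

end Pool.Agent.Zilber.Ax
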