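import Mathlib

set_option autoImplicit false

/-! AX: specialisation of the kernel of a matrix of polynomials (pure linear algebra). -/

namespace Pool.Agent.Zilber.Ax

open Module Polynomial

private theorem evalIndep {F P ι : Type} [Field F] [Fintype P] [Fintype ι]
    (b : Basis ι F[X] (P → F[X])) (c : F) :
    LinearIndependent F (fun i => fun p => (b i p).eval c) := by
  rw [Fintype.linearIndependent_iff]
  intro g hg i
  have h1 : ∀ p, ∃ w : F[X], (∑ j, C (g j) • b j) p = (X - C c) * w := by
    intro p
    have h2 : ((∑ j, C (g j) • b j) p).IsRoot c := by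
      rw [IsRoot.def, Finset.sum_apply, eval_finsetSum]
      have h3 := congrFun hg p
      rw [Finset.sum_apply] at h3
      rw [← Pi.zero_apply (M := fun _ : P => F) p, ← h3]
      refine Finset.sum_congr rfl fun j _ => ?_
      rw [Pi.smul_apply, Pi.smul_apply, smul_eq_mul, eval_mul, eval_C, smul_eq_mul]
    exact dvd_iff_isRoot.2 h2
  choose w hw using h1
  have h4 : ∑ j, C (g j) • b j = (X - C c) • w := by
    funext p
    rw [hw p, Pi.smul_apply, smul_eq_mul]
  have h5 : b.repr (∑ j, C (g j) • b j) i = b.repr ((X - C c) • w) i := by rw [h4]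
  rw [Basis.repr_sum_self, map_smul, Finsupp.smul_apply, smul_eq_mul] at h5
  have h6 := congrArg (eval c) h5
  rwa [eval_C, eval_mul, eval_sub, eval_X, eval_C, sub_self, zero_mul] at h6

private theorem evalMul {F P Q : Type} [Field F] [Fintype P] [Fintype Q] (M : Matrix Q P F[X])
    (v : P → F[X]) (c : F) : (M.map (Polynomial.eval c)).mulVec (fun p => (v p).eval c) =
      fun q => ((M.mulVec v) q).eval c := by
  funext q
  simp only [Matrix.mulVec, dotProduct, Matrix.map_apply]
  rw [eval_finsetSum]
  exact Finset.sum_congr rfl fun p _ => (eval_mul).symm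

/-- **Specialisation of a kernel.** `M` is a matrix of polynomials whose kernel at `c` has
dimension `≥ m` for infinitely many `c`. Then the values at `0` of the polynomial vectors in the
kernel of `M` contain `m` linearly independent vectors.

Proof. Smith normal form for the kernel `N` of `M` in `F[X]^P` and for the range `S` of `M` in
`F[X]^Q`; a basis of `F[X]^P` stays independent when it is evaluated at any `c` (`evalIndep`).
For `c` outside the zeros of the elementary divisors of `S` the rank of `M(c)` is at least
`rank S`, so `m ≤ rank N`. As `N` is saturated, it contains the corresponding elements of the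
adapted basis of `F[X]^P`. -/
theorem spec_ker {F P Q : Type} [Field F] [Fintype P] [Fintype Q] (M : Matrix Q P F[X]) (m : ℕ)
    (C : Set F) (hC : C.Infinite)
    (h : ∀ c ∈ C, m ≤ finrank F (LinearMap.ker (M.map (Polynomial.eval c)).mulVecLin)) :
    ∃ w : Fin m → P → F[X], (∀ i, M.mulVec (w i) = 0) ∧
      LinearIndependent F (fun i => fun p => (w i p).eval 0) := by
  obtain ⟨n, sN⟩ := (LinearMap.ker M.mulVecLin).smithNormalForm (Pi.basisFun F[X] P)
  obtain ⟨s, sS⟩ := (LinearMap.range M.mulVecLin).smithNormalForm (Pi.basisFun F[X] Q)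
  have hn : finrank F[X] (LinearMap.ker M.mulVecLin) = n := by
    rw [finrank_eq_card_basis sN.bN, Fintype.card_fin]
  have hs : finrank F[X] (LinearMap.range M.mulVecLin) = s := by
    rw [finrank_eq_card_basis sS.bN, Fintype.card_fin]
  have hns : s + n = Fintype.card P := by
    have h1 := Submodule.finrank_quotient_add_finrank (LinearMap.ker M.mulVecLin)
    rw [(LinearMap.quotKerEquivRange M.mulVecLin).finrank_eq, hn, hs,
      finrank_fintype_fun_eq_card] at h1
    exact h1
  have haN : ∀ i, sN.a i ≠ 0 := by
    intro i h0
    have h1 := sN.snf i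
    rw [h0, zero_smul] at h1
    exact sN.bN.ne_zero i (Subtype.ext h1)
  have haS : ∀ i, sS.a i ≠ 0 := by
    intro i h0
    have h1 := sS.snf i
    rw [h0, zero_smul] at h1
    exact sS.bN.ne_zero i (Subtype.ext h1)
  have hmn : m ≤ n := by
    have hfin : {c : F | ∃ i, (sS.a i).eval c = 0}.Finite := by
      have h1 : {c : F | ∃ i, (sS.a i).eval c = 0} = ⋃ i, {c : F | (sS.a i).eval c = 0} := by
        ext c
        simp
      rw [h1]
      refine Set.finite_iUnion fun i => ?_
      classical
      refine ((sS.a i).roots.toFinset.finite_toSet).subset ?_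
      intro c hc
      rw [Finset.mem_coe, Multiset.mem_toFinset, mem_roots (haS i)]
      exact hc
    obtain ⟨c, hcC, hc⟩ := (hC.sdiff hfin).nonempty
    have hc' : ∀ i, (sS.a i).eval c ≠ 0 := fun i hi => hc ⟨i, hi⟩
    have h1 := h c hcC
    have h2 := LinearMap.finrank_range_add_finrank_ker (M.map (Polynomial.eval c)).mulVecLin
    rw [finrank_fintype_fun_eq_card] at h2
    have h3 : s ≤ finrank F (LinearMap.range (M.map (Polynomial.eval c)).mulVecLin) := by
      have h4 : ∀ i : Fin s, ∃ v : P → F[X], M.mulVec v = (sS.bN i : Q → F[X]) :=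
        fun i => (sS.bN i).2
      choose v hv using h4
      let u : Fin s → LinearMap.range (M.map (Polynomial.eval c)).mulVecLin := fun i =>
        ⟨(M.map (Polynomial.eval c)).mulVecLin (fun p => (v i p).eval c), ⟨_, rfl⟩⟩
      have hu : ∀ i, ((u i : Q → F)) = (sS.a i).eval c •
          (fun q => (sS.bM (sS.f i) q).eval c) := by
        intro i
        have h5 : ((u i : Q → F)) = (M.map (Polynomial.eval c)).mulVec
          (fun p => (v i p).eval c) := rfl
        rw [h5, evalMul, hv, sS.snf]
        funext q
        rw [Pi.smul_apply, Pi.smul_apply, smul_eq_mul, eval_mul, smul_eq_mul]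
      have h6 : LinearIndependent F u := by
        refine LinearIndependent.of_comp (LinearMap.range
          (M.map (Polynomial.eval c)).mulVecLin).subtype ?_
        have h7 := ((evalIndep sS.bM c).comp sS.f sS.f.injective).units_smul
          (fun i => Units.mk0 _ (hc' i))
        have h8 : (LinearMap.range (M.map (Polynomial.eval c)).mulVecLin).subtype ∘ u =
            (fun i => Units.mk0 _ (hc' i)) •
              ((fun i => fun p => (sS.bM i p).eval c) ∘ sS.f) := by
          funext i
          exact hu i
        rw [h8]
        exact h7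
      have h9 := h6.fintype_card_le_finrank
      rwa [Fintype.card_fin] at h9
    omega
  refine ⟨fun i => sN.bM (sN.f (Fin.castLE hmn i)), fun i => ?_, ?_⟩
  · have h1 : M.mulVec (sN.bN (Fin.castLE hmn i) : P → F[X]) = 0 :=
      (sN.bN (Fin.castLE hmn i)).2
    rw [sN.snf, Matrix.mulVec_smul] at h1
    funext q
    have h2 := congrFun h1 q
    rw [Pi.smul_apply, smul_eq_mul, Pi.zero_apply] at h2
    exact (mul_eq_zero.1 h2).resolve_left (haN _)
  · exact (evalIndep sN.bM 0).comp (fun i => sN.f (Fin.castLE hmn i))
      (sN.f.injective.comp (Fin.castLE_injective hmn))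

end Pool.Agent.Zilber.Ax
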