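import Pool.Agent.Zilber.Ax.Gr
import Pool.Agent.Zilber.Ax.Lim0

set_option autoImplicit false

/-! AX: degeneration of a subspace under scaling of the blocks (pure linear algebra). -/

namespace Pool.Agent.Zilber.Ax

open Module Polynomial

variable {F ι : Type} [Field F]

/-- The scaling: the block `l` is multiplied by `c ^ l`. -/
def scl (cls : ι → ℕ) (c : F) : (ι → F) →ₗ[F] (ι → F) where
  toFun := fun v s => c ^ cls s * v s
  map_add' := fun v w => by
    funext s
    simp [mul_add]
  map_smul' := fun a v => by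
    funext s
    simp only [Pi.smul_apply, smul_eq_mul, RingHom.id_apply]
    ring

theorem scl_apply (cls : ι → ℕ) (c : F) (v : ι → F) (s : ι) :
    scl cls c v s = c ^ cls s * v s := rfl

/-- A finite family of equations of a subspace. -/
private theorem eqns [Fintype ι] (U : Submodule F (ι → F)) :
    ∃ (q : ℕ) (f : Fin q → ι → F), ∀ v, v ∈ U ↔ ∀ j, f j ⬝ᵥ v = 0 := by
  refine ⟨finrank F (pp U), fun j => (finBasis F (pp U) j : ι → F), fun v => ⟨fun hv j =>
    mem_pp.1 (finBasis F (pp U) j).2 v hv, fun hv => ?_⟩⟩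
  rw [← pp_pp U, mem_pp]
  intro a ha
  have h1 := congrArg Subtype.val ((finBasis F (pp U)).sum_repr ⟨a, ha⟩)
  rw [Submodule.coe_sum] at h1
  change _ = a at h1
  rw [← h1, dotProduct_sum]
  refine Finset.sum_eq_zero fun j _ => ?_
  rw [Submodule.coe_smul, dotProduct_smul, dotProduct_comm, hv j, smul_zero]

/-- The matrix of the equations. -/
private noncomputable def mat [Fintype ι] {p q : ℕ} (cls : ι → ℕ) (f : Fin q → ι → F)
    (k : Fin p → ι → F) : Matrix (Fin q) (Fin p) F[X] :=
  fun j i => ∑ s, C (f j s * k i s) * X ^ cls s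

/-- Linear combinations of the `k i`. -/
private noncomputable def comb {p : ℕ} (k : Fin p → ι → F) : (Fin p → F) →ₗ[F] (ι → F) :=
  Fintype.linearCombination F k

private theorem comb_apply {p : ℕ} (k : Fin p → ι → F) (w : Fin p → F) (s : ι) :
    comb k w s = ∑ i, w i * k i s := by
  change (∑ i, w i • k i) s = _
  rw [Finset.sum_apply]
  rfl

private theorem mat_eval [Fintype ι] {p q : ℕ} (cls : ι → ℕ) (f : Fin q → ι → F)
    (k : Fin p → ι → F) (c : F) (w : Fin p → F) (j : Fin q) :
    ((mat cls f k).map (Polynomial.eval c)).mulVec w j = f j ⬝ᵥ scl cls c (comb k w) := by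
  simp only [Matrix.mulVec, dotProduct, Matrix.map_apply, mat, eval_finsetSum, eval_mul, eval_C,
    eval_pow, eval_X, scl_apply, comb_apply, Finset.sum_mul, Finset.mul_sum]
  rw [Finset.sum_comm]
  refine Finset.sum_congr rfl fun s _ => Finset.sum_congr rfl fun i _ => ?_
  ring

private theorem mat_coeff [Fintype ι] {p q : ℕ} (cls : ι → ℕ) (f : Fin q → ι → F)
    (k : Fin p → ι → F) (w : Fin p → F[X]) (j : Fin q) (l : ℕ) :
    ((mat cls f k).mulVec w j).coeff l = f j ⬝ᵥ fun s =>
      if cls s ≤ l then ∑ i, (w i).coeff (l - cls s) * k i s else 0 := by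
  simp only [Matrix.mulVec, dotProduct, mat, finsetSum_coeff, Finset.sum_mul]
  rw [Finset.sum_comm]
  refine Finset.sum_congr rfl fun s _ => ?_
  have h1 : ∀ i, (C (f j s * k i s) * X ^ cls s * w i).coeff l =
      f j s * k i s * if cls s ≤ l then (w i).coeff (l - cls s) else 0 := by
    intro i
    rw [mul_assoc, coeff_C_mul, coeff_X_pow_mul']
  simp_rw [h1]
  split_ifs with h
  · rw [Finset.mul_sum]
    refine Finset.sum_congr rfl fun i _ => ?_
    ring
  · simp

/-- **The limit.** If `dim (λ(c) K ∩ U) ≥ m` for infinitely many `c` then `dim (K ∩ gr U) ≥ m`.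

Proof. Let `k i` (`i : Fin p`) be a basis of `K` and let `f j` (`j : Fin q`) be a basis of `pp
U`, so `U = pp (pp U)` is the set
of the `v` with `f j ⬝ᵥ v = 0` for all `j` (`pp_pp`). Let `M` be the `q × p` matrix over `F[T]`
with the entries
`M j i = ∑ s, C (f j s * k i s) * T ^ cls s`; its value at `c` is `f j ⬝ᵥ scl cls c (k i)`. For
`c ≠ 0` (discard `c = 0`) `scl cls c` is
injective and `λ(c) K ∩ U` is isomorphic to the kernel of `M(c)` (`w ↦ scl cls c (∑ i, w i • k
i)`). `spec_ker` gives
`w 1, .., w m` in the kernel of `M` with linearly independent `w i (0)`. For `w` in the kernel of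
`M` the vector
`v0 = ∑ i, w i (0) • k i` is in `K ⊓ gr cls U`: let `w_t ∈ (Fin p → F)` be the vector of the
coefficients of `T ^ t`,
`v_t = ∑ i, w_t i • k i ∈ K`. `M w = 0` says: for every `l` the vector `u_l s = v_(l - cls s) s`
if `cls s ≤ l`, `u_l s = 0` otherwise,
satisfies `f j ⬝ᵥ u_l = 0` (coefficient of `T ^ l`), so `u_l ∈ U`. It satisfies `u_l s = v_0 s`
for `cls s = l`. So
`v_0 ∈ gr cls U`. The map `w (0) ↦ v_0` is linear and injective (basis), so `dim (K ⊓ gr cls U) ≥
m`. -/
theorem lim [Fintype ι] (cls : ι → ℕ) (K U : Submodule F (ι → F)) (m : ℕ) (C : Set F)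
    (hC : C.Infinite)
    (h : ∀ c ∈ C, m ≤ finrank F (K.map (scl cls c) ⊓ U : Submodule F (ι → F))) :
    m ≤ finrank F (K ⊓ gr cls U : Submodule F (ι → F)) := by
  obtain ⟨q, f, hf⟩ := eqns U
  obtain ⟨p, hp⟩ : ∃ p, p = finrank F K := ⟨_, rfl⟩
  let b : Basis (Fin p) F K := (finBasis F K).reindex (finCongr hp.symm)
  let k : Fin p → ι → F := fun i => (b i : ι → F)
  have hk : ∀ w, comb k w ∈ K := fun w => by
    change ∑ i, w i • k i ∈ K
    exact K.sum_mem fun i _ => K.smul_mem _ (b i).2
  have hrep : ∀ x (hx : x ∈ K), comb k (fun i => b.repr ⟨x, hx⟩ i) = x := by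
    intro x hx
    have h1 := congrArg Subtype.val (b.sum_repr ⟨x, hx⟩)
    rw [Submodule.coe_sum] at h1
    exact h1
  have hinj : LinearMap.ker (comb k) = ⊥ := by
    have h1 : LinearIndependent F k := b.linearIndependent.map' K.subtype K.ker_subtype
    rw [LinearMap.ker_eq_bot']
    intro w hw
    rw [Fintype.linearIndependent_iff] at h1
    exact funext fun i => h1 w hw i
  obtain ⟨w, hw, hli⟩ := spec_ker (mat cls f k) m C hC fun c hc => by
    refine (h c hc).trans ?_
    have hle : K.map (scl cls c) ⊓ U ≤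
        (LinearMap.ker ((mat cls f k).map (Polynomial.eval c)).mulVecLin).map
          (scl cls c ∘ₗ comb k) := by
      rintro v ⟨⟨x, hx, rfl⟩, hv⟩
      refine ⟨fun i => b.repr ⟨x, hx⟩ i, ?_, ?_⟩
      · change (fun i => b.repr ⟨x, hx⟩ i) ∈
          LinearMap.ker ((mat cls f k).map (Polynomial.eval c)).mulVecLin
        rw [LinearMap.mem_ker, Matrix.mulVecLin_apply]
        funext j
        rw [mat_eval, hrep x hx]
        exact (hf _).1 hv j
      · rw [LinearMap.comp_apply, hrep x hx]
    exact (Submodule.finrank_mono hle).trans (Submodule.finrank_map_le _ _)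
  have hmem : ∀ a, comb k (fun i => (w a i).eval 0) ∈ (K ⊓ gr cls U : Submodule F (ι → F)) := by
    intro a
    refine ⟨hk _, fun l => ⟨fun s =>
      if cls s ≤ l then ∑ i, (w a i).coeff (l - cls s) * k i s else 0, ?_, ?_, ?_⟩⟩
    · rw [hf]
      intro j
      rw [← mat_coeff, hw a]
      rfl
    · intro s hs
      exact if_neg (not_le.2 hs)
    · intro s hs
      change (if cls s ≤ l then _ else _) = _
      rw [if_pos hs.le, comb_apply]
      refine Finset.sum_congr rfl fun i _ => ?_
      rw [hs, Nat.sub_self, coeff_zero_eq_eval_zero]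
  have h2 : LinearIndependent F fun a => comb k fun i => (w a i).eval 0 := hli.map' (comb k) hinj
  have h3 : LinearIndependent F fun a => (⟨_, hmem a⟩ : (K ⊓ gr cls U : Submodule F (ι → F))) :=
    LinearIndependent.of_comp (K ⊓ gr cls U : Submodule F (ι → F)).subtype h2
  have h4 := h3.fintype_card_le_finrank
  rwa [Fintype.card_fin] at h4

end Pool.Agent.Zilber.Ax
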