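import Pool.Agent.Zilber.Ax.Defs

set_option autoImplicit false

/-! AX: orthogonal complements and the rank `rkS` (pure linear algebra). -/

namespace Pool.Agent.Zilber.Ax

open Module

variable {E ι : Type} [Field E] [Fintype ι]

theorem pp_anti {I I' : Submodule E (ι → E)} (h : I ≤ I') : pp I' ≤ pp I :=
  fun _ ha v hv => ha v (h hv)

/-- `a ⬝ᵥ v = v ⬝ᵥ a`. -/
theorem le_pp_comm {I A : Submodule E (ι → E)} (h : A ≤ pp I) : I ≤ pp A := by
  intro v hv a ha
  rw [dotProduct_comm]
  exact h ha v hv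

theorem pp_span {B : Set (ι → E)} {a : ι → E} :
    a ∈ pp (Submodule.span E B) ↔ ∀ v ∈ B, a ⬝ᵥ v = 0 := by
  refine ⟨fun h v hv => h v (Submodule.subset_span hv), fun h v hv => ?_⟩
  induction hv using Submodule.span_induction with
  | mem v hv => exact h v hv
  | zero => exact dotProduct_zero a
  | add x y _ _ hx hy => rw [dotProduct_add, hx, hy, add_zero]
  | smul c x _ hx => rw [dotProduct_smul, hx, smul_zero]

/-- Proof. `pp I` is the dual annihilator of `I` under the isomorphism
`(ι → E) ≃ Dual E (ι → E)` given by the dot product (`dotProductEquiv`);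
`Subspace.finrank_add_finrank_dualAnnihilator_eq` or similar. (Or: `Matrix` with
rows a basis of `I`, rank-nullity.) -/
theorem finrank_pp (I : Submodule E (ι → E)) :
    finrank E (pp I) + finrank E I = Fintype.card ι := by
  classical
  have h1 : (pp I).map (dotProductEquiv E ι).toLinearMap = I.dualAnnihilator := by
    ext φ
    rw [Submodule.mem_map, Submodule.mem_dualAnnihilator]
    constructor
    · rintro ⟨a, ha, rfl⟩ v hv
      exact ha v hv
    · intro h
      refine ⟨(dotProductEquiv E ι).symm φ, fun v hv => ?_, ?_⟩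
      · have h2 := h v hv
        rw [← (dotProductEquiv E ι).apply_symm_apply φ] at h2
        exact h2
      · exact (dotProductEquiv E ι).apply_symm_apply φ
  have h2 : finrank E (pp I) = finrank E I.dualAnnihilator := by
    rw [← h1]
    exact (LinearEquiv.finrank_map_eq (dotProductEquiv E ι) (pp I)).symm
  have h3 := Subspace.finrank_add_finrank_dualAnnihilator_eq I
  rw [h2, add_comm, h3, finrank_fintype_fun_eq_card]

/-- Proof. `I ≤ pp (pp I)` (`le_pp_comm`) and `finrank_pp` twice. -/
theorem pp_pp (I : Submodule E (ι → E)) : pp (pp I) = I := by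
  have h1 : I ≤ pp (pp I) := le_pp_comm le_rfl
  have h2 := finrank_pp I
  have h3 := finrank_pp (pp I)
  exact (Submodule.eq_of_le_of_finrank_eq h1 (by omega)).symm

theorem pp_sup (I J : Submodule E (ι → E)) : pp (I ⊔ J) = pp I ⊓ pp J := by
  refine le_antisymm (le_inf (pp_anti le_sup_left) (pp_anti le_sup_right)) ?_
  intro a ha v hv
  obtain ⟨x, hx, y, hy, rfl⟩ := Submodule.mem_sup.1 hv
  rw [dotProduct_add, ha.1 x hx, ha.2 y hy, add_zero]

/-- Proof. `pp_sup` for `pp I, pp J`, and `pp_pp`. -/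
theorem pp_inf (I J : Submodule E (ι → E)) : pp (I ⊓ J) = pp I ⊔ pp J := by
  have h := pp_sup (pp I) (pp J)
  rw [pp_pp, pp_pp] at h
  rw [← h, pp_pp]

theorem rkS_add (I A : Submodule E (ι → E)) :
    rkS I A + finrank E (A ⊓ pp I : Submodule E (ι → E)) = finrank E A :=
  Nat.sub_add_cancel (Submodule.finrank_mono inf_le_left)

/-- Proof. `Submodule.finrank_sup_add_finrank_inf_eq` for `A, pp I`. -/
theorem rkS_sup (I A : Submodule E (ι → E)) :
    rkS I A + finrank E (pp I) = finrank E (A ⊔ pp I : Submodule E (ι → E)) := by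
  have h1 := Submodule.finrank_sup_add_finrank_inf_eq A (pp I)
  have h2 := rkS_add I A
  omega

/-- Proof. `A ⊔ pp I = pp (pp A ⊓ I)` (`pp_inf`, `pp_pp`), so by `rkS_sup` and `finrank_pp`
`rkS I A = (n - dim (pp A ⊓ I)) - (n - dim I) = dim I - dim (I ⊓ pp A) = rkS A I`. -/
theorem rkS_comm (I A : Submodule E (ι → E)) : rkS I A = rkS A I := by
  have h1 : A ⊔ pp I = pp (I ⊓ pp A) := by
    rw [pp_inf, pp_pp, sup_comm]
  have h2 := rkS_sup I A
  have h3 := finrank_pp (I ⊓ pp A)
  have h4 := finrank_pp I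
  have h5 := rkS_add A I
  rw [h1] at h2
  omega

/-- Proof. In `A`: `rkS_sup`. In `I`: `rkS_comm`. -/
theorem rkS_mono {I I' A A' : Submodule E (ι → E)} (hI : I ≤ I') (hA : A ≤ A') :
    rkS I A ≤ rkS I' A' := by
  have h1 : ∀ J B B' : Submodule E (ι → E), B ≤ B' → rkS J B ≤ rkS J B' := by
    intro J B B' hB
    have h2 := rkS_sup J B
    have h3 := rkS_sup J B'
    have h4 : finrank E (B ⊔ pp J : Submodule E (ι → E)) ≤
        finrank E (B' ⊔ pp J : Submodule E (ι → E)) :=
      Submodule.finrank_mono (sup_le_sup_right hB _)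
    omega
  calc rkS I A ≤ rkS I A' := h1 I A A' hA
    _ = rkS A' I := rkS_comm I A'
    _ ≤ rkS A' I' := h1 A' I I' hI
    _ = rkS I' A' := rkS_comm A' I'

theorem rkS_le_left (I A : Submodule E (ι → E)) : rkS I A ≤ finrank E I := by
  rw [rkS_comm]
  exact Nat.sub_le _ _

theorem rkS_le_right (I A : Submodule E (ι → E)) : rkS I A ≤ finrank E A :=
  Nat.sub_le _ _

end Pool.Agent.Zilber.Ax
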