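import Pool.Agent.Zilber.Ax.LinA

set_option autoImplicit false

/-! AX: the rank `rkS` as the size of the largest minor (pure linear algebra). -/

namespace Pool.Agent.Zilber.Ax

open Module

variable {E ι : Type} [Field E] [Fintype ι]

omit [Fintype ι] in
/-- A family which is independent modulo `K`. -/
private theorem indep_mod {m : ℕ} {R : Fin m → ι → E} {K : Submodule E (ι → E)}
    (h : ∀ c : Fin m → E, ∑ i, c i • R i ∈ K → c = 0) :
    LinearIndependent E R ∧ Submodule.span E (Set.range R) ⊓ K = ⊥ ∧
      finrank E (Submodule.span E (Set.range R)) = m := by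
  have h1 : LinearIndependent E R := by
    rw [Fintype.linearIndependent_iff]
    intro c hc i
    have h2 := h c (by rw [hc]; exact K.zero_mem)
    exact congrFun h2 i
  refine ⟨h1, ?_, ?_⟩
  · rw [Submodule.eq_bot_iff]
    intro x hx
    obtain ⟨h2, h3⟩ := Submodule.mem_inf.1 hx
    obtain ⟨c, hc⟩ := (Submodule.mem_span_range_iff_exists_fun E).1 h2
    have h4 := h c (by rw [hc]; exact h3)
    rw [← hc, h4]
    simp
  · rw [finrank_span_eq_card h1, Fintype.card_fin]

/-- A spanning set contains a family of `rkS` elements which is independent modulo `pp I`. -/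
private theorem exists_fam {A : Set (ι → E)} {I : Submodule E (ι → E)} {m : ℕ}
    (h : m ≤ rkS I (Submodule.span E A)) :
    ∃ R : Fin m → ι → E, (∀ i, R i ∈ A) ∧ ∀ c : Fin m → E, ∑ i, c i • R i ∈ pp I → c = 0 := by
  have h1 : finrank E ((Submodule.span E A).map (pp I).mkQ) +
      finrank E (Submodule.span E A ⊓ pp I : Submodule E (ι → E)) =
        finrank E (Submodule.span E A) := by
    have h2 := LinearMap.finrank_range_add_finrank_ker
      ((pp I).mkQ.comp (Submodule.span E A).subtype)
    have h3 : LinearMap.range ((pp I).mkQ.comp (Submodule.span E A).subtype) =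
        (Submodule.span E A).map (pp I).mkQ := by
      rw [LinearMap.range_comp, Submodule.range_subtype]
    have h4 : LinearMap.ker ((pp I).mkQ.comp (Submodule.span E A).subtype) =
        (pp I).comap (Submodule.span E A).subtype := by
      rw [LinearMap.ker_comp, Submodule.ker_mkQ]
    have h5 : finrank E ((pp I).comap (Submodule.span E A).subtype) =
        finrank E (Submodule.span E A ⊓ pp I : Submodule E (ι → E)) := by
      rw [← Submodule.map_comap_subtype]
      exact (LinearEquiv.finrank_eq (Submodule.equivMapOfInjective _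
        (Submodule.injective_subtype _) _))
    rw [h3, h4, h5] at h2
    exact h2
  have h6 := rkS_add I (Submodule.span E A)
  have h7 : m ≤ finrank E (Submodule.span E ((pp I).mkQ '' A)) := by
    rw [← Submodule.map_span]
    omega
  obtain ⟨b, hb, hbs, hbi⟩ := exists_linearIndependent E ((pp I).mkQ '' A)
  have hfin : Finite b := hbi.finite
  have hft : Fintype b := Fintype.ofFinite b
  have h8 : Fintype.card b = finrank E (Submodule.span E ((pp I).mkQ '' A)) := by
    rw [← hbs]
    have h9 := finrank_span_eq_card hbi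
    rw [Subtype.range_coe] at h9
    exact h9.symm
  have h10 : m ≤ Fintype.card b := by omega
  obtain ⟨f⟩ : Nonempty (Fin m ↪ b) := by
    apply Function.Embedding.nonempty_of_card_le
    rw [Fintype.card_fin]
    exact h10
  have h11 : ∀ i, ∃ r ∈ A, (pp I).mkQ r = f i := fun i => hb (f i).2
  choose R hR1 hR2 using h11
  refine ⟨R, hR1, fun c hc => ?_⟩
  have h12 : LinearIndependent E (fun i => ((f i : b) : (ι → E) ⧸ pp I)) :=
    hbi.comp f f.injective
  rw [Fintype.linearIndependent_iff] at h12
  funext i
  refine h12 c ?_ i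
  have h13 : (pp I).mkQ (∑ i, c i • R i) = 0 := by
    rw [Submodule.mkQ_apply, Submodule.Quotient.mk_eq_zero]
    exact hc
  rw [map_sum] at h13
  rw [← h13]
  refine Finset.sum_congr rfl fun i _ => ?_
  rw [map_smul, hR2]

private theorem vec_dot {m : ℕ} (R V : Fin m → ι → E) (c : Fin m → E) (j : Fin m) :
    Matrix.vecMul c (Matrix.of fun i j => R i ⬝ᵥ V j) j = (∑ i, c i • R i) ⬝ᵥ V j := by
  rw [Matrix.vecMul, dotProduct, sum_dotProduct]
  refine Finset.sum_congr rfl fun i _ => ?_
  rw [smul_dotProduct, Matrix.of_apply, smul_eq_mul]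

/-- **The rank as the size of the largest minor which is not zero.**

Proof. If the determinant is not zero then the span `A'` of the `R i` has dimension `m` and
`A' ⊓ pp (span B) = ⊥` (a combination `∑ c i • R i` in `pp (span B)` gives `c ᵥ* M = 0` for the
matrix `M`, so `c = 0`), so `rkS (span B) A' = m` and `rkS_mono`. Conversely, let
`Q = (ι → E) ⧸ pp (span B)`; the image of `span A` in `Q` has dimension
`rkS (span B) (span A) ≥ m` and is spanned by the images of the elements of `A`
(`Submodule.map_span`, `LinearMap.finrank_range_add_finrank_ker`), so there are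
`R : Fin m → ι → E` in `A` with linearly independent images (`exists_linearIndependent`,
`finrank_span_eq_card`). Let `A'` be the span of the `R i`, so `A' ⊓ pp (span B) = ⊥`,
`rkS A' (span B) = rkS (span B) A' = m`, and in the same way there are `V : Fin m → ι → E` in `B`
whose span `B'` satisfies `B' ⊓ pp A' = ⊥`; both `A'`, `B'` have dimension `m`, so by `rkS_add` and
`rkS_comm` `A' ⊓ pp B' = ⊥`: so `c ᵥ* M = 0` implies `c = 0`
(`Matrix.exists_vecMul_eq_zero_iff`). -/
theorem le_rkS_iff {A B : Set (ι → E)} (m : ℕ) :
    m ≤ rkS (Submodule.span E B) (Submodule.span E A) ↔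
      ∃ R V : Fin m → ι → E, (∀ i, R i ∈ A) ∧ (∀ i, V i ∈ B) ∧
        (Matrix.of fun i j => R i ⬝ᵥ V j).det ≠ 0 := by
  constructor
  · intro h
    obtain ⟨R, hR1, hR2⟩ := exists_fam h
    obtain ⟨hRi, hRb, hRf⟩ := indep_mod hR2
    have h1 := rkS_add (Submodule.span E B) (Submodule.span E (Set.range R))
    rw [hRb, finrank_bot, hRf, add_zero] at h1
    rw [rkS_comm] at h1
    obtain ⟨V, hV1, hV2⟩ := exists_fam (m := m) (I := Submodule.span E (Set.range R)) h1.ge
    obtain ⟨hVi, hVb, hVf⟩ := indep_mod hV2
    have h2 := rkS_add (Submodule.span E (Set.range R)) (Submodule.span E (Set.range V))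
    rw [hVb, finrank_bot, hVf, add_zero, rkS_comm] at h2
    have h3 := rkS_add (Submodule.span E (Set.range V)) (Submodule.span E (Set.range R))
    rw [h2, hRf] at h3
    have h4 : Submodule.span E (Set.range R) ⊓ pp (Submodule.span E (Set.range V)) = ⊥ :=
      Submodule.finrank_eq_zero.1 (by omega)
    refine ⟨R, V, hR1, hV1, fun h5 => ?_⟩
    obtain ⟨c, hc0, hc⟩ := Matrix.exists_vecMul_eq_zero_iff.2 h5
    apply hc0
    have h6 : ∑ i, c i • R i ∈ (⊥ : Submodule E (ι → E)) := by
      rw [← h4]
      refine Submodule.mem_inf.2 ⟨?_, ?_⟩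
      · exact Submodule.sum_mem _ fun i _ =>
          Submodule.smul_mem _ _ (Submodule.subset_span ⟨i, rfl⟩)
      · rw [pp_span]
        rintro v ⟨j, rfl⟩
        rw [← vec_dot, hc]
        rfl
    rw [Submodule.mem_bot] at h6
    rw [Fintype.linearIndependent_iff] at hRi
    funext i
    exact hRi c h6 i
  · rintro ⟨R, V, hR, hV, hdet⟩
    have h1 : ∀ c : Fin m → E, ∑ i, c i • R i ∈ pp (Submodule.span E B) → c = 0 := by
      intro c hc
      apply Matrix.eq_zero_of_vecMul_eq_zero hdet
      funext j
      rw [vec_dot, Pi.zero_apply]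
      exact pp_span.1 hc _ (hV j)
    obtain ⟨_, hRb, hRf⟩ := indep_mod h1
    have h2 := rkS_add (Submodule.span E B) (Submodule.span E (Set.range R))
    rw [hRb, finrank_bot, hRf, add_zero] at h2
    rw [← h2]
    refine rkS_mono le_rfl (Submodule.span_mono ?_)
    rintro x ⟨i, rfl⟩
    exact hR i

end Pool.Agent.Zilber.Ax
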