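import Pool.Agent.Zilber.Ax.Core

set_option autoImplicit false

/-! AX: the lemma N2. -/

namespace Pool.Agent.Zilber.Ax

open Module Pool.Agent.CITLines

/-- **Lemma N2.** `K` is a space of vectors with constant coefficients; the rank over `E` of the
logarithmic differential forms `∑ s, a s dlog (x s)`, `a ∈ K`, is `rkS (Iv k x) (bc E K)`. There
is a rational subspace `U` with `dim (K ∩ U) ≥ dim K - rank K + rank U`.

Proof. Let `I = Iv k x`, `S = {D ∈ Dk k | ∀ a ∈ K, em E a ⬝ᵥ lv x D = 0}`, so `k ≤ cons S`, and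
let `U` be the `ℚ`-span of the integer vectors `u` (as rational vectors) with `mon x u ∈ cons S`.
Let `a : Fin m → ι → F` be a basis of `K` (`m = finrank F K`); the `em E (a i)` are linearly
independent (`linInd_em`), their coordinates are in `k ≤ cons S`, their span is `bc E K`
(`bc_span`). `core` gives `m + dim (span (lv x '' S)) ≤ dim (Iv (cons S) x) + dim (bc E K ⊓ bc E
U)`. (The span of the integer vectors in `core` is `bc E U` by `bc_span`.) `bc E K ⊓ bc E U = bc E
(K ⊓ bc F U)` (`bc_inf`, `bc_bc`), of dimension `finrank F (K ⊓ bc F U)` (`finrank_bc`). `span (lv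
x '' S) = I ⊓ pp (bc E K)` (`S` is the preimage in `Dk k` of `pp (bc E K)` under `lv x`; dot
products commute), so its dimension is `dim I - rkS I (bc E K)` (`rkS_comm`, `rkS_add`). `Iv (cons
S) x ≤ I ⊓ pp (bc E U)`: `Dk (cons S) ≤ Dk k`, and for `mon x u ∈ cons S` and `D ∈ Dk (cons S)`
the number `u ⬝ᵥ lv x D = D (mon x u) / mon x u` is `0` (`lv_mon`); so its dimension is at most
`dim I - rkS I (bc E U)`. -/
theorem n2 {F E ι : Type} [Field F] [CharZero F] [Field E] [CharZero E] [Algebra F E]
    [Fintype ι] (k : Subfield E) (hF : ∀ c : F, algebraMap F E c ∈ k) (x : ι → E)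
    (hx : ∀ s, x s ≠ 0) (K : Submodule F (ι → F)) :
    ∃ U : Submodule ℚ (ι → ℚ), finrank F K + rkS (Iv k x) (bc E U) ≤
      finrank F (K ⊓ bc F U : Submodule F (ι → F)) + rkS (Iv k x) (bc E K) := by
  classical
  -- the derivations which annihilate `K`
  obtain ⟨S, hS⟩ : ∃ S : Set (Derivation ℤ E E),
      S = {D | D ∈ Dk k ∧ ∀ a ∈ K, em E a ⬝ᵥ lv x D = 0} := ⟨_, rfl⟩
  have hk : k ≤ cons S := by
    intro c hc D hD
    rw [hS] at hD
    exact hD.1 c hc
  -- the rational subspace
  let U : Submodule ℚ (ι → ℚ) :=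
    Submodule.span ℚ {v | ∃ u : ι → ℤ, mon x u ∈ cons S ∧ v = fun s => (u s : ℚ)}
  have hU : bc E U =
      Submodule.span E {v | ∃ u : ι → ℤ, mon x u ∈ cons S ∧ v = fun s => (u s : E)} := by
    change bc E (Submodule.span ℚ _) = _
    rw [bc_span]
    congr 1
    ext v
    constructor
    · rintro ⟨w, ⟨u, hu, rfl⟩, rfl⟩
      refine ⟨u, hu, ?_⟩
      funext s
      rw [em_apply]
      simp
    · rintro ⟨u, hu, rfl⟩
      refine ⟨fun s => (u s : ℚ), ⟨u, hu, rfl⟩, ?_⟩
      funext s
      rw [em_apply]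
      simp
  refine ⟨U, ?_⟩
  -- the basis
  let bK := Module.finBasis F K
  let a : Fin (finrank F K) → ι → E := fun i => em E (bK i : ι → F)
  have hind0 : LinearIndependent F (fun i => (bK i : ι → F)) :=
    bK.linearIndependent.map' K.subtype (Submodule.ker_subtype K)
  have hind : LinearIndependent E a := linInd_em hind0
  have hspan0 : Submodule.span F (Set.range fun i => (bK i : ι → F)) = K := by
    have h1 := bK.span_eq
    have h2 : (Set.range fun i => (bK i : ι → F)) = K.subtype '' Set.range bK := by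
      rw [← Set.range_comp]
      rfl
    rw [h2, ← Submodule.map_span, h1, Submodule.map_subtype_top]
  have hspan : Submodule.span E (Set.range a) = bc E K := by
    conv_rhs => rw [← hspan0]
    rw [bc_span, ← Set.range_comp]
    rfl
  have ha : ∀ i s, a i s ∈ cons S := fun i s => hk (hF _)
  have ha0 : ∀ i, ∀ D ∈ S, a i ⬝ᵥ lv x D = 0 := by
    intro i D hD
    rw [hS] at hD
    exact hD.2 _ (bK i).2
  have hcore := core S x hx a ha ha0 hind
  rw [hspan, ← hU, Fintype.card_fin] at hcore
  -- the intersection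
  have e1 : finrank E (bc E K ⊓ bc E U : Submodule E (ι → E)) =
      finrank F (K ⊓ bc F U : Submodule F (ι → F)) := by
    rw [← bc_bc (F := ℚ) (G := F) (E := E) U, ← bc_inf, finrank_bc]
  -- the span of the logarithmic derivatives
  have e2 : finrank E (Iv k x ⊓ pp (bc E K) : Submodule E (ι → E)) ≤
      finrank E (Submodule.span E (lv x '' S)) := by
    apply Submodule.finrank_mono
    rintro v ⟨⟨D, hD, rfl⟩, hv⟩
    refine Submodule.subset_span ⟨D, ?_, rfl⟩
    rw [hS]
    refine ⟨hD, fun w hw => ?_⟩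
    rw [dotProduct_comm]
    exact hv _ (em_mem hw)
  have e3 := rkS_add (bc E K) (Iv k x)
  have e4 := rkS_comm (Iv k x) (bc E K)
  -- the constants of `S`
  have e5 : finrank E (Iv (cons S) x) ≤
      finrank E (Iv k x ⊓ pp (bc E U) : Submodule E (ι → E)) := by
    apply Submodule.finrank_mono
    rintro v ⟨D, hD, rfl⟩
    refine ⟨⟨D, fun c hc => hD c (hk hc), rfl⟩, ?_⟩
    rw [hU]
    refine pp_span.mpr ?_
    rintro w ⟨u, hu, rfl⟩
    rw [dotProduct_comm, ← lv_mon x hx u D, hD _ hu, zero_div]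
  have e6 := rkS_add (bc E U) (Iv k x)
  have e7 := rkS_comm (Iv k x) (bc E U)
  rw [e1] at hcore
  omega

end Pool.Agent.Zilber.Ax
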