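import Pool.Agent.Zilber.Ax.N2
import Pool.Agent.Zilber.Ax.Lim

set_option autoImplicit false

/-! AX: the product version of N2. -/

namespace Pool.Agent.Zilber.Ax

open Module

private theorem scl_inj {E ι : Type} [Field E] (cls : ι → ℕ) {c : E} (hc : c ≠ 0) :
    Function.Injective (scl cls c : (ι → E) →ₗ[E] (ι → E)) := by
  intro v w h
  funext s
  have h1 := congrFun h s
  rw [scl_apply, scl_apply] at h1
  exact mul_left_cancel₀ (pow_ne_zero _ hc) h1

private theorem finrank_scl {E ι : Type} [Field E] (cls : ι → ℕ) {c : E} (hc : c ≠ 0)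
    (A : Submodule E (ι → E)) : finrank E (A.map (scl cls c)) = finrank E A :=
  ((Submodule.equivMapOfInjective _ (scl_inj cls hc) A).finrank_eq).symm

private theorem scl_dot {E ι : Type} [Field E] [Fintype ι] (cls : ι → ℕ) (c : E) (a v : ι → E) :
    scl cls c a ⬝ᵥ v = a ⬝ᵥ scl cls c v := by
  unfold dotProduct
  refine Finset.sum_congr rfl fun s _ => ?_
  rw [scl_apply, scl_apply]
  ring

private theorem scl_hom {E ι : Type} [Field E] [Fintype ι] (cls : ι → ℕ) (c : E)
    {I : Submodule E (ι → E)} (hI : Hom cls I) {v : ι → E} (hv : v ∈ I) : scl cls c v ∈ I := by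
  have h1 : scl cls c v = ∑ l ∈ Finset.univ.image cls, c ^ l • blk cls l v := by
    conv_lhs => rw [sum_blk cls v]
    rw [map_sum]
    refine Finset.sum_congr rfl fun l _ => ?_
    funext s
    rw [scl_apply, Pi.smul_apply, smul_eq_mul]
    unfold blk
    split_ifs with h
    · rw [h]
    · rw [mul_zero, mul_zero]
  rw [h1]
  exact I.sum_mem fun l _ => I.smul_mem _ (hI v hv l)

private theorem scl_map_eq {E ι : Type} [Field E] [Fintype ι] (cls : ι → ℕ) {c : E} (hc : c ≠ 0)
    {I : Submodule E (ι → E)} (hI : Hom cls I) : I.map (scl cls c) = I := by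
  refine Submodule.eq_of_le_of_finrank_eq ?_ (finrank_scl cls hc I)
  rintro _ ⟨v, hv, rfl⟩
  exact scl_hom cls c hI hv

private theorem scl_mem_pp {E ι : Type} [Field E] [Fintype ι] (cls : ι → ℕ) {c : E}
    (hc : c ≠ 0) {I : Submodule E (ι → E)} (hI : Hom cls I) (a : ι → E) :
    scl cls c a ∈ pp I ↔ a ∈ pp I := by
  constructor
  · intro h v hv
    rw [← scl_map_eq cls hc hI] at hv
    obtain ⟨w, hw, rfl⟩ := hv
    rw [← scl_dot]
    exact h w hw
  · intro h v hv
    rw [scl_dot]
    exact h _ (scl_hom cls c hI hv)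

/-- Proof. `scl cls c` maps `I` onto itself: for `v ∈ I`, `scl cls c v = ∑ l, c ^ l • blk cls l v` (`sum_blk`) is in `I`; and
it is injective. `scl cls c a ⬝ᵥ v = a ⬝ᵥ scl cls c v`, so `scl cls c a ∈ pp I ↔ a ∈ pp I`, and
`A.map (scl cls c) ⊓ pp I = (A ⊓ pp I).map (scl cls c)`; injective maps preserve dimensions. -/
theorem rkS_scl {E ι : Type} [Field E] [Fintype ι] (cls : ι → ℕ) (c : E) (hc : c ≠ 0)
    {I : Submodule E (ι → E)} (hI : Hom cls I) (A : Submodule E (ι → E)) :
    rkS I (A.map (scl cls c)) = rkS I A := by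
  have h1 : A.map (scl cls c) ⊓ pp I = (A ⊓ pp I).map (scl cls c) := by
    ext v
    constructor
    · rintro ⟨⟨a, ha, rfl⟩, h⟩
      exact ⟨a, ⟨ha, (scl_mem_pp cls hc hI a).1 h⟩, rfl⟩
    · rintro ⟨a, ⟨ha, ha'⟩, rfl⟩
      exact ⟨⟨a, ha, rfl⟩, (scl_mem_pp cls hc hI a).2 ha'⟩
  unfold rkS
  rw [h1, finrank_scl cls hc, finrank_scl cls hc]

/-- Proof. `em E (scl cls c v) = scl cls (algebraMap F E c) (em E v)`; `Submodule.map_span`. -/
theorem bc_scl {F E ι : Type} [Field F] [Field E] [Algebra F E] (cls : ι → ℕ) (c : F)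
    (K : Submodule F (ι → F)) :
    bc E (K.map (scl cls c)) = (bc E K).map (scl cls (algebraMap F E c)) := by
  have h0 : ∀ v : ι → F, em E (scl cls c v) = scl cls (algebraMap F E c) (em E v) := by
    intro v
    funext s
    rw [em_apply, scl_apply, scl_apply, em_apply, map_mul, map_pow]
  unfold bc
  rw [Submodule.map_span]
  congr 1
  ext w
  constructor
  · rintro ⟨_, ⟨v, hv, rfl⟩, rfl⟩
    exact ⟨em E v, ⟨v, hv, rfl⟩, (h0 v).symm⟩
  · rintro ⟨_, ⟨v, hv, rfl⟩, rfl⟩
    exact ⟨scl cls c v, ⟨v, hv, rfl⟩, h0 v⟩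

/-- There are only countably many rational subspaces. Proof. A subspace is the span of a finite set of vectors, and
`Finset (ι → ℚ)` is countable (or: Mathlib instance for Noetherian modules over countable rings). -/
theorem countable_sub {ι : Type} [Fintype ι] : Countable (Submodule ℚ (ι → ℚ)) := by
  have h1 : Function.Surjective
      fun s : Finset (ι → ℚ) => Submodule.span ℚ (s : Set (ι → ℚ)) := by
    intro U
    exact (IsNoetherian.noetherian U : U.FG)
  exact h1.countable

/-- **N2, product version.** If the space of the vectors of logarithmic derivatives is the sum of its blocks (the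
functions of different blocks depend on different variables) then `U` can be chosen homogeneous.

Proof. Let `I = Iv k x`, `r = rkS I (bc E K)`. For `c ∈ F`, `c ≠ 0`, let `K_c = K.map (scl cls c)`: it has the dimension of
`K` and the rank `r` (`bc_scl`, `rkS_scl`). `n2` gives `U_c` with `dim K + rkS I (bc E U_c) ≤ dim (K_c ⊓ bc F U_c) + r`.
`F \ {0}` is uncountable and there are countably many rational subspaces (`countable_sub`), so there is one `U0` with
`U_c = U0` for infinitely many `c`. Put `m = dim K + rkS I (bc E U0) - r` (if this is not positive `U = ⊥` works: then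
`dim K ≤ r` or use `U = gr cls U0` as below with `m = 0`). By `lim` `m ≤ dim (K ⊓ gr cls (bc F U0))`, and
`gr cls (bc F U0) = bc F (gr cls U0)` (`bc_gr`). Let `U = gr cls U0` (`hom_gr`):
`rkS I (bc E U) = rkS I (gr cls (bc E U0)) ≤ rkS I (bc E U0)` (`rkS_gr`). -/
theorem n2prod {F E ι : Type} [Field F] [CharZero F] [Uncountable F] [Field E] [CharZero E]
    [Algebra F E] [Fintype ι] (k : Subfield E) (hF : ∀ c : F, algebraMap F E c ∈ k)
    (x : ι → E) (hx : ∀ s, x s ≠ 0) (cls : ι → ℕ) (hI : Hom cls (Iv k x))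
    (K : Submodule F (ι → F)) :
    ∃ U : Submodule ℚ (ι → ℚ), Hom cls U ∧ finrank F K + rkS (Iv k x) (bc E U) ≤
      finrank F (K ⊓ bc F U : Submodule F (ι → F)) + rkS (Iv k x) (bc E K) := by
  choose U hU using fun c : F => n2 k hF x hx (K.map (scl cls c))
  have hcount : Countable (Submodule ℚ (ι → ℚ)) := countable_sub
  have h1 : ∃ U0, {c : F | c ≠ 0 ∧ U c = U0}.Infinite := by
    by_contra h
    push Not at h
    have h2 : (Set.univ : Set F).Countable := by
      have h3 : (Set.univ : Set F) = {0} ∪ ⋃ U0, {c : F | c ≠ 0 ∧ U c = U0} := by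
        ext c
        simp only [Set.mem_univ, Set.mem_union, Set.mem_singleton_iff, Set.mem_iUnion, true_iff]
        by_cases hc : c = 0
        · exact Or.inl hc
        · exact Or.inr ⟨U c, hc, rfl⟩
      rw [h3]
      exact (Set.countable_singleton _).union
        (Set.countable_iUnion fun U0 => (h U0).countable)
    exact not_countable (Set.countable_univ_iff.1 h2)
  obtain ⟨U0, hinf⟩ := h1
  have h2 := lim cls K (bc F U0) (finrank F K + rkS (Iv k x) (bc E U0) - rkS (Iv k x) (bc E K))
    _ hinf (by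
      rintro c ⟨hc, hc'⟩
      have h3 := hU c
      have hc2 : algebraMap F E c ≠ 0 := by
        rw [Ne, map_eq_zero]
        exact hc
      rw [hc', finrank_scl cls hc, bc_scl, rkS_scl cls _ hc2 hI] at h3
      exact Nat.sub_le_iff_le_add.2 h3)
  rw [← bc_gr] at h2
  refine ⟨gr cls U0, hom_gr cls U0, ?_⟩
  have h3 := rkS_gr cls hI (bc E U0)
  rw [← bc_gr] at h3
  have h4 := Nat.sub_le_iff_le_add.1 h2
  omega

end Pool.Agent.Zilber.Ax
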