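import Pool.Agent.Zilber.Ax.Defs
import Mathlib.FieldTheory.IntermediateField.Adjoin.Algebra
import Mathlib.Algebra.Polynomial.Roots
import Mathlib.Algebra.Polynomial.Derivative

set_option autoImplicit false

/-! AX: residues of logarithmic derivatives of rational functions. -/

namespace Pool.Agent.Zilber.Ax

open Polynomial

private theorem D_aeval {E : Type} [Field E] (k : Subfield E) (X : E)
    (D : Derivation ℤ E E) (hD : D ∈ Dk k) (hDX : D X = 1) (a : Polynomial k) :
    D (aeval X a) = aeval X (derivative a) := by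
  induction a using Polynomial.induction_on' with
  | add p q hp hq => rw [map_add, map_add, hp, hq, map_add, map_add]
  | monomial n c =>
    rw [aeval_monomial, derivative_monomial, aeval_monomial, D.leibniz, D.leibniz_pow, hDX]
    have hc : D (algebraMap k E c) = 0 := mem_Dk.1 hD _ c.2
    rw [hc, smul_zero, add_zero, map_mul, map_natCast]
    simp only [smul_eq_mul, nsmul_eq_mul, mul_one]
    ring

private theorem repr {E : Type} [Field E] (k : Subfield E) (X : E)
    (n : E) (hn : n ≠ 0)
    (hnL : n ∈ Subfield.closure ((k : Set E) ∪ {X})) :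
    ∃ (p q : ℕ) (a b : Polynomial k), a.coeff 0 ≠ 0 ∧ b.coeff 0 ≠ 0 ∧
      n = (X ^ p * aeval X a) / (X ^ q * aeval X b) := by
  have h1 : n ∈ IntermediateField.adjoin k {X} := by
    have h2 : (IntermediateField.adjoin k {X}).toSubfield =
        Subfield.closure ((k : Set E) ∪ {X}) := by
      rw [IntermediateField.adjoin_toSubfield]
      congr 2
      exact Subtype.range_coe
    rw [← IntermediateField.mem_toSubfield, h2]
    exact hnL
  obtain ⟨r, s, hrs⟩ := (IntermediateField.mem_adjoin_simple_iff k n).1 h1
  have hr : r ≠ 0 := by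
    rintro rfl
    exact hn (by rw [hrs, map_zero, zero_div])
  have hs : s ≠ 0 := by
    rintro rfl
    exact hn (by rw [hrs, map_zero, div_zero])
  obtain ⟨a, ha, ha0⟩ := exists_eq_pow_rootMultiplicity_mul_and_not_dvd r hr 0
  obtain ⟨b, hb, hb0⟩ := exists_eq_pow_rootMultiplicity_mul_and_not_dvd s hs 0
  rw [C_0, sub_zero] at ha ha0 hb hb0
  refine ⟨rootMultiplicity 0 r, rootMultiplicity 0 s, a, b, fun h => ha0 (X_dvd_iff.2 h),
    fun h => hb0 (X_dvd_iff.2 h), ?_⟩
  have er : aeval X r = X ^ rootMultiplicity 0 r * aeval X a := by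
    conv_lhs => rw [ha]
    rw [map_mul, map_pow, aeval_X]
  have es : aeval X s = X ^ rootMultiplicity 0 s * aeval X b := by
    conv_lhs => rw [hb]
    rw [map_mul, map_pow, aeval_X]
  rw [hrs, er, es]

/-- **Residue at `X = 0`.**

Proof. Every nonzero element `n` of the subfield generated by `k` and `X` is
`n = X ^ e * a(X) / b(X)` with `e : ℤ` and polynomials `a, b` over `k` with `a(0) ≠ 0`,
`b(0) ≠ 0` (the subfield is the set of quotients of elements `aeval X p`; for a polynomial
`p ≠ 0` write `p = T ^ v * a`, `a(0) ≠ 0`). `D (aeval X a) = aeval X a'` (`D X = 1`, `D` kills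
the coefficients), so `D n / n = e / X + a'(X) / a(X) - b'(X) / b(X)`. For the `n i` (with
`e i, a i, b i`) the sum `∑ i, ga i * (D (n i) / n i) = 0`, multiplied by
`X * ∏ j, a j (X) * b j (X)`, is `aeval X P = 0` for the polynomial
`P = ∑ i, ga i * (e i * ∏ j, a j * b j + T * (a i' * b i - a i * b i') * ∏ (j ≠ i), a j * b j)`
over `k`; `X` is transcendental, so `P = 0` and
`P(0) = (∑ i, ga i * e i) * ∏ j, a j (0) * b j (0) = 0`. So `∑ i, e i * ga i = 0`; by `hind`
all `e i = 0`. But `n i0 = X ^ N` has `e i0 = N`: (`X ^ N * b(X) = X ^ e * a(X)` and `X`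
transcendental: compare the orders at `0`.) -/
theorem res {E : Type} [Field E] [CharZero E] (k : Subfield E) (X : E)
    (hX : Transcendental k X) (D : Derivation ℤ E E) (hD : D ∈ Dk k) (hDX : D X = 1)
    {m : Type} [Fintype m] (ga : m → E) (hga : ∀ i, ga i ∈ k) (hind : LinearIndependent ℚ ga)
    (n : m → E) (hn : ∀ i, n i ≠ 0)
    (hnL : ∀ i, n i ∈ Subfield.closure ((k : Set E) ∪ {X})) (i0 : m) (N : ℕ) (hN : 0 < N)
    (hi0 : n i0 = X ^ N) : ∑ i, ga i * (D (n i) / n i) ≠ 0 := by
  classical
  intro hsum
  choose p q a b ha hb hnab using fun i => repr k X (n i) (hn i) (hnL i)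
  have hinj : Function.Injective (aeval X : Polynomial k →ₐ[k] E) :=
    transcendental_iff_injective.1 hX
  have hX0 : X ≠ 0 := by
    rintro rfl
    exact hX (isAlgebraic_zero)
  have hne : ∀ r : Polynomial k, r.coeff 0 ≠ 0 → aeval X r ≠ 0 := by
    intro r hr h0
    have : r = 0 := hinj (by rw [h0, map_zero])
    exact hr (by rw [this, coeff_zero])
  have hA : ∀ i, aeval X (a i) ≠ 0 := fun i => hne _ (ha i)
  have hB : ∀ i, aeval X (b i) ≠ 0 := fun i => hne _ (hb i)
  -- logarithmic derivatives
  have hlog : ∀ i, D (n i) / n i = ((p i : E) - (q i : E)) / X +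
      (aeval X (derivative (a i) * b i - a i * derivative (b i))) / aeval X (a i * b i) := by
    intro i
    have h1 : n i * (X ^ q i * aeval X (b i)) = X ^ p i * aeval X (a i) := by
      rw [hnab i]
      exact div_mul_cancel₀ _ (mul_ne_zero (pow_ne_zero _ hX0) (hB i))
    have hpow : ∀ r : ℕ, D (X ^ r) * X = (r : E) * X ^ r := by
      intro r
      rw [D.leibniz_pow, hDX]
      cases r with
      | zero => simp
      | succ r =>
        simp only [smul_eq_mul, nsmul_eq_mul, mul_one, Nat.add_sub_cancel]
        rw [mul_assoc, ← pow_succ]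
    have h2 := congrArg D h1
    rw [D.leibniz, D.leibniz, D.leibniz, D_aeval k X D hD hDX, D_aeval k X D hD hDX] at h2
    simp only [smul_eq_mul] at h2
    rw [map_sub, map_mul, map_mul, map_mul]
    have hp := hpow (p i)
    have hq := hpow (q i)
    have hXp : X ^ p i ≠ 0 := pow_ne_zero _ hX0
    have hXq : X ^ q i ≠ 0 := pow_ne_zero _ hX0
    have hA' := hA i
    have hB' := hB i
    have hn' := hn i
    generalize D (X ^ p i) = dp at *
    generalize D (X ^ q i) = dq at *
    generalize aeval X (a i) = A at *
    generalize aeval X (b i) = B at *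
    generalize aeval X (derivative (a i)) = A' at *
    generalize aeval X (derivative (b i)) = B' at *
    generalize D (n i) = dn at *
    generalize n i = nn at *
    generalize X ^ p i = Xp at *
    generalize X ^ q i = Xq at *
    have e1 : dn = (Xp * A' + A * dp - nn * (Xq * B' + B * dq)) / (Xq * B) := by
      rw [eq_div_iff (mul_ne_zero hXq hB')]
      linear_combination h2
    have e2 : dp = (p i : E) * Xp / X := by rw [eq_div_iff hX0, hp]
    have e3 : dq = (q i : E) * Xq / X := by rw [eq_div_iff hX0, hq]
    have e4 : nn = Xp * A / (Xq * B) := by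
      rw [eq_div_iff (mul_ne_zero hXq hB')]
      exact h1
    rw [e1, e4, e2, e3]
    field_simp
    ring
  -- the polynomial
  set c : m → Polynomial k := fun i => a i * b i with hc
  set w : m → Polynomial k := fun i => derivative (a i) * b i - a i * derivative (b i) with hw
  set g : m → k := fun i => ⟨ga i, hga i⟩ with hg
  set Q : Polynomial k := ∑ i, C (g i) * (((p i : Polynomial k) - (q i : Polynomial k)) *
    (∏ j, c j) + Polynomial.X * w i * (∏ j ∈ Finset.univ.erase i, c j)) with hQ
  have hQ0 : aeval X Q = 0 := by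
    have e : aeval X Q = X * aeval X (∏ j, c j) * ∑ i, ga i * (D (n i) / n i) := by
      rw [hQ, map_sum, Finset.mul_sum]
      refine Finset.sum_congr rfl fun i _ => ?_
      have hprod : ∏ j, c j = c i * ∏ j ∈ Finset.univ.erase i, c j :=
        (Finset.mul_prod_erase _ _ (Finset.mem_univ i)).symm
      rw [hlog i, hprod]
      simp only [map_mul, map_add, map_sub, aeval_X, map_natCast, aeval_C]
      have hci : aeval X (c i) ≠ 0 := by
        rw [hc]; simp only [map_mul]; exact mul_ne_zero (hA i) (hB i)
      have hgi : (algebraMap k E) (g i) = ga i := rfl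
      rw [hgi]
      simp only [hc, hw, map_mul, map_sub]
      have hA' := hA i
      have hB' := hB i
      field_simp
    rw [e, hsum, mul_zero]
  have hQz : Q = 0 := hinj (by rw [hQ0, map_zero])
  have hcoef : (∑ i, (g i) * ((p i : k) - (q i : k))) * ∏ j, (c j).coeff 0 = 0 := by
    have h := congrArg (fun r : Polynomial k => r.eval 0) hQz
    simp only [hQ, eval_finsetSum, eval_mul, eval_add, eval_sub, eval_C, eval_natCast, eval_X,
      zero_mul, add_zero, eval_prod, eval_zero] at h
    rw [Finset.sum_mul]
    rw [← h]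
    refine Finset.sum_congr rfl fun i _ => ?_
    simp only [coeff_zero_eq_eval_zero]
    ring
  have hprod0 : ∏ j, (c j).coeff 0 ≠ 0 := by
    refine Finset.prod_ne_zero_iff.2 fun j _ => ?_
    rw [hc]
    simp only [mul_coeff_zero]
    exact mul_ne_zero (ha j) (hb j)
  have hs0 : ∑ i, (g i) * ((p i : k) - (q i : k)) = 0 := by
    rcases mul_eq_zero.1 hcoef with h | h
    · exact h
    · exact absurd h hprod0
  have hs1 : ∑ i, ((p i : ℚ) - (q i : ℚ)) • ga i = 0 := by
    have h := congrArg (fun z : k => (z : E)) hs0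
    simp only [ZeroMemClass.coe_zero] at h
    rw [← h]
    rw [← Subfield.subtype_apply, map_sum]
    refine Finset.sum_congr rfl fun i _ => ?_
    rw [map_mul, map_sub, map_natCast, map_natCast]
    have : (k.subtype (g i)) = ga i := rfl
    rw [this, Algebra.smul_def, map_sub, map_natCast, map_natCast]
    ring
  have hi := (Fintype.linearIndependent_iff.1 hind) _ hs1 i0
  have hpq : p i0 = q i0 := by
    have : (p i0 : ℚ) = q i0 := sub_eq_zero.1 hi
    exact_mod_cast this
  have hfin : X ^ N * aeval X (b i0) = aeval X (a i0) := by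
    have h := hnab i0
    rw [hi0, hpq, mul_div_mul_left _ _ (pow_ne_zero _ hX0), eq_div_iff (hB i0)] at h
    exact h
  have hfin2 : Polynomial.X ^ N * b i0 = a i0 := by
    apply hinj
    rw [map_mul, map_pow, aeval_X, hfin]
  refine ha i0 ?_
  rw [← hfin2, mul_coeff_zero, coeff_X_pow]
  rw [if_neg (by omega), zero_mul]

end Pool.Agent.Zilber.Ax
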