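import Pool.Agent.Zilber.Ax.Der
import Pool.Agent.LSharp.UDefs

set_option autoImplicit false

/-! AX: internal derivations of an ultraproduct. -/

namespace Pool.Agent.Zilber.Ax

open Filter Pool.Agent.LSharp

variable {J : Type} (𝒰 : Ultrafilter J) {F : J → Type} [∀ j, Field (F j)]

/-- The internal subfield. -/
def Ultk (k : ∀ j, Subfield (F j)) : Subfield (Ult 𝒰 F) where
  carrier := {z | ∃ f : ∀ j, F j, Ult.mk 𝒰 F f = z ∧ ∀ᶠ j in (𝒰 : Filter J), f j ∈ k j}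
  zero_mem' := ⟨0, map_zero _, Eventually.of_forall fun j => (k j).zero_mem⟩
  one_mem' := ⟨1, map_one _, Eventually.of_forall fun j => (k j).one_mem⟩
  add_mem' := by
    rintro _ _ ⟨f, rfl, hf⟩ ⟨g, rfl, hg⟩
    exact ⟨f + g, map_add _ _ _, by filter_upwards [hf, hg] with j h1 h2 using (k j).add_mem h1 h2⟩
  mul_mem' := by
    rintro _ _ ⟨f, rfl, hf⟩ ⟨g, rfl, hg⟩
    exact ⟨f * g, map_mul _ _ _, by filter_upwards [hf, hg] with j h1 h2 using (k j).mul_mem h1 h2⟩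
  neg_mem' := by
    rintro _ ⟨f, rfl, hf⟩
    exact ⟨-f, map_neg _ _, by filter_upwards [hf] with j h1 using (k j).neg_mem h1⟩
  inv_mem' := by
    rintro _ ⟨f, rfl, hf⟩
    exact ⟨fun j => (f j)⁻¹, Ult.mk_inv 𝒰 f, by filter_upwards [hf] with j h1 using (k j).inv_mem h1⟩

theorem mem_Ultk {k : ∀ j, Subfield (F j)} {f : ∀ j, F j} :
    Ult.mk 𝒰 F f ∈ Ultk 𝒰 k ↔ ∀ᶠ j in (𝒰 : Filter J), f j ∈ k j := by
  constructor
  · rintro ⟨g, hg, hk⟩
    filter_upwards [Ult.mk_eq_mk.1 hg, hk] with j h1 h2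
    rwa [← h1]
  · intro h
    exact ⟨f, rfl, h⟩

theorem charZero_ult [∀ j, CharZero (F j)] : CharZero (Ult 𝒰 F) := by
  refine charZero_of_inj_zero fun n hn => ?_
  have h1 : Ult.mk 𝒰 F (fun j => (n : F j)) = 0 := by
    rw [← hn]
    exact map_natCast (Ult.mk 𝒰 F) n
  obtain ⟨j, hj⟩ := (Ult.mk_eq_zero.1 h1).exists
  exact_mod_cast hj

/-- **Internal derivations.**

Proof. Put `D z = mk (fun j => d j (z.rep j))` (`Ult.rep`, `Ult.rep_mk`); additivity and the Leibniz rule hold for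
almost all `j`; `Derivation.mk'` with `AddMonoidHom.toIntLinearMap`. -/
theorem exists_uder (d : ∀ j, Derivation ℤ (F j) (F j)) :
    ∃ D : Derivation ℤ (Ult 𝒰 F) (Ult 𝒰 F), ∀ f : ∀ j, F j,
      D (Ult.mk 𝒰 F f) = Ult.mk 𝒰 F (fun j => d j (f j)) := by
  have key : ∀ f : ∀ j, F j, Ult.mk 𝒰 F (fun j => d j ((Ult.mk 𝒰 F f).rep j)) =
      Ult.mk 𝒰 F (fun j => d j (f j)) := by
    intro f
    rw [Ult.mk_eq_mk]
    filter_upwards [Ult.rep_mk (𝒰 := 𝒰) f] with j hj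
    rw [hj]
  have hadd : ∀ x y : Ult 𝒰 F, Ult.mk 𝒰 F (fun j => d j ((x + y).rep j)) =
      Ult.mk 𝒰 F (fun j => d j (x.rep j)) + Ult.mk 𝒰 F (fun j => d j (y.rep j)) := by
    intro x y
    obtain ⟨f, rfl⟩ := Ult.mk_surj x
    obtain ⟨g, rfl⟩ := Ult.mk_surj y
    rw [← map_add (Ult.mk 𝒰 F) f g, key, key, key, ← map_add (Ult.mk 𝒰 F)]
    congr 1
    funext j
    rw [Pi.add_apply, Pi.add_apply, map_add]
  let L : Ult 𝒰 F →+ Ult 𝒰 F :=
    AddMonoidHom.mk' (fun z => Ult.mk 𝒰 F fun j => d j (z.rep j)) hadd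
  have hL : ∀ f : ∀ j, F j, L (Ult.mk 𝒰 F f) = Ult.mk 𝒰 F (fun j => d j (f j)) := key
  refine ⟨Derivation.mk' L.toIntLinearMap ?_, hL⟩
  intro x y
  obtain ⟨f, rfl⟩ := Ult.mk_surj x
  obtain ⟨g, rfl⟩ := Ult.mk_surj y
  change L (Ult.mk 𝒰 F f * Ult.mk 𝒰 F g) =
    Ult.mk 𝒰 F f * L (Ult.mk 𝒰 F g) + Ult.mk 𝒰 F g * L (Ult.mk 𝒰 F f)
  rw [← map_mul, hL, hL, hL, ← map_mul, ← map_mul, ← map_add]
  congr 1
  funext j
  rw [Pi.mul_apply, (d j).leibniz, Pi.add_apply, Pi.mul_apply, Pi.mul_apply, smul_eq_mul,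
    smul_eq_mul]

/-- The set of the internal derivations which are trivial on the `k j`. -/
def UD (k : ∀ j, Subfield (F j)) : Set (Derivation ℤ (Ult 𝒰 F) (Ult 𝒰 F)) :=
  {D | ∃ d : ∀ j, Derivation ℤ (F j) (F j), (∀ j, d j ∈ Dk (k j)) ∧
    ∀ f : ∀ j, F j, D (Ult.mk 𝒰 F f) = Ult.mk 𝒰 F (fun j => d j (f j))}

/-- **The constants of the internal derivations are internal.**

Proof. `⊇` is clear. Let `z = mk f` be killed by all of them and suppose `f j ∉ k j` for almost all `j` (otherwise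
`f j ∈ k j` for almost all `j`, ultrafilter). For these `j` `f j` is transcendental over `k j` (`hk`) and `exists_der_ne`
gives `d j ∈ Dk (k j)` with `d j (f j) ≠ 0` (`d j = 0` for the other `j`). `exists_uder` gives `D ∈ UD` with `D z ≠ 0`. -/
theorem cons_UD [∀ j, CharZero (F j)] (k : ∀ j, Subfield (F j))
    (hk : ∀ j (z : F j), IsAlgebraic (k j) z → z ∈ k j) : cons (UD 𝒰 k) = Ultk 𝒰 k := by
  ext z
  obtain ⟨f, rfl⟩ := Ult.mk_surj z
  rw [mem_Ultk, mem_cons]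
  constructor
  · intro h
    by_contra hcon
    rw [← Ultrafilter.eventually_not] at hcon
    have hex : ∀ j, ∃ d ∈ Dk (k j), f j ∉ k j → d (f j) ≠ 0 := by
      intro j
      by_cases hj : f j ∈ k j
      · exact ⟨0, Submodule.zero_mem _, fun h' => absurd hj h'⟩
      · obtain ⟨d, hd, hd2⟩ := exists_der_ne (k j) (f j) fun h' => hj (hk j _ h')
        exact ⟨d, hd, fun _ => hd2⟩
    choose d hd hd2 using hex
    obtain ⟨D, hD⟩ := exists_uder 𝒰 d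
    have h0 := h D ⟨d, hd, hD⟩
    rw [hD, Ult.mk_eq_zero] at h0
    obtain ⟨j, h1, h2⟩ := (h0.and hcon).exists
    exact hd2 j h2 h1
  · rintro h D ⟨d, hd, hD⟩
    rw [hD, Ult.mk_eq_zero]
    filter_upwards [h] with j hj
    exact hd j _ hj

end Pool.Agent.Zilber.Ax
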